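import Mathlib

set_option autoImplicit false

/-!
# Product expectations on finite product spaces
-/

namespace Pool.Agent.Helper74.Cross

set_option linter.unusedSectionVars false

open Function Finset

variable {ι T S : Type*} [Fintype ι] [DecidableEq ι] [Fintype T] [DecidableEq T]

/-- Expectation with respect to a product of weights. -/
noncomputable def Ex (w : ι → T → ℝ) (f : (ι → T) → ℝ) : ℝ := ∑ x, (∏ i, w i (x i)) * f x

/-- The rest of the expectation when the coordinate `i` is frozen to `c`. -/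
noncomputable def Rest (w : ι → T → ℝ) (i : ι) (f : (ι → T) → ℝ) (c : T) : ℝ :=
  ∑ y : ({j // j ≠ i} → T), (∏ j, w j.1 (y j)) * f ((Equiv.funSplitAt i T).symm (c, y))

lemma Rest_congr {w w' : ι → T → ℝ} {i : ι} (h : ∀ j, j ≠ i → w j = w' j) (f : (ι → T) → ℝ) :
    Rest w i f = Rest w' i f := by
  funext c
  unfold Rest
  refine Finset.sum_congr rfl (fun y _ => ?_)
  congr 1
  refine Finset.prod_congr rfl (fun j _ => ?_)
  rw [h j.1 j.2]

lemma Ex_eq_sum_Rest (w : ι → T → ℝ) (i : ι) (f : (ι → T) → ℝ) :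
    Ex w f = ∑ c, w i c * Rest w i f c := by
  unfold Ex Rest
  rw [← (Equiv.funSplitAt i T).symm.sum_comp, Fintype.sum_prod_type]
  refine Finset.sum_congr rfl (fun c _ => ?_)
  rw [Finset.mul_sum]
  refine Finset.sum_congr rfl (fun y _ => ?_)
  rw [← mul_assoc]
  congr 1
  rw [Fintype.prod_eq_mul_prod_subtype_ne _ i]
  congr 1
  · simp [Equiv.funSplitAt, Equiv.piSplitAt]
  · refine Finset.prod_congr rfl (fun j _ => ?_)
    simp [Equiv.funSplitAt, Equiv.piSplitAt, j.2]

lemma update_split (i : ι) (c c' : T) (y : {j // j ≠ i} → T) :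
    update ((Equiv.funSplitAt i T).symm (c', y)) i c = (Equiv.funSplitAt i T).symm (c, y) := by
  funext j
  by_cases h : j = i
  · subst h; simp [Equiv.funSplitAt, Equiv.piSplitAt]
  · simp [Equiv.funSplitAt, Equiv.piSplitAt, h]

lemma Ex_update_eq_Rest {w : ι → T → ℝ} {i : ι} (hw : ∑ c, w i c = 1) (f : (ι → T) → ℝ) (c : T) :
    Ex w (fun x => f (update x i c)) = Rest w i f c := by
  rw [Ex_eq_sum_Rest w i]
  have : ∀ c', Rest w i (fun x => f (update x i c)) c' = Rest w i f c := by
    intro c'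
    unfold Rest
    refine Finset.sum_congr rfl (fun y _ => ?_)
    simp only [update_split]
  simp only [this, ← Finset.sum_mul, hw, one_mul]

/-- Resampling one coordinate. -/
lemma Ex_resample {w : ι → T → ℝ} {i : ι} (hw : ∑ c, w i c = 1) (v : T → ℝ)
    (f : (ι → T) → ℝ) :
    Ex (update w i v) f = ∑ c, v c * Ex w (fun x => f (update x i c)) := by
  rw [Ex_eq_sum_Rest _ i]
  refine Finset.sum_congr rfl (fun c _ => ?_)
  rw [Ex_update_eq_Rest hw, update_self]
  congr 1
  exact congrFun (Rest_congr (fun j hj => by rw [update_of_ne hj]) f) c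

lemma Ex_congr_weight {w w' : ι → T → ℝ} {i : ι} (hw : ∑ c, w i c = 1) (hw' : ∑ c, w' i c = 1)
    (h : ∀ j, j ≠ i → w j = w' j) (f : (ι → T) → ℝ) (c : T) :
    Ex w (fun x => f (update x i c)) = Ex w' (fun x => f (update x i c)) := by
  rw [Ex_update_eq_Rest hw, Ex_update_eq_Rest hw', Rest_congr h]

lemma Ex_mono {w : ι → T → ℝ} (hw : ∀ i c, 0 ≤ w i c) {f g : (ι → T) → ℝ}
    (h : ∀ x, f x ≤ g x) : Ex w f ≤ Ex w g := by
  unfold Ex
  refine Finset.sum_le_sum (fun x _ => ?_)
  exact mul_le_mul_of_nonneg_left (h x) (Finset.prod_nonneg (fun i _ => hw i _))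

lemma Ex_nonneg {w : ι → T → ℝ} (hw : ∀ i c, 0 ≤ w i c) {f : (ι → T) → ℝ}
    (h : ∀ x, 0 ≤ f x) : 0 ≤ Ex w f := by
  unfold Ex
  exact Finset.sum_nonneg (fun x _ => mul_nonneg (Finset.prod_nonneg (fun i _ => hw i _)) (h x))

lemma Ex_pos {w : ι → T → ℝ} (hw : ∀ i c, 0 < w i c) {f : (ι → T) → ℝ}
    (h : ∀ x, 0 ≤ f x) (x : ι → T) (hx : 0 < f x) : 0 < Ex w f := by
  unfold Ex
  refine Finset.sum_pos' (fun x _ => mul_nonneg (Finset.prod_nonneg (fun i _ => (hw i _).le)) (h x))
    ⟨x, Finset.mem_univ _, mul_pos (Finset.prod_pos (fun i _ => hw i _)) hx⟩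

/-- Pushing forward along a coordinatewise map. -/
lemma Ex_push [Fintype S] [DecidableEq S] (w : ι → T → ℝ) (h : ι → T → S) (f : (ι → S) → ℝ) :
    Ex w (fun x => f (fun i => h i (x i))) =
      Ex (fun i b => ∑ c ∈ Finset.univ.filter (fun c => h i c = b), w i c) f := by
  unfold Ex
  have h1 : ∀ b : ι → S, (∏ i, ∑ c ∈ Finset.univ.filter (fun c => h i c = b i), w i c) =
      ∑ x ∈ Finset.univ.filter (fun x : ι → T => (fun i => h i (x i)) = b), ∏ i, w i (x i) := by
    intro b
    rw [Finset.prod_univ_sum]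
    refine Finset.sum_congr ?_ (fun x _ => rfl)
    ext x
    simp [Fintype.mem_piFinset, funext_iff]
  simp only [h1, Finset.sum_mul]
  rw [← Finset.sum_fiberwise (s := Finset.univ) (g := fun x : ι → T => (fun i => h i (x i)))]
  refine Finset.sum_congr rfl (fun b _ => ?_)
  refine Finset.sum_congr rfl (fun x hx => ?_)
  rw [Finset.mem_filter] at hx
  rw [hx.2]

/-- Bernoulli weights. -/
def bern (p : ι → ℝ) : ι → Bool → ℝ := fun i b => if b then p i else 1 - p i

lemma bern_sum (p : ι → ℝ) (i : ι) : ∑ c, bern p i c = 1 := by simp [bern]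

lemma bern_update (p : ι → ℝ) (i : ι) (u : ℝ) :
    bern (update p i u) = update (bern p) i (fun b => if b then u else 1 - u) := by
  funext j b
  by_cases h : j = i
  · subst h; simp [bern]
  · simp [bern, h]

lemma bern_nonneg {p : ι → ℝ} (hp : ∀ i, 0 ≤ p i ∧ p i ≤ 1) (i : ι) (c : Bool) :
    0 ≤ bern p i c := by
  cases c <;> simp [bern, (hp i).1, (hp i).2]

lemma bern_pos {p : ι → ℝ} (hp : ∀ i, 0 < p i ∧ p i < 1) (i : ι) (c : Bool) :
    0 < bern p i c := by
  cases c <;> simp [bern, (hp i).1, (hp i).2]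

lemma Ex_bern_update (p : ι → ℝ) (i : ι) (u : ℝ) (f : (ι → Bool) → ℝ) :
    Ex (bern (update p i u)) f = (1 - u) * Ex (bern p) (fun x => f (update x i false)) +
      u * Ex (bern p) (fun x => f (update x i true)) := by
  rw [bern_update, Ex_resample (bern_sum p i)]
  simp [add_comm]

lemma Ex_bern_split (p : ι → ℝ) (i : ι) (f : (ι → Bool) → ℝ) :
    Ex (bern p) f = (1 - p i) * Ex (bern p) (fun x => f (update x i false)) +
      p i * Ex (bern p) (fun x => f (update x i true)) := by
  have := Ex_bern_update p i (p i) f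
  rwa [update_eq_self] at this

end Pool.Agent.Helper74.Cross
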