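import Mathlib

set_option autoImplicit false

/-!
# The real algebra of one pair of coordinates
-/

namespace Pool.Agent.Helper74.Cross

/-- Bilinear interpolation. -/
def bil (u v : ℝ) (z : Bool → Bool → ℝ) : ℝ :=
  (1 - u) * (1 - v) * z false false + (1 - u) * v * z false true +
    u * (1 - v) * z true false + u * v * z true true

/-- Symmetric interpolation with the middle value `m`. -/
def tri (u : ℝ) (a m b : ℝ) : ℝ := (1 - u) ^ 2 * a + 2 * u * (1 - u) * m + u ^ 2 * b

lemma small_pos {a c : ℝ} (b : ℝ) (ha : 0 < a) (hc : 0 < c) :
    ∃ η, 0 < η ∧ η ≤ c ∧ 0 < a + η * b := by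
  refine ⟨c * (a / (a + c * |b| + 1)), ?_, ?_, ?_⟩
  · positivity
  · have h1 : a / (a + c * |b| + 1) ≤ 1 := by
      rw [div_le_one (by positivity)]
      have : 0 ≤ c * |b| := by positivity
      linarith
    nlinarith
  · have hd : 0 < a + c * |b| + 1 := by positivity
    have h1 : -|b| ≤ b := neg_abs_le b
    have h2 : c * (a / (a + c * |b| + 1)) * b ≥ - (c * (a / (a + c * |b| + 1)) * |b|) := by
      have h3 : 0 ≤ c * (a / (a + c * |b| + 1)) := by positivity
      nlinarith
    have h4 : c * (a / (a + c * |b| + 1)) * |b| < a := by
      have : c * (a / (a + c * |b| + 1)) * |b| = a * ((c * |b|) / (a + c * |b| + 1)) := by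
        field_simp
      rw [this]
      have h5 : (c * |b|) / (a + c * |b| + 1) < 1 := by
        rw [div_lt_one hd]
        linarith
      nlinarith
    linarith

lemma first_order {p S T : ℝ} (hp0 : 0 < p) (hp1 : p < 1)
    (h : ∀ u, 0 ≤ u → u ≤ 1 → (u - p) * S + (u - p) ^ 2 * T ≤ 0) : S = 0 := by
  by_contra hS
  rcases lt_or_gt_of_ne hS with hS | hS
  · obtain ⟨η, h1, h2, h3⟩ := small_pos T (neg_pos.2 hS) hp0
    have := h (p - η) (by linarith) (by linarith)
    nlinarith
  · obtain ⟨η, h1, h2, h3⟩ := small_pos T hS (sub_pos.2 hp1)
    have := h (p + η) (by linarith) (by linarith)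
    nlinarith

/-- The data of one pair of coordinates at a maximiser. -/
structure PairData (p q : ℝ) (x y : Bool → Bool → ℝ) : Prop where
  hp0 : 0 < p
  hp1 : p < 1
  hq0 : 0 < q
  hq1 : q < 1
  xm1 : ∀ s, x false s ≤ x true s
  xm2 : ∀ s, x s false ≤ x s true
  ym1 : ∀ s, y true s ≤ y false s
  ym2 : ∀ s, y s true ≤ y s false
  xE : bil p q x = 1
  yE : bil p q y = 1
  H : ∀ u v, 0 ≤ u → u ≤ 1 → 0 ≤ v → v ≤ 1 → bil u v x * bil u v y ≤ 1
  H01 : ∀ u, 0 ≤ u → u ≤ 1 → tri u (x false false) (x false true) (x true true) *
    tri u (y false false) (y false true) (y true true) ≤ 1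
  H10 : ∀ u, 0 ≤ u → u ≤ 1 → tri u (x false false) (x true false) (x true true) *
    tri u (y false false) (y true false) (y true true) ≤ 1

/-- The mixed second difference. -/
def del (z : Bool → Bool → ℝ) : ℝ := z false false - z false true - z true false + z true true

namespace PairData

variable {p q : ℝ} {x y : Bool → Bool → ℝ}

lemma du (h : PairData p q x y) :
    ((1 - q) * (x true false - x false false) + q * (x true true - x false true)) +
    ((1 - q) * (y true false - y false false) + q * (y true true - y false true)) = 0 := by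
  refine first_order (T := ((1 - q) * (x true false - x false false) +
    q * (x true true - x false true)) * ((1 - q) * (y true false - y false false) +
    q * (y true true - y false true))) h.hp0 h.hp1 (fun u h0 h1 => ?_)
  have hx : bil u q x = 1 + (u - p) * ((1 - q) * (x true false - x false false) +
      q * (x true true - x false true)) := by
    have e := h.xE; unfold bil at e ⊢; linear_combination e
  have hy : bil u q y = 1 + (u - p) * ((1 - q) * (y true false - y false false) +
      q * (y true true - y false true)) := by
    have e := h.yE; unfold bil at e ⊢; linear_combination e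
  have := h.H u q h0 h1 h.hq0.le h.hq1.le
  rw [hx, hy] at this
  linarith

lemma dv (h : PairData p q x y) :
    ((1 - p) * (x false true - x false false) + p * (x true true - x true false)) +
    ((1 - p) * (y false true - y false false) + p * (y true true - y true false)) = 0 := by
  refine first_order (T := ((1 - p) * (x false true - x false false) +
    p * (x true true - x true false)) * ((1 - p) * (y false true - y false false) +
    p * (y true true - y true false))) h.hq0 h.hq1 (fun v h0 h1 => ?_)
  have hx : bil p v x = 1 + (v - q) * ((1 - p) * (x false true - x false false) +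
      p * (x true true - x true false)) := by
    have e := h.xE; unfold bil at e ⊢; linear_combination e
  have hy : bil p v y = 1 + (v - q) * ((1 - p) * (y false true - y false false) +
      p * (y true true - y true false)) := by
    have e := h.yE; unfold bil at e ⊢; linear_combination e
  have := h.H p v h.hp0.le h.hp1.le h0 h1
  rw [hx, hy] at this
  linarith

lemma sum_eq (h : PairData p q x y) (u v : ℝ) :
    bil u v x + bil u v y = 2 + (del x + del y) * ((u - p) * (v - q)) := by
  have e1 : bil u v x + bil u v y = bil p q x + bil p q y +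
    (u - p) * (((1 - q) * (x true false - x false false) + q * (x true true - x false true)) +
    ((1 - q) * (y true false - y false false) + q * (y true true - y false true))) +
    (v - q) * (((1 - p) * (x false true - x false false) + p * (x true true - x true false)) +
    ((1 - p) * (y false true - y false false) + p * (y true true - y true false))) +
    (del x + del y) * ((u - p) * (v - q)) := by
    unfold bil del; ring
  rw [e1, h.du, h.dv, h.xE, h.yE]
  ring

lemma s00 (h : PairData p q x y) :
    x false false + y false false = 2 + (del x + del y) * (p * q) := by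
  have := h.sum_eq 0 0
  unfold bil at this
  linarith

lemma s01 (h : PairData p q x y) :
    x false true + y false true = 2 - (del x + del y) * (p * (1 - q)) := by
  have := h.sum_eq 0 1
  unfold bil at this
  linarith

lemma s10 (h : PairData p q x y) :
    x true false + y true false = 2 - (del x + del y) * ((1 - p) * q) := by
  have := h.sum_eq 1 0
  unfold bil at this
  linarith

lemma s11 (h : PairData p q x y) :
    x true true + y true true = 2 + (del x + del y) * ((1 - p) * (1 - q)) := by
  have := h.sum_eq 1 1
  unfold bil at this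
  linarith

lemma del_nonneg (h : PairData p q x y) : 0 ≤ del x + del y := by
  by_contra hneg
  push Not at hneg
  have a1 := h.xm1 false
  have a2 := h.xm1 true
  have a3 := h.xm2 false
  have a4 := h.xm2 true
  have b1 := h.ym1 false
  have b2 := h.ym1 true
  have b3 := h.ym2 false
  have b4 := h.ym2 true
  have hp0 := h.hp0
  have hp1 := h.hp1
  have hq0 := h.hq0
  have hq1 := h.hq1
  set Xu := (1 - q) * (x true false - x false false) + q * (x true true - x false true) with hXu
  set Yu := (1 - q) * (y true false - y false false) + q * (y true true - y false true) with hYu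
  set Xv := (1 - p) * (x false true - x false false) + p * (x true true - x true false) with hXv
  set Yv := (1 - p) * (y false true - y false false) + p * (y true true - y true false) with hYv
  have hu := h.du
  have hv := h.dv
  rw [← hXu, ← hYu] at hu
  rw [← hXv, ← hYv] at hv
  have hXu0 : 0 ≤ Xu := by
    have h1 : 0 ≤ (1 - q) * (x true false - x false false) :=
      mul_nonneg (by linarith) (by linarith)
    have h2 : 0 ≤ q * (x true true - x false true) := mul_nonneg (by linarith) (by linarith)
    linarith
  have hXv0 : 0 ≤ Xv := by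
    have h1 : 0 ≤ (1 - p) * (x false true - x false false) :=
      mul_nonneg (by linarith) (by linarith)
    have h2 : 0 ≤ p * (x true true - x true false) := mul_nonneg (by linarith) (by linarith)
    linarith
  have zero_of : ∀ {a b s t : ℝ}, 0 < a → 0 < b → 0 ≤ s → 0 ≤ t → a * s + b * t = 0 →
      s = 0 ∧ t = 0 := by
    intro a b s t ha hb hs ht hst
    have h1 : 0 ≤ a * s := mul_nonneg ha.le hs
    have h2 : 0 ≤ b * t := mul_nonneg hb.le ht
    have h3 : a * s = 0 := by linarith
    have h4 : b * t = 0 := by linarith
    exact ⟨(mul_eq_zero.1 h3).resolve_left ha.ne', (mul_eq_zero.1 h4).resolve_left hb.ne'⟩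
  have hXupos : 0 < Xu := by
    rcases hXu0.lt_or_eq with h0 | h0
    · exact h0
    · exfalso
      have hx0 := zero_of (sub_pos.2 hq1) hq0 (sub_nonneg.2 a1) (sub_nonneg.2 a2)
        (by rw [← hXu]; exact h0.symm)
      have hy0 := zero_of (a := 1 - q) (b := q) (s := y false false - y true false)
        (t := y false true - y true true) (sub_pos.2 hq1) hq0 (sub_nonneg.2 b1) (sub_nonneg.2 b2)
        (by
          have : Yu = 0 := by linarith
          rw [hYu] at this
          linarith)
      unfold del at hneg
      linarith [hx0.1, hx0.2, hy0.1, hy0.2]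
  have hXvpos : 0 < Xv := by
    rcases hXv0.lt_or_eq with h0 | h0
    · exact h0
    · exfalso
      have hx0 := zero_of (sub_pos.2 hp1) hp0 (sub_nonneg.2 a3) (sub_nonneg.2 a4)
        (by rw [← hXv]; exact h0.symm)
      have hy0 := zero_of (a := 1 - p) (b := p) (s := y false false - y false true)
        (t := y true false - y true true) (sub_pos.2 hp1) hp0 (sub_nonneg.2 b3) (sub_nonneg.2 b4)
        (by
          have : Yv = 0 := by linarith
          rw [hYv] at this
          linarith)
      unfold del at hneg
      linarith [hx0.1, hx0.2, hy0.1, hy0.2]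
  -- choose a small perturbation
  have hc : 0 < min ((1 - p) / Xv) (min (q / Xu) (1 / (Xu * Xv + 1))) := by
    have : 0 < 1 - p := sub_pos.2 hp1
    positivity
  obtain ⟨η, h1, h2, h3⟩ := small_pos (del x * del y) (neg_pos.2 hneg) hc
  have h4 : η * Xv ≤ 1 - p := by
    have := h2.trans (min_le_left _ _)
    rwa [le_div_iff₀ hXvpos] at this
  have h5 : η * Xu ≤ q := by
    have := h2.trans ((min_le_right _ _).trans (min_le_left _ _))
    rwa [le_div_iff₀ hXupos] at this
  have h6 : η * (Xu * Xv) ≤ 1 := by
    have := h2.trans ((min_le_right _ _).trans (min_le_right _ _))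
    rw [le_div_iff₀ (by positivity)] at this
    nlinarith
  have hH := h.H (p + η * Xv) (q - η * Xu) (by positivity) (by linarith) (by linarith)
    (by nlinarith)
  have hx : bil (p + η * Xv) (q - η * Xu) x = 1 - η * (η * (Xu * Xv)) * del x := by
    have : bil (p + η * Xv) (q - η * Xu) x = bil p q x + (η * Xv) * Xu + (- (η * Xu)) * Xv +
        del x * ((η * Xv) * (- (η * Xu))) := by
      rw [hXu, hXv]; unfold bil del; ring
    rw [this, h.xE]; ring
  have hy : bil (p + η * Xv) (q - η * Xu) y = 1 - η * (η * (Xu * Xv)) * del y := by
    have : bil (p + η * Xv) (q - η * Xu) y = bil p q y + (η * Xv) * Yu + (- (η * Xu)) * Yv +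
        del y * ((η * Xv) * (- (η * Xu))) := by
      rw [hYu, hYv]; unfold bil del; ring
    have e1 : Yu = - Xu := by linarith
    have e2 : Yv = - Xv := by linarith
    rw [this, h.yE, e1, e2]; ring
  rw [hx, hy] at hH
  set g := η * (η * (Xu * Xv)) with hg
  have hgpos : 0 < g := by positivity
  have hgle : g ≤ η := by
    have := mul_le_mul_of_nonneg_left h6 h1.le
    rwa [mul_one] at this
  have h7 : 0 < -(del x + del y) + g * (del x * del y) := by
    rcases le_or_gt 0 (del x * del y) with h8 | h8
    · have : 0 ≤ g * (del x * del y) := mul_nonneg hgpos.le h8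
      linarith
    · have h9 := mul_le_mul_of_nonpos_right hgle h8.le
      linarith
  have h10 := mul_pos hgpos h7
  linarith

lemma x00_le (h : PairData p q x y) : x false false ≤ 1 := by
  have e := h.xE
  unfold bil at e
  have a1 := h.xm1 false
  have a2 := h.xm1 true
  have a3 := h.xm2 false
  have a4 := h.xm2 true
  have hp0 := h.hp0
  have hp1 := h.hp1
  have hq0 := h.hq0
  have hq1 := h.hq1
  have c1 : 0 ≤ (1 - p) * q * (x false true - x false false) :=
    mul_nonneg (mul_nonneg (by linarith) (by linarith)) (by linarith)
  have c2 : 0 ≤ p * (1 - q) * (x true false - x false false) :=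
    mul_nonneg (mul_nonneg (by linarith) (by linarith)) (by linarith)
  have c3 : 0 ≤ p * q * (x true true - x false false) :=
    mul_nonneg (mul_nonneg (by linarith) (by linarith)) (by linarith)
  nlinarith

lemma one_le_x11 (h : PairData p q x y) : 1 ≤ x true true := by
  have e := h.xE
  unfold bil at e
  have a1 := h.xm1 false
  have a2 := h.xm1 true
  have a3 := h.xm2 false
  have a4 := h.xm2 true
  have hp0 := h.hp0
  have hp1 := h.hp1
  have hq0 := h.hq0
  have hq1 := h.hq1
  have c1 : 0 ≤ (1 - p) * q * (x true true - x false true) :=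
    mul_nonneg (mul_nonneg (by linarith) (by linarith)) (by linarith)
  have c2 : 0 ≤ p * (1 - q) * (x true true - x true false) :=
    mul_nonneg (mul_nonneg (by linarith) (by linarith)) (by linarith)
  have c3 : 0 ≤ (1 - p) * (1 - q) * (x true true - x false false) :=
    mul_nonneg (mul_nonneg (by linarith) (by linarith)) (by linarith)
  nlinarith

lemma one_le_y00 (h : PairData p q x y) : 1 ≤ y false false := by
  have e := h.yE
  unfold bil at e
  have a1 := h.ym1 false
  have a2 := h.ym1 true
  have a3 := h.ym2 false
  have a4 := h.ym2 true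
  have hp0 := h.hp0
  have hp1 := h.hp1
  have hq0 := h.hq0
  have hq1 := h.hq1
  have c1 : 0 ≤ (1 - p) * q * (y false false - y false true) :=
    mul_nonneg (mul_nonneg (by linarith) (by linarith)) (by linarith)
  have c2 : 0 ≤ p * (1 - q) * (y false false - y true false) :=
    mul_nonneg (mul_nonneg (by linarith) (by linarith)) (by linarith)
  have c3 : 0 ≤ p * q * (y false false - y true true) :=
    mul_nonneg (mul_nonneg (by linarith) (by linarith)) (by linarith)
  nlinarith

lemma y11_le (h : PairData p q x y) : y true true ≤ 1 := by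
  have e := h.yE
  unfold bil at e
  have a1 := h.ym1 false
  have a2 := h.ym1 true
  have a3 := h.ym2 false
  have a4 := h.ym2 true
  have hp0 := h.hp0
  have hp1 := h.hp1
  have hq0 := h.hq0
  have hq1 := h.hq1
  have c1 : 0 ≤ (1 - p) * q * (y false true - y true true) :=
    mul_nonneg (mul_nonneg (by linarith) (by linarith)) (by linarith)
  have c2 : 0 ≤ p * (1 - q) * (y true false - y true true) :=
    mul_nonneg (mul_nonneg (by linarith) (by linarith)) (by linarith)
  have c3 : 0 ≤ (1 - p) * (1 - q) * (y false false - y true true) :=
    mul_nonneg (mul_nonneg (by linarith) (by linarith)) (by linarith)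
  nlinarith

/-- Balanced choice of the common bias. -/
lemma exists_balanced (h : PairData p q x y) (m n : ℝ) :
    ∃ u, 0 ≤ u ∧ u ≤ 1 ∧ tri u (x false false) m (x true true) =
      tri u (y false false) n (y true true) := by
  have hcont : ContinuousOn (fun u => tri u (x false false) m (x true true) -
      tri u (y false false) n (y true true)) (Set.Icc (0:ℝ) 1) := by
    unfold tri; fun_prop
  have h0 := h.x00_le
  have h1 := h.one_le_y00
  have h2 := h.one_le_x11
  have h3 := h.y11_le
  have hmem : (0 : ℝ) ∈ Set.Icc ((fun u => tri u (x false false) m (x true true) -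
      tri u (y false false) n (y true true)) 0) ((fun u => tri u (x false false) m (x true true) -
      tri u (y false false) n (y true true)) 1) := by
    constructor
    · simp only [tri]; linarith
    · simp only [tri]; linarith
  obtain ⟨u, hu, hu2⟩ := intermediate_value_Icc (zero_le_one) hcont hmem
  refine ⟨u, hu.1, hu.2, ?_⟩
  simp only at hu2
  linarith

lemma le_two_of_balanced {X Y : ℝ} (h : X = Y) (h1 : X * Y ≤ 1) : X + Y ≤ 2 := by
  subst h
  nlinarith [sq_nonneg (X - 1)]

/-- If the mixed difference is positive, the biases are equal and so are the middle sections. -/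
lemma eq_of_pos (h : PairData p q x y) (hpos : 0 < del x + del y) :
    p = q ∧ x false true = x true false ∧ y false true = y true false := by
  have hp0 := h.hp0
  have hp1 := h.hp1
  have hq0 := h.hq0
  have hq1 := h.hq1
  have s00 := h.s00
  have s01 := h.s01
  have s10 := h.s10
  have s11 := h.s11
  set E := del x + del y with hE
  obtain ⟨u, hu0, hu1, hu⟩ := h.exists_balanced (x false true) (y false true)
  have hL := le_two_of_balanced hu (h.H01 u hu0 hu1)
  have hb : q * (p * q * (1 - u) ^ 2 - 2 * u * (1 - u) * (p * (1 - q)) +
      u ^ 2 * ((1 - p) * (1 - q))) = p * (u - q) ^ 2 + u ^ 2 * ((1 - q) * (q - p)) := by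
    ring
  have hb2 : tri u (x false false) (x false true) (x true true) +
      tri u (y false false) (y false true) (y true true) = 2 + E *
      (p * q * (1 - u) ^ 2 - 2 * u * (1 - u) * (p * (1 - q)) + u ^ 2 * ((1 - p) * (1 - q))) := by
    have : tri u (x false false) (x false true) (x true true) +
      tri u (y false false) (y false true) (y true true) =
      (1 - u) ^ 2 * (x false false + y false false) + 2 * u * (1 - u) *
      (x false true + y false true) + u ^ 2 * (x true true + y true true) := by
      unfold tri; ring
    rw [this, s00, s01, s11]; ring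
  obtain ⟨w, hw0, hw1, hw⟩ := h.exists_balanced (x true false) (y true false)
  have hL' := le_two_of_balanced hw (h.H10 w hw0 hw1)
  have hb' : p * (p * q * (1 - w) ^ 2 - 2 * w * (1 - w) * ((1 - p) * q) +
      w ^ 2 * ((1 - p) * (1 - q))) = q * (w - p) ^ 2 + w ^ 2 * ((1 - p) * (p - q)) := by
    ring
  have hb2' : tri w (x false false) (x true false) (x true true) +
      tri w (y false false) (y true false) (y true true) = 2 + E *
      (p * q * (1 - w) ^ 2 - 2 * w * (1 - w) * ((1 - p) * q) + w ^ 2 * ((1 - p) * (1 - q))) := by
    have : tri w (x false false) (x true false) (x true true) +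
      tri w (y false false) (y true false) (y true true) =
      (1 - w) ^ 2 * (x false false + y false false) + 2 * w * (1 - w) *
      (x true false + y true false) + w ^ 2 * (x true true + y true true) := by
      unfold tri; ring
    rw [this, s00, s10, s11]; ring
  set B := p * q * (1 - u) ^ 2 - 2 * u * (1 - u) * (p * (1 - q)) +
      u ^ 2 * ((1 - p) * (1 - q)) with hB
  set B' := p * q * (1 - w) ^ 2 - 2 * w * (1 - w) * ((1 - p) * q) +
      w ^ 2 * ((1 - p) * (1 - q)) with hB'
  have hBle : B ≤ 0 := by
    rw [hb2] at hL
    by_contra hcon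
    push Not at hcon
    have := mul_pos hpos hcon
    linarith
  have hB'le : B' ≤ 0 := by
    rw [hb2'] at hL'
    by_contra hcon
    push Not at hcon
    have := mul_pos hpos hcon
    linarith
  have hqB : q * B ≤ 0 := by nlinarith
  have hpB' : p * B' ≤ 0 := by nlinarith
  rw [hb] at hqB
  rw [hb'] at hpB'
  have hpq : p = q := by
    rcases lt_trichotomy p q with hlt | heq | hgt
    · exfalso
      have c1 : 0 ≤ p * (u - q) ^ 2 := by positivity
      have c2 : 0 ≤ u ^ 2 * ((1 - q) * (q - p)) :=
        mul_nonneg (sq_nonneg u) (mul_nonneg (by linarith) (by linarith))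
      have c3 : p * (u - q) ^ 2 = 0 := by linarith
      have c4 : u ^ 2 * ((1 - q) * (q - p)) = 0 := by linarith
      have c5 : u = q := by
        have := (mul_eq_zero.1 c3).resolve_left hp0.ne'
        have := pow_eq_zero_iff (two_ne_zero) |>.1 this
        linarith
      have c6 : 0 < u ^ 2 * ((1 - q) * (q - p)) := by
        rw [c5]
        exact mul_pos (by positivity) (mul_pos (by linarith) (by linarith))
      linarith
    · exact heq
    · exfalso
      have c1 : 0 ≤ q * (w - p) ^ 2 := by positivity
      have c2 : 0 ≤ w ^ 2 * ((1 - p) * (p - q)) :=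
        mul_nonneg (sq_nonneg w) (mul_nonneg (by linarith) (by linarith))
      have c3 : q * (w - p) ^ 2 = 0 := by linarith
      have c5 : w = p := by
        have := (mul_eq_zero.1 c3).resolve_left hq0.ne'
        have := pow_eq_zero_iff (two_ne_zero) |>.1 this
        linarith
      have c6 : 0 < w ^ 2 * ((1 - p) * (p - q)) := by
        rw [c5]
        exact mul_pos (by positivity) (mul_pos (by linarith) (by linarith))
      linarith
  have hup : u = p := by
    rw [hpq] at hqB
    have c1 : 0 ≤ q * (u - q) ^ 2 := by positivity
    have c3 : q * (u - q) ^ 2 = 0 := by linarith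
    have := (mul_eq_zero.1 c3).resolve_left hq0.ne'
    have := pow_eq_zero_iff (two_ne_zero) |>.1 this
    linarith
  have hW : (x false true - y false true) = (x true false - y true false) := by
    have e1 := h.xE
    have e2 := h.yE
    rw [hup] at hu
    unfold bil at e1 e2
    unfold tri at hu
    rw [← hpq] at e1 e2
    have hpp : 0 < p * (1 - p) := mul_pos hp0 (by linarith)
    have : p * (1 - p) * ((x false true - y false true) - (x true false - y true false)) = 0 := by
      linear_combination hu - e1 + e2
    have := (mul_eq_zero.1 this).resolve_left hpp.ne'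
    linarith
  have hS : x false true + y false true = x true false + y true false := by
    rw [s01, s10, hpq]; ring
  exact ⟨hpq, by linarith, by linarith⟩

/-- If the mixed difference vanishes, one coordinate can be dropped. -/
lemma drop_of_zero (h : PairData p q x y) (h0 : del x + del y = 0) :
    (∃ v, 0 ≤ v ∧ v ≤ 1 ∧ (1 - v) * x false false + v * x false true = 1 ∧
      (1 - v) * y false false + v * y false true = 1) ∨
    (∃ u, 0 ≤ u ∧ u ≤ 1 ∧ (1 - u) * x false true + u * x true true = 1 ∧
      (1 - u) * y false true + u * y true true = 1) := by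
  have s00 := h.s00
  have s01 := h.s01
  have s11 := h.s11
  rw [h0] at s00 s01 s11
  have hx00 := h.x00_le
  have hx11 := h.one_le_x11
  have key : ∀ {a b : ℝ}, a ≤ 1 → 1 ≤ b → ∃ v, 0 ≤ v ∧ v ≤ 1 ∧ (1 - v) * a + v * b = 1 := by
    intro a b ha hb
    rcases eq_or_lt_of_le (ha.trans hb) with hab | hab
    · refine ⟨0, le_rfl, zero_le_one, ?_⟩
      have : a = 1 := by linarith
      rw [this]; ring
    · have hd : 0 < b - a := by linarith
      refine ⟨(1 - a) / (b - a), div_nonneg (by linarith) hd.le,
        by rw [div_le_one hd]; linarith, ?_⟩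
      field_simp
      ring
  rcases le_or_gt 1 (x false true) with h1 | h1
  · obtain ⟨v, hv0, hv1, hv⟩ := key hx00 h1
    refine Or.inl ⟨v, hv0, hv1, hv, ?_⟩
    have e1 : y false false = 2 - x false false := by linarith
    have e2 : y false true = 2 - x false true := by linarith
    rw [e1, e2]
    linarith
  · obtain ⟨v, hv0, hv1, hv⟩ := key h1.le hx11
    refine Or.inr ⟨v, hv0, hv1, hv, ?_⟩
    have e1 : y true true = 2 - x true true := by linarith
    have e2 : y false true = 2 - x false true := by linarith
    rw [e1, e2]
    linarith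

/-- With three coordinates (one of them idle), a positive mixed difference contradicts
maximality. -/
lemma triple (h : PairData p q x y) (hpos : 0 < del x + del y) (hpq : p = q)
    (H3 : ∀ u, 0 ≤ u → u ≤ 1 →
      ((1 - u) ^ 3 * x false false + 3 * u * (1 - u) ^ 2 * x false true +
        (3 * u ^ 2 * (1 - u) + u ^ 3) * x true true) *
      ((1 - u) ^ 3 * y false false + 3 * u * (1 - u) ^ 2 * y false true +
        (3 * u ^ 2 * (1 - u) + u ^ 3) * y true true) ≤ 1) : False := by
  have hp0 := h.hp0
  have hp1 := h.hp1
  have s00 := h.s00
  have s01 := h.s01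
  have s11 := h.s11
  set E := del x + del y with hE
  have hcont : ContinuousOn (fun u : ℝ => ((1 - u) ^ 3 * x false false +
      3 * u * (1 - u) ^ 2 * x false true + (3 * u ^ 2 * (1 - u) + u ^ 3) * x true true) -
      ((1 - u) ^ 3 * y false false + 3 * u * (1 - u) ^ 2 * y false true +
        (3 * u ^ 2 * (1 - u) + u ^ 3) * y true true)) (Set.Icc (0:ℝ) 1) := by
    fun_prop
  have h0 := h.x00_le
  have h1 := h.one_le_y00
  have h2 := h.one_le_x11
  have h3 := h.y11_le
  have hmem : (0 : ℝ) ∈ Set.Icc ((fun u : ℝ => ((1 - u) ^ 3 * x false false +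
      3 * u * (1 - u) ^ 2 * x false true + (3 * u ^ 2 * (1 - u) + u ^ 3) * x true true) -
      ((1 - u) ^ 3 * y false false + 3 * u * (1 - u) ^ 2 * y false true +
        (3 * u ^ 2 * (1 - u) + u ^ 3) * y true true)) 0)
      ((fun u : ℝ => ((1 - u) ^ 3 * x false false +
      3 * u * (1 - u) ^ 2 * x false true + (3 * u ^ 2 * (1 - u) + u ^ 3) * x true true) -
      ((1 - u) ^ 3 * y false false + 3 * u * (1 - u) ^ 2 * y false true +
        (3 * u ^ 2 * (1 - u) + u ^ 3) * y true true)) 1) := by
    constructor
    · norm_num; linarith
    · norm_num; linarith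
  obtain ⟨u, hu, hu2⟩ := intermediate_value_Icc (zero_le_one) hcont hmem
  simp only at hu2
  have hL := le_two_of_balanced (sub_eq_zero.1 hu2) (H3 u hu.1 hu.2)
  have hsum : ((1 - u) ^ 3 * x false false +
      3 * u * (1 - u) ^ 2 * x false true + (3 * u ^ 2 * (1 - u) + u ^ 3) * x true true) +
      ((1 - u) ^ 3 * y false false + 3 * u * (1 - u) ^ 2 * y false true +
        (3 * u ^ 2 * (1 - u) + u ^ 3) * y true true) = 2 + E *
      ((1 - u) ^ 3 * p ^ 2 - 3 * u * (1 - u) ^ 2 * (p * (1 - p)) +
        u ^ 2 * (3 - 2 * u) * (1 - p) ^ 2) := by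
    have : ((1 - u) ^ 3 * x false false +
      3 * u * (1 - u) ^ 2 * x false true + (3 * u ^ 2 * (1 - u) + u ^ 3) * x true true) +
      ((1 - u) ^ 3 * y false false + 3 * u * (1 - u) ^ 2 * y false true +
        (3 * u ^ 2 * (1 - u) + u ^ 3) * y true true) =
      (1 - u) ^ 3 * (x false false + y false false) +
      3 * u * (1 - u) ^ 2 * (x false true + y false true) +
        (3 * u ^ 2 * (1 - u) + u ^ 3) * (x true true + y true true) := by ring
    rw [this, s00, s01, s11, ← hpq]; ring
  rw [hsum] at hL
  have hu0 := hu.1
  have hu1 := hu.2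
  have hpos2 : 0 < (1 - u) ^ 3 * p ^ 2 - 3 * u * (1 - u) ^ 2 * (p * (1 - p)) +
        u ^ 2 * (3 - 2 * u) * (1 - p) ^ 2 := by
    rcases eq_or_lt_of_le hu1 with h4 | h4
    · rw [h4]
      have : 0 < (1 - p) ^ 2 := by
        have : 0 < 1 - p := by linarith
        positivity
      nlinarith
    · rcases eq_or_lt_of_le hu0 with h5 | h5
      · rw [← h5]
        have : 0 < p ^ 2 := by positivity
        nlinarith
      · -- complete the square
        set t := 1 - u with ht
        have ht0 : 0 < t := by rw [ht]; linarith
        have hq' : 0 < 1 - p := by linarith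
        have key : 4 * (t ^ 3 * p ^ 2 - 3 * u * t ^ 2 * (p * (1 - p)) +
            u ^ 2 * (3 - 2 * u) * (1 - p) ^ 2) =
            t * (2 * t * p - 3 * u * (1 - p)) ^ 2 + u ^ 2 * (1 - p) ^ 2 * (3 + u) := by
          rw [ht]; ring
        have : 0 < t * (2 * t * p - 3 * u * (1 - p)) ^ 2 + u ^ 2 * (1 - p) ^ 2 * (3 + u) := by
          have a1 : 0 ≤ t * (2 * t * p - 3 * u * (1 - p)) ^ 2 := by positivity
          have a2 : 0 < u ^ 2 * (1 - p) ^ 2 * (3 + u) := by positivity
          linarith
        linarith
  have := mul_pos hpos hpos2
  linarith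

end PairData

end Pool.Agent.Helper74.Cross
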