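import Mathlib
import Pool.Agent.Helper74.CrossBase
import Pool.Agent.Helper74.CrossPair

set_option autoImplicit false

/-!
# The extremal problem on the cube
-/

namespace Pool.Agent.Helper74.Cross

set_option linter.unusedSectionVars false
set_option linter.unusedVariables false
set_option linter.unusedSimpArgs false

open Function Finset

variable {ι : Type*} [Fintype ι] [DecidableEq ι]

/-- Indicator function. -/
noncomputable def ind {X : Type*} (A : Set X) : X → ℝ := A.indicator (fun _ => 1)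

lemma ind_of_mem {X : Type*} {A : Set X} {x : X} (h : x ∈ A) : ind A x = 1 := by
  simp [ind, h]

lemma ind_of_not_mem {X : Type*} {A : Set X} {x : X} (h : x ∉ A) : ind A x = 0 := by
  simp [ind, h]

lemma ind_nonneg {X : Type*} (A : Set X) (x : X) : 0 ≤ ind A x := by
  by_cases h : x ∈ A
  · rw [ind_of_mem h]; exact zero_le_one
  · rw [ind_of_not_mem h]

lemma ind_le_ind {X Y : Type*} {A : Set X} {B : Set Y} {x : X} {y : Y} (h : x ∈ A → y ∈ B) :
    ind A x ≤ ind B y := by
  by_cases hx : x ∈ A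
  · rw [ind_of_mem hx, ind_of_mem (h hx)]
  · rw [ind_of_not_mem hx]; exact ind_nonneg B y

lemma ind_congr {X Y : Type*} {A : Set X} {B : Set Y} {x : X} {y : Y} (h : x ∈ A ↔ y ∈ B) :
    ind A x = ind B y := le_antisymm (ind_le_ind h.1) (ind_le_ind h.2)

/-- Measure of a set under the product of Bernoulli measures. -/
noncomputable def mu (p : ι → ℝ) (A : Set (ι → Bool)) : ℝ := Ex (bern p) (ind A)

/-- Admissible pairs: an upper set and a lower set at Hamming distance at least `D`. -/
structure Adm (D : ℕ) (A B : Set (ι → Bool)) : Prop where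
  up : IsUpperSet A
  lo : IsLowerSet B
  dist : ∀ x ∈ A, ∀ y ∈ B, D ≤ hammingDist x y

lemma Adm.pullback {D : ℕ} {A B : Set (ι → Bool)} (h : Adm D A B) {φ : (ι → Bool) → (ι → Bool)}
    (hm : Monotone φ) (hl : ∀ x y, hammingDist (φ x) (φ y) ≤ hammingDist x y) :
    Adm D (φ ⁻¹' A) (φ ⁻¹' B) where
  up := fun _ _ hxy hx => h.up (hm hxy) hx
  lo := fun _ _ hxy hx => h.lo (hm hxy) hx
  dist := fun x hx y hy => (h.dist _ hx _ hy).trans (hl x y)

lemma hammingDist_eq_sum {T : Type*} [DecidableEq T] (x y : ι → T) :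
    hammingDist x y = ∑ k, if x k ≠ y k then 1 else 0 := by
  rw [hammingDist, Finset.card_filter]

lemma lip_of_local {T : Type*} [DecidableEq T] (s : Finset ι) (φ : (ι → T) → (ι → T))
    (h : ∀ x k, k ∉ s → φ x k = x k)
    (h2 : ∀ x y, ∑ k ∈ s, (if φ x k ≠ φ y k then 1 else 0) ≤
      ∑ k ∈ s, (if x k ≠ y k then 1 else 0)) (x y : ι → T) :
    hammingDist (φ x) (φ y) ≤ hammingDist x y := by
  rw [hammingDist_eq_sum, hammingDist_eq_sum, ← Finset.sum_add_sum_compl s,
    ← Finset.sum_add_sum_compl s]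
  refine add_le_add (h2 x y) (le_of_eq ?_)
  refine Finset.sum_congr rfl (fun k hk => ?_)
  rw [Finset.mem_compl] at hk
  rw [h x k hk, h y k hk]

/-- Change two coordinates simultaneously. -/
def pm (i j : ι) (f g : Bool → Bool → Bool) (x : ι → Bool) : ι → Bool :=
  update (update x i (f (x i) (x j))) j (g (x i) (x j))

lemma pm_i {i j : ι} (hij : i ≠ j) (f g : Bool → Bool → Bool) (x : ι → Bool) :
    pm i j f g x i = f (x i) (x j) := by
  simp [pm, hij]

lemma pm_j {i j : ι} (f g : Bool → Bool → Bool) (x : ι → Bool) :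
    pm i j f g x j = g (x i) (x j) := by
  simp [pm]

lemma pm_other {i j k : ι} (hi : k ≠ i) (hj : k ≠ j) (f g : Bool → Bool → Bool)
    (x : ι → Bool) : pm i j f g x k = x k := by
  simp [pm, hi, hj]

lemma pm_monotone {i j : ι} (hij : i ≠ j) {f g : Bool → Bool → Bool}
    (hf : ∀ a b c d, a ≤ c → b ≤ d → f a b ≤ f c d)
    (hg : ∀ a b c d, a ≤ c → b ≤ d → g a b ≤ g c d) : Monotone (pm i j f g) := by
  intro x y hxy k
  by_cases hi : k = i
  · subst hi; rw [pm_i hij, pm_i hij]; exact hf _ _ _ _ (hxy _) (hxy _)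
  · by_cases hj : k = j
    · subst hj; rw [pm_j, pm_j]; exact hg _ _ _ _ (hxy _) (hxy _)
    · rw [pm_other hi hj, pm_other hi hj]; exact hxy k

lemma pm_lip {i j : ι} (hij : i ≠ j) {f g : Bool → Bool → Bool}
    (hfg : ∀ a b c d, (if f a b ≠ f c d then 1 else 0) + (if g a b ≠ g c d then 1 else 0) ≤
      (if a ≠ c then 1 else 0) + (if b ≠ d then 1 else 0)) (x y : ι → Bool) :
    hammingDist (pm i j f g x) (pm i j f g y) ≤ hammingDist x y := by
  refine lip_of_local {i, j} _ (fun x k hk => ?_) (fun x y => ?_) x y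
  · simp only [Finset.mem_insert, Finset.mem_singleton, not_or] at hk
    exact pm_other hk.1 hk.2 f g x
  · rw [Finset.sum_pair hij, Finset.sum_pair hij, pm_i hij, pm_i hij, pm_j, pm_j]
    exact hfg _ _ _ _

/-- Measures of two-coordinate sections. -/
noncomputable def sec (p : ι → ℝ) (A : Set (ι → Bool)) (i j : ι) (s s' : Bool) : ℝ :=
  Ex (bern p) (fun x => ind A (update (update x i s) j s'))

lemma mu_update2 (p : ι → ℝ) (A : Set (ι → Bool)) (i j : ι) (u v : ℝ) :
    mu (update (update p i u) j v) A = bil u v (sec p A i j) := by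
  unfold mu sec bil
  rw [Ex_bern_update, Ex_bern_update, Ex_bern_update]
  ring

lemma mu_eq_bil (p : ι → ℝ) (A : Set (ι → Bool)) (i j : ι) :
    mu p A = bil (p i) (p j) (sec p A i j) := by
  rw [← mu_update2, update_eq_self, update_eq_self]

lemma sec_pm (p : ι → ℝ) (A : Set (ι → Bool)) {i j : ι} (hij : i ≠ j)
    (f g : Bool → Bool → Bool) (s s' : Bool) :
    sec p (pm i j f g ⁻¹' A) i j s s' = sec p A i j (f s s') (g s s') := by
  unfold sec
  congr 1
  funext x
  refine ind_congr ?_
  rw [Set.mem_preimage]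
  have : pm i j f g (update (update x i s) j s') = update (update x i (f s s')) j (g s s') := by
    funext k
    by_cases hi : k = i
    · subst hi; rw [pm_i hij]; simp [hij]
    · by_cases hj : k = j
      · subst hj; rw [pm_j]; simp [hij]
      · rw [pm_other hi hj]; simp [hi, hj]
  rw [this]

lemma sec_mono1 {p : ι → ℝ} (hp : ∀ i, 0 ≤ p i ∧ p i ≤ 1) {A : Set (ι → Bool)}
    (hA : IsUpperSet A) (i j : ι) (s : Bool) : sec p A i j false s ≤ sec p A i j true s := by
  refine Ex_mono (bern_nonneg hp) (fun x => ind_le_ind (fun h => hA ?_ h))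
  intro k
  simp only [update_apply]
  split_ifs
  · exact le_rfl
  · exact Bool.false_le _
  · exact le_rfl

lemma sec_mono2 {p : ι → ℝ} (hp : ∀ i, 0 ≤ p i ∧ p i ≤ 1) {A : Set (ι → Bool)}
    (hA : IsUpperSet A) (i j : ι) (s : Bool) : sec p A i j s false ≤ sec p A i j s true := by
  refine Ex_mono (bern_nonneg hp) (fun x => ind_le_ind (fun h => hA ?_ h))
  intro k
  simp only [update_apply]
  split_ifs
  · exact Bool.false_le _
  · exact le_rfl
  · exact le_rfl

lemma sec_anti1 {p : ι → ℝ} (hp : ∀ i, 0 ≤ p i ∧ p i ≤ 1) {B : Set (ι → Bool)}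
    (hB : IsLowerSet B) (i j : ι) (s : Bool) : sec p B i j true s ≤ sec p B i j false s := by
  refine Ex_mono (bern_nonneg hp) (fun x => ind_le_ind (fun h => hB ?_ h))
  intro k
  simp only [update_apply]
  split_ifs
  · exact le_rfl
  · exact Bool.false_le _
  · exact le_rfl

lemma sec_anti2 {p : ι → ℝ} (hp : ∀ i, 0 ≤ p i ∧ p i ≤ 1) {B : Set (ι → Bool)}
    (hB : IsLowerSet B) (i j : ι) (s : Bool) : sec p B i j s true ≤ sec p B i j s false := by
  refine Ex_mono (bern_nonneg hp) (fun x => ind_le_ind (fun h => hB ?_ h))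
  intro k
  simp only [update_apply]
  split_ifs
  · exact Bool.false_le _
  · exact le_rfl
  · exact le_rfl

lemma mu_nonneg {p : ι → ℝ} (hp : ∀ i, 0 ≤ p i ∧ p i ≤ 1) (A : Set (ι → Bool)) :
    0 ≤ mu p A := Ex_nonneg (bern_nonneg hp) (fun x => ind_nonneg A x)

lemma mu_mono {p : ι → ℝ} (hp : ∀ i, 0 ≤ p i ∧ p i ≤ 1) {A B : Set (ι → Bool)} (h : A ⊆ B) :
    mu p A ≤ mu p B := Ex_mono (bern_nonneg hp) (fun x => ind_le_ind (fun hx => h hx))

lemma mu_pos {p : ι → ℝ} (hp : ∀ i, 0 < p i ∧ p i < 1) {A : Set (ι → Bool)} {x : ι → Bool}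
    (hx : x ∈ A) : 0 < mu p A :=
  Ex_pos (bern_pos hp) (fun x => ind_nonneg A x) x (by rw [ind_of_mem hx]; exact zero_lt_one)

/-- Global maximisers of the product of the two measures. -/
structure IsMax (D : ℕ) (p : ι → ℝ) (A B : Set (ι → Bool)) : Prop where
  box : ∀ i, 0 ≤ p i ∧ p i ≤ 1
  adm : Adm D A B
  le : ∀ (p' : ι → ℝ) (A' B' : Set (ι → Bool)), (∀ i, 0 ≤ p' i ∧ p' i ≤ 1) → Adm D A' B' →
    mu p' A' * mu p' B' ≤ mu p A * mu p B

lemma IsMax.of_le {D : ℕ} {p : ι → ℝ} {A B : Set (ι → Bool)} (h : IsMax D p A B)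
    {p' : ι → ℝ} {A' B' : Set (ι → Bool)} (hp : ∀ i, 0 ≤ p' i ∧ p' i ≤ 1) (ha : Adm D A' B')
    (hle : mu p A * mu p B ≤ mu p' A' * mu p' B') : IsMax D p' A' B' :=
  ⟨hp, ha, fun p'' A'' B'' h1 h2 => (h.le p'' A'' B'' h1 h2).trans hle⟩

/-- A coordinate on which a set does not depend. -/
def Irr (A : Set (ι → Bool)) (k : ι) : Prop := ∀ x c, update x k c ∈ A ↔ x ∈ A

open Classical in
/-- The relevant coordinates of a pair. -/
noncomputable def rel (A B : Set (ι → Bool)) : Finset ι :=
  Finset.univ.filter (fun k => ¬ (Irr A k ∧ Irr B k))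

lemma mem_rel {A B : Set (ι → Bool)} {k : ι} : k ∈ rel A B ↔ ¬ (Irr A k ∧ Irr B k) := by
  simp [rel]

lemma irr_fix_self (A : Set (ι → Bool)) (i : ι) (c : Bool) :
    Irr ((fun x => update x i c) ⁻¹' A) i := by
  intro x c'
  simp

lemma irr_fix_of_irr {A : Set (ι → Bool)} {k : ι} (h : Irr A k) (i : ι) (c : Bool) :
    Irr ((fun x => update x i c) ⁻¹' A) k := by
  intro x c'
  by_cases hk : k = i
  · subst hk; simp
  · simp only [Set.mem_preimage]
    rw [update_comm hk]
    exact h _ _

lemma rel_fix_lt {A B : Set (ι → Bool)} {i : ι} (hi : i ∈ rel A B) (c : Bool) :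
    (rel ((fun x => update x i c) ⁻¹' A) ((fun x => update x i c) ⁻¹' B)).card <
      (rel A B).card := by
  refine Finset.card_lt_card ⟨fun k hk => ?_, fun hsub => ?_⟩
  · rw [mem_rel] at hk ⊢
    intro h
    exact hk ⟨irr_fix_of_irr h.1 i c, irr_fix_of_irr h.2 i c⟩
  · have := hsub hi
    rw [mem_rel] at this
    exact this ⟨irr_fix_self A i c, irr_fix_self B i c⟩

lemma fix_monotone (i : ι) (c : Bool) : Monotone (fun x : ι → Bool => update x i c) := by
  intro x y hxy k
  simp only [update_apply]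
  split_ifs
  · exact le_rfl
  · exact hxy k

lemma fix_lip (i : ι) (c : Bool) (x y : ι → Bool) :
    hammingDist (update x i c) (update y i c) ≤ hammingDist x y := by
  refine lip_of_local {i} (fun x => update x i c) (fun x k hk => ?_) (fun x y => ?_) x y
  · simp only [Finset.mem_singleton] at hk
    simp [hk]
  · simp

lemma Adm.fix {D : ℕ} {A B : Set (ι → Bool)} (h : Adm D A B) (i : ι) (c : Bool) :
    Adm D ((fun x => update x i c) ⁻¹' A) ((fun x => update x i c) ⁻¹' B) :=
  h.pullback (fix_monotone i c) (fix_lip i c)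

lemma mu_split (p : ι → ℝ) (A : Set (ι → Bool)) (i : ι) :
    mu p A = (1 - p i) * mu p ((fun x => update x i false) ⁻¹' A) +
      p i * mu p ((fun x => update x i true) ⁻¹' A) :=
  Ex_bern_split p i (ind A)

lemma mu_update_of_irr (p : ι → ℝ) {A : Set (ι → Bool)} {k : ι} (h : Irr A k) (u : ℝ) :
    mu (update p k u) A = mu p A := by
  have e : ∀ c, Ex (bern p) (fun x => ind A (update x k c)) = mu p A := by
    intro c
    unfold mu
    congr 1
    funext x
    exact ind_congr (h x c)
  unfold mu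
  rw [Ex_bern_update, e, e]
  unfold mu
  ring

section pair

variable {D : ℕ} {p : ι → ℝ} {A B : Set (ι → Bool)}

lemma IsMax.pairData (h : IsMax D p A B) (hA : 0 < mu p A) (hB : 0 < mu p B) {i j : ι}
    (hij : i ≠ j) (hi : 0 < p i ∧ p i < 1) (hj : 0 < p j ∧ p j < 1) :
    PairData (p i) (p j) (fun s s' => sec p A i j s s' / mu p A)
      (fun s s' => sec p B i j s s' / mu p B) := by
  have hdiv : ∀ (u v : ℝ) (z : Bool → Bool → ℝ) (c : ℝ),
      bil u v (fun s s' => z s s' / c) = bil u v z / c := by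
    intro u v z c; unfold bil; ring
  have hbox : ∀ u v : ℝ, 0 ≤ u → u ≤ 1 → 0 ≤ v → v ≤ 1 →
      ∀ k, 0 ≤ (update (update p i u) j v) k ∧ (update (update p i u) j v) k ≤ 1 := by
    intro u v hu0 hu1 hv0 hv1 k
    by_cases hkj : k = j
    · subst hkj; simp [hv0, hv1]
    · by_cases hki : k = i
      · subst hki; simp [hkj, hu0, hu1]
      · simp [hkj, hki, h.box k]
  have hle : ∀ X Y : ℝ, X * Y ≤ mu p A * mu p B → X / mu p A * (Y / mu p B) ≤ 1 := by
    intro X Y hXY
    rw [div_mul_div_comm, div_le_one (mul_pos hA hB)]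
    exact hXY
  refine ⟨hi.1, hi.2, hj.1, hj.2, ?_, ?_, ?_, ?_, ?_, ?_, ?_, ?_, ?_⟩
  · intro s
    exact div_le_div_of_nonneg_right (sec_mono1 h.box h.adm.up i j s) hA.le
  · intro s
    exact div_le_div_of_nonneg_right (sec_mono2 h.box h.adm.up i j s) hA.le
  · intro s
    exact div_le_div_of_nonneg_right (sec_anti1 h.box h.adm.lo i j s) hB.le
  · intro s
    exact div_le_div_of_nonneg_right (sec_anti2 h.box h.adm.lo i j s) hB.le
  · rw [hdiv, ← mu_eq_bil, div_self hA.ne']
  · rw [hdiv, ← mu_eq_bil, div_self hB.ne']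
  · intro u v hu0 hu1 hv0 hv1
    rw [hdiv, hdiv]
    refine hle _ _ ?_
    rw [← mu_update2, ← mu_update2]
    exact h.le _ _ _ (hbox u v hu0 hu1 hv0 hv1) h.adm
  · intro u hu0 hu1
    have e : ∀ (C : Set (ι → Bool)), tri u (sec p C i j false false / mu p C)
        (sec p C i j false true / mu p C) (sec p C i j true true / mu p C) =
        mu (update (update p i u) j u) (pm i j (fun a b => a && b) (fun a b => a || b) ⁻¹' C) /
          mu p C := by
      intro C
      rw [mu_update2]
      unfold tri bil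
      simp only [sec_pm p C hij, Bool.and_false, Bool.false_and, Bool.and_true, Bool.or_false,
        Bool.or_true, Bool.true_and, Bool.false_or]
      ring
    rw [e, e]
    refine hle _ _ (h.le _ _ _ (hbox u u hu0 hu1 hu0 hu1) (h.adm.pullback ?_ ?_))
    · exact pm_monotone hij (by decide) (by decide)
    · exact pm_lip hij (by decide)
  · intro u hu0 hu1
    have e : ∀ (C : Set (ι → Bool)), tri u (sec p C i j false false / mu p C)
        (sec p C i j true false / mu p C) (sec p C i j true true / mu p C) =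
        mu (update (update p i u) j u) (pm i j (fun a b => a || b) (fun a b => a && b) ⁻¹' C) /
          mu p C := by
      intro C
      rw [mu_update2]
      unfold tri bil
      simp only [sec_pm p C hij, Bool.and_false, Bool.false_and, Bool.and_true, Bool.or_false,
        Bool.or_true, Bool.true_and, Bool.false_or, Bool.true_or]
      ring
    rw [e, e]
    refine hle _ _ (h.le _ _ _ (hbox u u hu0 hu1 hu0 hu1) (h.adm.pullback ?_ ?_))
    · exact pm_monotone hij (by decide) (by decide)
    · exact pm_lip hij (by decide)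

end pair

end Pool.Agent.Helper74.Cross
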