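import Mathlib
import Pool.Agent.Helper74.CrossCube

set_option autoImplicit false

/-!
# Structure of the global maximisers on the cube
-/

namespace Pool.Agent.Helper74.Cross

set_option linter.unusedSectionVars false
set_option linter.unusedVariables false
set_option linter.unusedSimpArgs false

open Function Finset

variable {ι : Type*} [Fintype ι] [DecidableEq ι]

lemma continuous_mu (A : Set (ι → Bool)) : Continuous (fun p : ι → ℝ => mu p A) := by
  unfold mu Ex
  refine continuous_finset_sum _ (fun x _ => ?_)
  refine (continuous_finset_prod _ (fun i _ => ?_)).mul continuous_const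
  cases x i
  · simp only [bern, Bool.false_eq_true, if_false]
    fun_prop
  · simp only [bern, if_true]
    fun_prop

lemma exists_isMax {D : ℕ} (hD : D ≤ Fintype.card ι) :
    ∃ (p : ι → ℝ) (A B : Set (ι → Bool)), IsMax D p A B ∧ 0 < mu p A ∧ 0 < mu p B := by
  classical
  have hK : IsCompact (Set.univ.pi (fun _ : ι => Set.Icc (0:ℝ) 1)) :=
    isCompact_univ_pi (fun _ => isCompact_Icc)
  have hKne : (Set.univ.pi (fun _ : ι => Set.Icc (0:ℝ) 1)).Nonempty :=
    ⟨fun _ => 0, fun i _ => ⟨le_rfl, zero_le_one⟩⟩
  have hex : ∀ P : Set (ι → Bool) × Set (ι → Bool),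
      ∃ p ∈ (Set.univ.pi (fun _ : ι => Set.Icc (0:ℝ) 1)),
        IsMaxOn (fun p => mu p P.1 * mu p P.2) (Set.univ.pi (fun _ : ι => Set.Icc (0:ℝ) 1)) p :=
    fun P => hK.exists_isMaxOn hKne ((continuous_mu P.1).mul (continuous_mu P.2)).continuousOn
  choose pf hpf hmax using hex
  have hone : Adm D ({fun _ => true} : Set (ι → Bool)) {fun _ => false} := by
    refine ⟨?_, ?_, ?_⟩
    · intro x y hxy hx
      rw [Set.mem_singleton_iff] at hx ⊢
      subst hx
      funext k
      have := hxy k
      revert this
      cases y k <;> simp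
    · intro x y hxy hx
      rw [Set.mem_singleton_iff] at hx ⊢
      subst hx
      funext k
      have := hxy k
      revert this
      cases y k <;> simp
    · intro x hx y hy
      rw [Set.mem_singleton_iff] at hx hy
      subst hx; subst hy
      simpa [hammingDist] using hD
  obtain ⟨P, hP, hPmax⟩ := Finset.exists_max_image
    (Finset.univ.filter (fun P : Set (ι → Bool) × Set (ι → Bool) => Adm D P.1 P.2))
    (fun P => mu (pf P) P.1 * mu (pf P) P.2) ⟨({fun _ => true}, {fun _ => false}), by simpa using hone⟩
  simp only [Finset.mem_filter, Finset.mem_univ, true_and] at hP hPmax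
  have hbox : ∀ i, 0 ≤ pf P i ∧ pf P i ≤ 1 := fun i => by
    have := hpf P i (Set.mem_univ i)
    exact ⟨this.1, this.2⟩
  have hM : IsMax D (pf P) P.1 P.2 := by
    refine ⟨hbox, hP, fun p' A' B' h1 h2 => ?_⟩
    have a1 := hmax (A', B') (a := p') (fun i _ => ⟨(h1 i).1, (h1 i).2⟩)
    have a2 := hPmax (A', B') h2
    exact le_trans a1 a2
  refine ⟨pf P, P.1, P.2, hM, ?_⟩
  have hpos : 0 < mu (pf P) P.1 * mu (pf P) P.2 := by
    refine lt_of_lt_of_le ?_ (hM.le (fun _ => 1/2) {fun _ => true} {fun _ => false}
      (fun i => by norm_num) hone)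
    refine mul_pos (mu_pos (fun i => by norm_num) (Set.mem_singleton _))
      (mu_pos (fun i => by norm_num) (Set.mem_singleton _))
  have h1 := mu_nonneg hbox P.1
  have h2 := mu_nonneg hbox P.2
  constructor
  · rcases h1.lt_or_eq with h | h
    · exact h
    · rw [← h] at hpos; simp at hpos
  · rcases h2.lt_or_eq with h | h
    · exact h
    · rw [← h] at hpos; simp at hpos

lemma IsMax.pos {D : ℕ} (hD : D ≤ Fintype.card ι) {p : ι → ℝ} {A B : Set (ι → Bool)}
    (h : IsMax D p A B) : 0 < mu p A ∧ 0 < mu p B := by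
  obtain ⟨p', A', B', h', hA', hB'⟩ := exists_isMax (ι := ι) hD
  have hpos : 0 < mu p A * mu p B :=
    lt_of_lt_of_le (mul_pos hA' hB') (h.le p' A' B' h'.box h'.adm)
  have h1 := mu_nonneg h.box A
  have h2 := mu_nonneg h.box B
  constructor
  · rcases h1.lt_or_eq with h | h
    · exact h
    · rw [← h] at hpos; simp at hpos
  · rcases h2.lt_or_eq with h | h
    · exact h
    · rw [← h] at hpos; simp at hpos

/-- Changing irrelevant coordinates of a point. -/
lemma mem_iff_of_irr {A : Set (ι → Bool)} {x y : ι → Bool} (h : ∀ k, x k ≠ y k → Irr A k) :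
    x ∈ A ↔ y ∈ A := by
  classical
  have key : ∀ s : Finset ι, (∀ k ∈ s, Irr A k) → ((fun k => if k ∈ s then y k else x k) ∈ A ↔
      x ∈ A) := by
    intro s
    induction s using Finset.induction_on with
    | empty => intro _; simp
    | insert a s ha ih =>
      intro hs
      rw [← ih (fun k hk => hs k (Finset.mem_insert_of_mem hk))]
      have : (fun k => if k ∈ insert a s then y k else x k) =
          update (fun k => if k ∈ s then y k else x k) a (y a) := by
        funext k
        by_cases hk : k = a
        · subst hk; simp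
        · simp [hk]
      rw [this]
      exact hs a (Finset.mem_insert_self _ _) _ _
  have h2 := key (Finset.univ.filter (fun k => x k ≠ y k)) (fun k hk => h k (by simpa using hk))
  rw [← h2]
  have : (fun k => if k ∈ Finset.univ.filter (fun k => x k ≠ y k) then y k else x k) = y := by
    funext k
    by_cases hk : x k = y k
    · simp [hk]
    · simp [hk]
  rw [this]

/-- Changing the biases of irrelevant coordinates. -/
lemma mu_congr_of_irr {A : Set (ι → Bool)} {p p' : ι → ℝ} (h : ∀ k, p k ≠ p' k → Irr A k) :
    mu p' A = mu p A := by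
  classical
  have key : ∀ s : Finset ι, (∀ k ∈ s, Irr A k) → mu (fun k => if k ∈ s then p' k else p k) A =
      mu p A := by
    intro s
    induction s using Finset.induction_on with
    | empty => intro _; simp
    | insert a s ha ih =>
      intro hs
      rw [← ih (fun k hk => hs k (Finset.mem_insert_of_mem hk))]
      have : (fun k => if k ∈ insert a s then p' k else p k) =
          update (fun k => if k ∈ s then p' k else p k) a (p' a) := by
        funext k
        by_cases hk : k = a
        · subst hk; simp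
        · simp [hk]
      rw [this]
      exact mu_update_of_irr _ (hs a (Finset.mem_insert_self _ _)) _
  have h2 := key (Finset.univ.filter (fun k => p k ≠ p' k)) (fun k hk => h k (by simpa using hk))
  rw [← h2]
  have : (fun k => if k ∈ Finset.univ.filter (fun k => p k ≠ p' k) then p' k else p k) = p' := by
    funext k
    by_cases hk : p k = p' k
    · simp [hk]
    · simp [hk]
  rw [this]

lemma sec_fix_left (p : ι → ℝ) (A : Set (ι → Bool)) {i j : ι} (hij : i ≠ j) (c s s' : Bool) :
    sec p ((fun x => update x i c) ⁻¹' A) i j s s' = sec p A i j c s' := by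
  have : (fun x : ι → Bool => update x i c) = pm i j (fun _ _ => c) (fun _ b => b) := by
    funext x k
    by_cases hi : k = i
    · subst hi; rw [pm_i hij]; simp
    · by_cases hj : k = j
      · subst hj; rw [pm_j]; simp [hi]
      · rw [pm_other hi hj]; simp [hi]
  rw [this, sec_pm p A hij]

lemma sec_fix_right (p : ι → ℝ) (A : Set (ι → Bool)) {i j : ι} (hij : i ≠ j) (c s s' : Bool) :
    sec p ((fun x => update x j c) ⁻¹' A) i j s s' = sec p A i j s c := by
  have : (fun x : ι → Bool => update x j c) = pm i j (fun a _ => a) (fun _ _ => c) := by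
    funext x k
    by_cases hj : k = j
    · subst hj; rw [pm_j]; simp
    · by_cases hi : k = i
      · subst hi; rw [pm_i hij]; simp [hj]
      · rw [pm_other hi hj]; simp [hj]
  rw [this, sec_pm p A hij]

lemma box_update2 {p : ι → ℝ} (hp : ∀ i, 0 ≤ p i ∧ p i ≤ 1) {u v : ℝ} (i j : ι) (hu0 : 0 ≤ u)
    (hu1 : u ≤ 1) (hv0 : 0 ≤ v) (hv1 : v ≤ 1) :
    ∀ k, 0 ≤ (update (update p i u) j v) k ∧ (update (update p i u) j v) k ≤ 1 := by
  intro k
  by_cases hkj : k = j
  · subst hkj; simp [hv0, hv1]
  · by_cases hki : k = i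
    · subst hki; simp [hkj, hu0, hu1]
    · simp [hkj, hki, hp k]

/-- Majority, or, forget. -/
def phi3 (i j k : ι) (x : ι → Bool) : ι → Bool :=
  update (update (update x i ((x i && x j) || (x i && x k) || (x j && x k))) j
    (x i || x j || x k)) k false

lemma bool_or3 : ∀ a b c a' b' c' : Bool, a ≤ a' → b ≤ b' → c ≤ c' →
    (a || b || c) ≤ (a' || b' || c') := by decide

lemma bool_maj3 : ∀ a b c a' b' c' : Bool, a ≤ a' → b ≤ b' → c ≤ c' →
    ((a && b) || (a && c) || (b && c)) ≤ ((a' && b') || (a' && c') || (b' && c')) := by decide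

lemma phi3_monotone (i j k : ι) : Monotone (phi3 i j k) := by
  intro x y hxy l
  have hi := hxy i
  have hj := hxy j
  have hk := hxy k
  have hl := hxy l
  simp only [phi3, update_apply]
  split_ifs
  · exact le_rfl
  · exact bool_or3 _ _ _ _ _ _ hi hj hk
  · exact bool_maj3 _ _ _ _ _ _ hi hj hk
  · exact hl

lemma phi3_lip {i j k : ι} (hij : i ≠ j) (hik : i ≠ k) (hjk : j ≠ k) (x y : ι → Bool) :
    hammingDist (phi3 i j k x) (phi3 i j k y) ≤ hammingDist x y := by
  refine lip_of_local {i, j, k} _ (fun x l hl => ?_) (fun x y => ?_) x y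
  · simp only [Finset.mem_insert, Finset.mem_singleton, not_or] at hl
    simp [phi3, hl.1, hl.2.1, hl.2.2]
  · have h1 : i ∉ ({j, k} : Finset ι) := by simp [hij, hik]
    have h2 : j ∉ ({k} : Finset ι) := by simp [hjk]
    rw [Finset.sum_insert h1, Finset.sum_insert h2, Finset.sum_singleton,
      Finset.sum_insert h1, Finset.sum_insert h2, Finset.sum_singleton]
    simp only [phi3, update_self, update_of_ne hij, update_of_ne hik, update_of_ne hjk]
    generalize x i = a; generalize x j = b; generalize x k = c
    generalize y i = a'; generalize y j = b'; generalize y k = c'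
    revert a b c a' b' c'
    decide

lemma mu_phi3 (p : ι → ℝ) {A : Set (ι → Bool)} {i j k : ι} (hij : i ≠ j) (hik : i ≠ k)
    (hjk : j ≠ k) (hk : Irr A k) (u : ℝ) :
    mu (update (update (update p i u) j u) k u) (phi3 i j k ⁻¹' A) =
      (1 - u) ^ 3 * sec p A i j false false + 3 * u * (1 - u) ^ 2 * sec p A i j false true +
        (3 * u ^ 2 * (1 - u) + u ^ 3) * sec p A i j true true := by
  have e : ∀ s s' s'' : Bool, Ex (bern p) (fun x => ind (phi3 i j k ⁻¹' A)
      (update (update (update x i s) j s') k s'')) =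
      sec p A i j ((s && s') || (s && s'') || (s' && s'')) (s || s' || s'') := by
    intro s s' s''
    unfold sec
    congr 1
    funext x
    refine ind_congr ?_
    rw [Set.mem_preimage]
    have : phi3 i j k (update (update (update x i s) j s') k s'') =
        update (update (update x i ((s && s') || (s && s'') || (s' && s''))) j
          (s || s' || s'')) k false := by
      funext l
      by_cases hlk : l = k
      · subst hlk; simp [phi3]
      · by_cases hlj : l = j
        · subst hlj
          simp [phi3, hij, hik, hjk]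
        · by_cases hli : l = i
          · subst hli
            simp [phi3, hij, hik, hjk]
          · simp [phi3, hlk, hlj, hli]
    rw [this]
    exact hk _ _
  unfold mu
  simp only [Ex_bern_update, e, Bool.and_false, Bool.false_and, Bool.and_true, Bool.or_false,
        Bool.or_true, Bool.true_and, Bool.false_or, Bool.true_or]
  ring

/-- The hypothesis that `m` is the least number of relevant coordinates of a maximiser. -/
def LB (ι : Type*) [Fintype ι] [DecidableEq ι] (D m : ℕ) : Prop :=
  ∀ (p : ι → ℝ) (A B : Set (ι → Bool)), IsMax D p A B → m ≤ (rel A B).card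

section minimal

variable {D m : ℕ} {p : ι → ℝ} {A B : Set (ι → Bool)}

lemma no_drop (hm : LB ι D m) (h : IsMax D p A B) (hc : (rel A B).card = m) {i : ι}
    (hi : i ∈ rel A B) (c : Bool) {p' : ι → ℝ} (hp' : ∀ i, 0 ≤ p' i ∧ p' i ≤ 1)
    (e1 : mu p' ((fun x => update x i c) ⁻¹' A) = mu p A)
    (e2 : mu p' ((fun x => update x i c) ⁻¹' B) = mu p B) : False := by
  have h' : IsMax D p' ((fun x => update x i c) ⁻¹' A) ((fun x => update x i c) ⁻¹' B) :=
    h.of_le hp' (h.adm.fix i c) (by rw [e1, e2])
  have h1 := hm _ _ _ h'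
  have h2 := rel_fix_lt hi c
  omega

lemma interior (hm : LB ι D m) (h : IsMax D p A B) (hc : (rel A B).card = m) {i : ι}
    (hi : i ∈ rel A B) : 0 < p i ∧ p i < 1 := by
  constructor
  · rcases (h.box i).1.lt_or_eq with h0 | h0
    · exact h0
    · exfalso
      refine no_drop hm h hc hi false h.box ?_ ?_
      · rw [mu_split p A i, ← h0]; ring
      · rw [mu_split p B i, ← h0]; ring
  · rcases (h.box i).2.lt_or_eq with h0 | h0
    · exact h0
    · exfalso
      refine no_drop hm h hc hi true h.box ?_ ?_
      · rw [mu_split p A i, h0]; ring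
      · rw [mu_split p B i, h0]; ring

lemma del_pos (hD : D ≤ Fintype.card ι) (hm : LB ι D m) (h : IsMax D p A B)
    (hc : (rel A B).card = m) {i j : ι} (hij : i ≠ j) (hi : i ∈ rel A B) (hj : j ∈ rel A B) :
    0 < del (fun s s' => sec p A i j s s' / mu p A) +
      del (fun s s' => sec p B i j s s' / mu p B) := by
  obtain ⟨hA, hB⟩ := h.pos hD
  have hpd := h.pairData hA hB hij (interior hm h hc hi) (interior hm h hc hj)
  rcases hpd.del_nonneg.lt_or_eq with h0 | h0
  · exact h0
  · exfalso
    rcases hpd.drop_of_zero h0.symm with ⟨v, hv0, hv1, e1, e2⟩ | ⟨u, hu0, hu1, e1, e2⟩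
    · refine no_drop hm h hc hi false (box_update2 h.box i j le_rfl zero_le_one hv0 hv1) ?_ ?_
      · rw [mu_update2]
        unfold bil
        simp only [sec_fix_left p A hij]
        field_simp at e1
        linarith
      · rw [mu_update2]
        unfold bil
        simp only [sec_fix_left p B hij]
        field_simp at e2
        linarith
    · refine no_drop hm h hc hj true (box_update2 h.box i j hu0 hu1 le_rfl zero_le_one) ?_ ?_
      · rw [mu_update2]
        unfold bil
        simp only [sec_fix_right p A hij]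
        field_simp at e1
        linarith
      · rw [mu_update2]
        unfold bil
        simp only [sec_fix_right p B hij]
        field_simp at e2
        linarith

lemma nonempty_of_mu_pos {A : Set (ι → Bool)} (h : 0 < mu p A) : A.Nonempty := by
  by_contra hcon
  rw [Set.not_nonempty_iff_eq_empty] at hcon
  subst hcon
  unfold mu Ex ind at h
  simp at h

lemma card_rel_ge (hD : D ≤ Fintype.card ι) (h : IsMax D p A B) : D ≤ (rel A B).card := by
  classical
  obtain ⟨hA, hB⟩ := h.pos hD
  obtain ⟨x, hx⟩ := nonempty_of_mu_pos hA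
  obtain ⟨y, hy⟩ := nonempty_of_mu_pos hB
  have hy' : (fun k => if k ∈ rel A B then y k else x k) ∈ B := by
    refine (mem_iff_of_irr (fun k hk => ?_)).1 hy
    by_cases h1 : k ∈ rel A B
    · simp [h1] at hk
    · rw [mem_rel, not_not] at h1
      exact h1.2
  refine (h.adm.dist x hx _ hy').trans ?_
  rw [hammingDist]
  refine Finset.card_le_card (fun k hk => ?_)
  simp only [Finset.mem_filter, Finset.mem_univ, true_and] at hk
  by_contra h1
  simp [h1] at hk

/-- In a maximiser with the least number of relevant coordinates every coordinate is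
relevant. -/
lemma all_rel (hD : D ≤ Fintype.card ι) (hD2 : 2 ≤ D) (hm : LB ι D m) (h : IsMax D p A B)
    (hc : (rel A B).card = m) : rel A B = Finset.univ := by
  classical
  by_contra hne
  obtain ⟨k, hk⟩ : ∃ k, k ∉ rel A B := by
    by_contra hcon
    push Not at hcon
    exact hne (Finset.eq_univ_iff_forall.2 hcon)
  have hge := card_rel_ge hD h
  obtain ⟨i, hi, j, hj, hij⟩ := Finset.one_lt_card.1 (lt_of_lt_of_le (by omega : 1 < D) hge)
  obtain ⟨hA, hB⟩ := h.pos hD
  have hpd := h.pairData hA hB hij (interior hm h hc hi) (interior hm h hc hj)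
  have hpos := del_pos hD hm h hc hij hi hj
  have hik : i ≠ k := fun h => hk (h ▸ hi)
  have hjk : j ≠ k := fun h => hk (h ▸ hj)
  rw [mem_rel, not_not] at hk
  refine hpd.triple hpos (hpd.eq_of_pos hpos).1 (fun u hu0 hu1 => ?_)
  have e1 := mu_phi3 p hij hik hjk hk.1 u
  have e2 := mu_phi3 p hij hik hjk hk.2 u
  have hbox : ∀ l, 0 ≤ (update (update (update p i u) j u) k u) l ∧
      (update (update (update p i u) j u) k u) l ≤ 1 := by
    intro l
    by_cases hlk : l = k
    · subst hlk; simp [hu0, hu1]
    · simp only [update_of_ne hlk]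
      exact box_update2 h.box i j hu0 hu1 hu0 hu1 l
  have hle := h.le _ _ _ hbox (h.adm.pullback (phi3_monotone i j k) (phi3_lip hij hik hjk))
  rw [e1, e2] at hle
  have : ∀ X Y : ℝ, X * Y ≤ mu p A * mu p B → X / mu p A * (Y / mu p B) ≤ 1 := by
    intro X Y hXY
    rw [div_mul_div_comm, div_le_one (mul_pos hA hB)]
    exact hXY
  refine le_trans (le_of_eq ?_) (this _ _ hle)
  congr 1
  · ring
  · ring

end minimal

/-- In every maximiser, every coordinate is relevant. -/
lemma IsMax.all_rel {D : ℕ} {p : ι → ℝ} {A B : Set (ι → Bool)} (h : IsMax D p A B)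
    (hD : D ≤ Fintype.card ι) (hD2 : 2 ≤ D) :
    (LB ι D (Fintype.card ι)) ∧ rel A B = Finset.univ := by
  classical
  let S : Set ℕ := {n | ∃ (p : ι → ℝ) (A B : Set (ι → Bool)), IsMax D p A B ∧ (rel A B).card = n}
  have hS : S.Nonempty := ⟨_, p, A, B, h, rfl⟩
  have hm : LB ι D (sInf S) := fun p A B h => Nat.sInf_le ⟨p, A, B, h, rfl⟩
  obtain ⟨p₀, A₀, B₀, h₀, hc₀⟩ := Nat.sInf_mem hS
  have h1 := Cross.all_rel hD hD2 hm h₀ hc₀
  have h2 : sInf S = Fintype.card ι := by
    rw [← hc₀, h1, Finset.card_univ]
  rw [h2] at hm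
  refine ⟨hm, ?_⟩
  have h3 := hm p A B h
  exact Finset.eq_univ_of_card _ (le_antisymm (Finset.card_le_univ _) h3)

section max

variable {D : ℕ} {p : ι → ℝ} {A B : Set (ι → Bool)}

lemma IsMax.interior (h : IsMax D p A B) (hD : D ≤ Fintype.card ι) (hD2 : 2 ≤ D) (i : ι) :
    0 < p i ∧ p i < 1 := by
  obtain ⟨hm, hr⟩ := h.all_rel hD hD2
  exact Cross.interior hm h (by rw [hr, Finset.card_univ]) (by rw [hr]; exact Finset.mem_univ i)

lemma IsMax.sym (h : IsMax D p A B) (hD : D ≤ Fintype.card ι) (hD2 : 2 ≤ D) {i j : ι}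
    (hij : i ≠ j) : p i = p j ∧ sec p A i j false true = sec p A i j true false ∧
      sec p B i j false true = sec p B i j true false := by
  obtain ⟨hm, hr⟩ := h.all_rel hD hD2
  have hc : (rel A B).card = Fintype.card ι := by rw [hr, Finset.card_univ]
  have hi : i ∈ rel A B := by rw [hr]; exact Finset.mem_univ i
  have hj : j ∈ rel A B := by rw [hr]; exact Finset.mem_univ j
  obtain ⟨hA, hB⟩ := h.pos hD
  have hpd := h.pairData hA hB hij (Cross.interior hm h hc hi) (Cross.interior hm h hc hj)
  have := hpd.eq_of_pos (del_pos hD hm h hc hij hi hj)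
  refine ⟨this.1, ?_, ?_⟩
  · have h1 := this.2.1
    exact (div_left_inj' hA.ne').1 h1
  · have h1 := this.2.2
    exact (div_left_inj' hB.ne').1 h1

/-- Sorting two coordinates. -/
def srt (i j : ι) : (ι → Bool) → (ι → Bool) := pm i j (fun a b => a && b) (fun a b => a || b)

lemma IsMax.srt (h : IsMax D p A B) (hD : D ≤ Fintype.card ι) (hD2 : 2 ≤ D) {i j : ι}
    (hij : i ≠ j) : IsMax D p (srt i j ⁻¹' A) (srt i j ⁻¹' B) := by
  obtain ⟨e1, e2, e3⟩ := h.sym hD hD2 hij
  refine h.of_le h.box (h.adm.pullback (pm_monotone hij (by decide) (by decide))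
    (pm_lip hij (by decide))) (le_of_eq ?_)
  have key : ∀ C : Set (ι → Bool), sec p C i j false true = sec p C i j true false →
      mu p (Cross.srt i j ⁻¹' C) = mu p C := by
    intro C hC
    rw [mu_eq_bil p _ i j, mu_eq_bil p C i j]
    unfold bil Cross.srt
    simp only [sec_pm p C hij, Bool.and_false, Bool.false_and, Bool.and_true, Bool.or_false,
        Bool.or_true, Bool.true_and, Bool.false_or]
    rw [hC]
  rw [key A e2, key B e3]

end max

end Pool.Agent.Helper74.Cross
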