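import Mathlib
import Pool.Agent.Helper74.CrossExt

set_option autoImplicit false

/-!
# Sorting: the extremal configurations on the cube are Hamming balls
-/

namespace Pool.Agent.Helper74.Cross

set_option linter.unusedSectionVars false
set_option linter.unusedVariables false
set_option linter.unusedSimpArgs false

open Function Finset

variable {r : ℕ}

/-- The weight (number of ones). -/
def wt (x : Fin r → Bool) : ℕ := ∑ k, if x k then 1 else 0

/-- The potential. -/
def pot (x : Fin r → Bool) : ℕ := ∑ k, if x k then (k : ℕ) else 0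

lemma wt_eq_card (x : Fin r → Bool) : wt x = (Finset.univ.filter (fun k => x k = true)).card := by
  unfold wt
  rw [Finset.card_filter]

lemma sum_pm {i j : Fin r} (hij : i ≠ j) (f g : Bool → Bool → Bool) (x : Fin r → Bool)
    (F : Fin r → Bool → ℕ) :
    ∑ k, F k (pm i j f g x k) + (F i (x i) + F j (x j)) =
      ∑ k, F k (x k) + (F i (f (x i) (x j)) + F j (g (x i) (x j))) := by
  rw [← Finset.sum_add_sum_compl {i, j}, ← Finset.sum_add_sum_compl {i, j} (fun k => F k (x k)),
    Finset.sum_pair hij, Finset.sum_pair hij, pm_i hij, pm_j]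
  have : ∑ k ∈ ({i, j} : Finset (Fin r))ᶜ, F k (pm i j f g x k) =
      ∑ k ∈ ({i, j} : Finset (Fin r))ᶜ, F k (x k) := by
    refine Finset.sum_congr rfl (fun k hk => ?_)
    simp only [Finset.mem_compl, Finset.mem_insert, Finset.mem_singleton, not_or] at hk
    rw [pm_other hk.1 hk.2]
  rw [this]
  ring

lemma wt_srt {i j : Fin r} (hij : i ≠ j) (x : Fin r → Bool) : wt (srt i j x) = wt x := by
  have := sum_pm hij (fun a b => a && b) (fun a b => a || b) x (fun _ b => if b then 1 else 0)
  unfold wt srt
  have h2 : ((if (x i && x j) = true then 1 else 0) + (if (x i || x j) = true then 1 else 0) : ℕ) =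
      (if x i = true then 1 else 0) + (if x j = true then 1 else 0) := by
    cases x i <;> cases x j <;> rfl
  omega

lemma pot_srt_le {i j : Fin r} (hij : i < j) (x : Fin r → Bool) : pot x ≤ pot (srt i j x) := by
  have := sum_pm hij.ne (fun a b => a && b) (fun a b => a || b) x
    (fun k b => if b then (k : ℕ) else 0)
  unfold pot srt
  have h1 : (i : ℕ) < j := hij
  have h2 : ((if x i = true then (i : ℕ) else 0) + (if x j = true then (j : ℕ) else 0) : ℕ) ≤
    ((if (x i && x j) = true then (i : ℕ) else 0) +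
      (if (x i || x j) = true then (j : ℕ) else 0) : ℕ) := by
    cases x i <;> cases x j <;> simp <;> omega
  omega

lemma pot_srt_lt {i j : Fin r} (hij : i < j) {x : Fin r → Bool} (hi : x i = true)
    (hj : x j = false) : pot x < pot (srt i j x) := by
  have := sum_pm hij.ne (fun a b => a && b) (fun a b => a || b) x
    (fun k b => if b then (k : ℕ) else 0)
  unfold pot srt
  have h1 : (i : ℕ) < j := hij
  simp only [hi, hj, Bool.and_false, Bool.or_false, if_true, Bool.false_eq_true, if_false] at this
  omega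

lemma le_of_sorted {u v : Fin r → Bool} (hu : Monotone u) (hv : Monotone v)
    (h : wt v ≤ wt u) : v ≤ u := by
  intro k
  by_contra hcon
  have hvk : v k = true ∧ u k = false := by
    revert hcon
    cases v k <;> cases u k <;> simp
  have h1 : wt u ≤ (Finset.univ.filter (fun l : Fin r => k < l)).card := by
    rw [wt_eq_card]
    refine Finset.card_le_card (fun l hl => ?_)
    simp only [Finset.mem_filter, Finset.mem_univ, true_and] at hl ⊢
    by_contra hlk
    push Not at hlk
    have := hu hlk
    rw [hl, hvk.2] at this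
    exact absurd this (by decide)
  have h2 : (Finset.univ.filter (fun l : Fin r => k ≤ l)).card ≤ wt v := by
    rw [wt_eq_card]
    refine Finset.card_le_card (fun l hl => ?_)
    simp only [Finset.mem_filter, Finset.mem_univ, true_and] at hl ⊢
    have := hv hl
    rw [hvk.1] at this
    revert this
    cases v l <;> simp
  have h3 : (Finset.univ.filter (fun l : Fin r => k < l)).card <
      (Finset.univ.filter (fun l : Fin r => k ≤ l)).card := by
    refine Finset.card_lt_card ⟨fun l hl => ?_, fun hsub => ?_⟩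
    · simp only [Finset.mem_filter, Finset.mem_univ, true_and] at hl ⊢
      exact hl.le
    · have : k ∈ Finset.univ.filter (fun l : Fin r => k ≤ l) := by simp
      have := hsub this
      simp at this
  omega

lemma dist_of_le {u v : Fin r → Bool} (h : v ≤ u) : hammingDist u v + wt v = wt u := by
  rw [hammingDist_eq_sum]
  unfold wt
  rw [← Finset.sum_add_distrib]
  refine Finset.sum_congr rfl (fun k _ => ?_)
  have := h k
  revert this
  cases u k <;> cases v k <;> simp

/-- Maps that preserve the weight and pull maximisers back to maximisers. -/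
def GoodMap (D : ℕ) (ψ : (Fin r → Bool) → (Fin r → Bool)) : Prop :=
  (∀ x, wt (ψ x) = wt x) ∧
  ∀ (p : Fin r → ℝ) (A B : Set (Fin r → Bool)), IsMax D p A B → IsMax D p (ψ ⁻¹' A) (ψ ⁻¹' B)

lemma exists_sorting {D : ℕ} (hD : D ≤ r) (hD2 : 2 ≤ D) :
    ∃ ψ : (Fin r → Bool) → (Fin r → Bool), GoodMap D ψ ∧ ∀ x, Monotone (ψ x) := by
  classical
  have hid : GoodMap (r := r) D id := ⟨fun _ => rfl, fun _ _ _ h => h⟩
  obtain ⟨ψ, hψ, hmax⟩ := Finset.exists_max_image
    (Finset.univ.filter (fun ψ : (Fin r → Bool) → (Fin r → Bool) => GoodMap D ψ))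
    (fun ψ => ∑ x, pot (ψ x)) ⟨id, by simpa using hid⟩
  simp only [Finset.mem_filter, Finset.mem_univ, true_and] at hψ hmax
  refine ⟨ψ, hψ, fun x => ?_⟩
  intro i j hij
  rcases hij.lt_or_eq with hlt | heq
  · by_contra hcon
    have hx : ψ x i = true ∧ ψ x j = false := by
      revert hcon
      cases ψ x i <;> cases ψ x j <;> simp
    have hgood : GoodMap D (srt i j ∘ ψ) := by
      refine ⟨fun y => ?_, fun p A B h => ?_⟩
      · rw [comp_apply, wt_srt hlt.ne, hψ.1]
      · have := hψ.2 _ _ _ (h.srt (by simpa using hD) hD2 hlt.ne)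
        exact this
    have h1 := hmax _ hgood
    have h2 : ∑ x, pot (ψ x) < ∑ x, pot ((srt i j ∘ ψ) x) := by
      refine Finset.sum_lt_sum (fun y _ => pot_srt_le hlt (ψ y)) ⟨x, Finset.mem_univ _, ?_⟩
      exact pot_srt_lt hlt hx.1 hx.2
    omega
  · rw [heq]

/-- **The cube theorem**: the product of the measures is maximised by opposite Hamming balls. -/
theorem cube_main {D : ℕ} (hD : D ≤ r) (hD2 : 2 ≤ D) :
    ∃ (p : ℝ) (j k : ℕ), 0 < p ∧ p < 1 ∧ k + D ≤ j ∧ j ≤ r ∧
      ∀ (p' : Fin r → ℝ) (A B : Set (Fin r → Bool)), (∀ i, 0 ≤ p' i ∧ p' i ≤ 1) → Adm D A B →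
        mu p' A * mu p' B ≤ mu (fun _ : Fin r => p) {x | j ≤ wt x} *
          mu (fun _ : Fin r => p) {x | wt x ≤ k} := by
  classical
  have hD' : D ≤ Fintype.card (Fin r) := by simpa using hD
  obtain ⟨p, A, B, hM, -, -⟩ := exists_isMax hD'
  obtain ⟨ψ, hψ, hsort⟩ := exists_sorting hD hD2
  have hM' := hψ.2 p A B hM
  obtain ⟨hA, hB⟩ := hM'.pos hD'
  have hneA := nonempty_of_mu_pos hA
  have hneB := nonempty_of_mu_pos hB
  have i0 : Fin r := ⟨0, by omega⟩
  have hconst : p = fun _ => p i0 := by
    funext i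
    by_cases h : i = i0
    · rw [h]
    · exact (hM.sym hD' hD2 h).1
  obtain ⟨x₀, hx₀, hxmin⟩ := Finset.exists_min_image (Finset.univ.filter (· ∈ ψ ⁻¹' A)) wt
    (by obtain ⟨x, hx⟩ := hneA; exact ⟨x, by simpa using hx⟩)
  obtain ⟨y₀, hy₀, hymax⟩ := Finset.exists_max_image (Finset.univ.filter (· ∈ ψ ⁻¹' B)) wt
    (by obtain ⟨x, hx⟩ := hneB; exact ⟨x, by simpa using hx⟩)
  simp only [Finset.mem_filter, Finset.mem_univ, true_and, Set.mem_preimage] at hx₀ hxmin hy₀ hymax
  have hint := hM.interior hD' hD2 i0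
  refine ⟨p i0, wt x₀, wt y₀, hint.1, hint.2, ?_, ?_, ?_⟩
  · have hdist := hM.adm.dist _ hx₀ _ hy₀
    rcases le_total (wt (ψ y₀)) (wt (ψ x₀)) with hle | hle
    · have h1 := dist_of_le (le_of_sorted (hsort x₀) (hsort y₀) hle)
      rw [hψ.1, hψ.1] at h1
      omega
    · exfalso
      have h1 := le_of_sorted (hsort y₀) (hsort x₀) hle
      have h2 := hM.adm.up h1 hx₀
      have h3 := hM.adm.dist _ h2 _ hy₀
      rw [hammingDist_self] at h3
      omega
  · rw [wt_eq_card]
    exact (Finset.card_le_univ _).trans (by simp)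
  · intro p' A' B' hp' hAB'
    refine (hM'.le p' A' B' hp' hAB').trans ?_
    rw [← hconst]
    refine mul_le_mul (mu_mono hM.box ?_) (mu_mono hM.box ?_) (mu_nonneg hM.box _)
      (mu_nonneg hM.box _)
    · intro x hx
      exact hxmin x hx
    · intro x hx
      exact hymax x hx

end Pool.Agent.Helper74.Cross
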