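import Mathlib
import Pool.Agent.Helper74.CrossSort

set_option autoImplicit false

/-!
# Reduction from a finite product space to the cube
-/

namespace Pool.Agent.Helper74.Cross

set_option linter.unusedSectionVars false
set_option linter.unusedVariables false
set_option linter.unusedSimpArgs false

open Function Finset

/-- Two points are enough. -/
lemma two_point {κ : Type*} [Fintype κ] [Nonempty κ] (W L : κ → ℝ) (hW : ∑ a, W a = 0)
    (hL : ∑ a, (L a - 2) = 0) : ∃ (a b : κ) (t : ℝ), 0 ≤ t ∧ t ≤ 1 ∧
      (1 - t) * W a + t * W b = 0 ∧ 2 ≤ (1 - t) * L a + t * L b := by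
  classical
  by_contra hcon
  push Not at hcon
  have h0 : ∀ a, W a = 0 → L a - 2 < 0 := by
    intro a ha
    have := hcon a a 0 le_rfl zero_le_one (by rw [ha]; ring)
    linarith
  have h1 : ∀ a b, W a < 0 → 0 < W b → W b * (L a - 2) + (- W a) * (L b - 2) < 0 := by
    intro a b ha hb
    have hd : 0 < W b - W a := by linarith
    have := hcon a b (- W a / (W b - W a)) (div_nonneg (by linarith) hd.le)
      (by rw [div_le_one hd]; linarith) (by field_simp; ring)
    have e : (1 - - W a / (W b - W a)) * L a + - W a / (W b - W a) * L b =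
        (W b * L a - W a * L b) / (W b - W a) := by field_simp; ring
    rw [e, div_lt_iff₀ hd] at this
    linarith
  by_cases hpos : ∃ b, 0 < W b
  · obtain ⟨b, hb⟩ := hpos
    obtain ⟨b₀, hb₀, hmax⟩ := Finset.exists_max_image (Finset.univ.filter (fun b => 0 < W b))
      (fun b => (L b - 2) / W b) ⟨b, by simpa using hb⟩
    simp only [Finset.mem_filter, Finset.mem_univ, true_and] at hb₀ hmax
    have hneg : ∃ a, W a < 0 := by
      by_contra hn
      push Not at hn
      have : 0 < ∑ a, W a := Finset.sum_pos' (fun a _ => hn a) ⟨b, Finset.mem_univ _, hb⟩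
      linarith
    obtain ⟨a₀, ha₀⟩ := hneg
    have hle : ∀ a, L a - 2 ≤ (L b₀ - 2) / W b₀ * W a := by
      intro a
      rcases lt_trichotomy (W a) 0 with h | h | h
      · have := h1 a b₀ h hb₀
        rw [div_mul_eq_mul_div, le_div_iff₀ hb₀]
        linarith
      · rw [h, mul_zero]
        exact (h0 a h).le
      · have := hmax a h
        rwa [div_le_iff₀ h] at this
    have hlt : L a₀ - 2 < (L b₀ - 2) / W b₀ * W a₀ := by
      have := h1 a₀ b₀ ha₀ hb₀
      rw [div_mul_eq_mul_div, lt_div_iff₀ hb₀]
      linarith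
    have := Finset.sum_lt_sum (fun a (_ : a ∈ Finset.univ) => hle a) ⟨a₀, Finset.mem_univ _, hlt⟩
    rw [hL, ← Finset.mul_sum, hW, mul_zero] at this
    exact lt_irrefl _ this
  · push Not at hpos
    have hall : ∀ a, W a = 0 := by
      intro a
      have h2 : ∑ a, (- W a) = 0 := by rw [Finset.sum_neg_distrib, hW, neg_zero]
      have := (Finset.sum_eq_zero_iff_of_nonneg (fun a _ => by linarith [hpos a])).1 h2 a
        (Finset.mem_univ a)
      linarith
    have : ∑ a, (L a - 2) < 0 :=
      Finset.sum_neg (fun a _ => h0 a (hall a)) Finset.univ_nonempty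
    linarith

/-- Two-point lemma for products of averages. -/
lemma two_point_prod {κ : Type*} [Fintype κ] [Nonempty κ] (f g : κ → ℝ) {α β : ℝ}
    (hα : 0 < α) (hβ : 0 < β) (hf : ∑ a, f a = Fintype.card κ * α)
    (hg : ∑ a, g a = Fintype.card κ * β) :
    ∃ (a b : κ) (t : ℝ), 0 ≤ t ∧ t ≤ 1 ∧
      α * β ≤ ((1 - t) * f a + t * f b) * ((1 - t) * g a + t * g b) := by
  have e1 : ∑ a, f a / α = Fintype.card κ := by
    rw [← Finset.sum_div, hf]; field_simp
  have e2 : ∑ a, g a / β = Fintype.card κ := by
    rw [← Finset.sum_div, hg]; field_simp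
  obtain ⟨a, b, t, ht0, ht1, hW, hL⟩ := two_point (fun a => f a / α - g a / β)
    (fun a => f a / α + g a / β) (by rw [Finset.sum_sub_distrib, e1, e2, sub_self])
    (by
      rw [Finset.sum_sub_distrib, Finset.sum_add_distrib, e1, e2]
      simp; ring)
  refine ⟨a, b, t, ht0, ht1, ?_⟩
  set X := ((1 - t) * f a + t * f b) / α with hX
  set Y := ((1 - t) * g a + t * g b) / β with hY
  have h1 : X = Y := by
    rw [hX, hY]
    have : ((1 - t) * f a + t * f b) / α - ((1 - t) * g a + t * g b) / β = 0 := by
      rw [← hW]; ring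
    linarith
  have h2 : 2 ≤ X + Y := by
    refine hL.trans (le_of_eq ?_)
    rw [hX, hY]; ring
  have h3 : 1 ≤ X := by linarith
  have h4 : 1 ≤ Y := by linarith
  have h5 : (1 - t) * f a + t * f b = α * X := by rw [hX]; field_simp
  have h6 : (1 - t) * g a + t * g b = β * Y := by rw [hY]; field_simp
  rw [h5, h6]
  have h7 : 1 ≤ X * Y := by nlinarith
  have h8 : 0 < α * β := mul_pos hα hβ
  calc α * β = α * β * 1 := by ring
    _ ≤ α * β * (X * Y) := mul_le_mul_of_nonneg_left h7 h8.le
    _ = α * X * (β * Y) := by ring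

variable {ι : Type*} [Fintype ι] [DecidableEq ι] {T : Type*} [Fintype T] [DecidableEq T]

/-- The partially processed configurations. -/
structure State (D : ℕ) (z : T) (s : Finset ι) (w : ι → T → ℝ) (A B : Set (ι → T)) : Prop where
  nonneg : ∀ i c, 0 ≤ w i c
  sum : ∀ i, ∑ c, w i c = 1
  unif : ∀ i, i ∉ s → ∀ c, w i c = 1 / Fintype.card T
  binA : ∀ i ∈ s, ∀ x c c', c ≠ z → c' ≠ z → update x i c ∈ A → update x i c' ∈ A
  binB : ∀ i ∈ s, ∀ x c c', c ≠ z → c' ≠ z → update x i c ∈ B → update x i c' ∈ B
  monA : ∀ i ∈ s, ∀ x c, update x i z ∈ A → update x i c ∈ A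
  monB : ∀ i ∈ s, ∀ x c, update x i c ∈ B → update x i z ∈ B
  dist : ∀ x ∈ A, ∀ y ∈ B, D ≤ hammingDist x y

open Classical in
/-- Number of points of a line in a set. -/
noncomputable def cnt (A : Set (ι → T)) (i : ι) (x : ι → T) : ℕ :=
  (Finset.univ.filter (fun c => update x i c ∈ A)).card

lemma cnt_update_self (A : Set (ι → T)) (i : ι) (x : ι → T) (c : T) :
    cnt A i (update x i c) = cnt A i x := by
  classical
  unfold cnt
  congr 1
  ext c'
  rw [Finset.mem_filter, Finset.mem_filter, update_idem]

lemma cnt_le (A : Set (ι → T)) (i : ι) (x : ι → T) : cnt A i x ≤ Fintype.card T :=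
  Finset.card_le_univ _

lemma cnt_cast (A : Set (ι → T)) (i : ι) (x : ι → T) :
    (cnt A i x : ℝ) = ∑ c, ind A (update x i c) := by
  classical
  unfold cnt
  rw [Finset.card_filter]
  push_cast
  refine Finset.sum_congr rfl (fun c _ => ?_)
  by_cases h : update x i c ∈ A
  · rw [if_pos h, ind_of_mem h]
  · rw [if_neg h, ind_of_not_mem h]

lemma exists_of_cnt_pos {A : Set (ι → T)} {i : ι} {x : ι → T} (h : 0 < cnt A i x) :
    ∃ c, update x i c ∈ A := by
  classical
  unfold cnt at h
  obtain ⟨c, hc⟩ := Finset.card_pos.1 h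
  exact ⟨c, by simpa using hc⟩

lemma exists_common {A B : Set (ι → T)} {i : ι} {x y : ι → T}
    (h : Fintype.card T < cnt A i x + cnt B i y) :
    ∃ c, update x i c ∈ A ∧ update y i c ∈ B := by
  classical
  by_contra hcon
  push Not at hcon
  have hdisj : Disjoint (Finset.univ.filter (fun c => update x i c ∈ A))
      (Finset.univ.filter (fun c => update y i c ∈ B)) := by
    rw [Finset.disjoint_left]
    intro c h1 h2
    simp only [Finset.mem_filter, Finset.mem_univ, true_and] at h1 h2
    exact hcon c h1 h2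
  have := Finset.card_le_univ (Finset.univ.filter (fun c => update x i c ∈ A) ∪
    Finset.univ.filter (fun c => update y i c ∈ B))
  rw [Finset.card_union_of_disjoint hdisj] at this
  unfold cnt at h
  omega

lemma Ex_cnt {w : ι → T → ℝ} {i : ι} (hw : ∑ c, w i c = 1)
    (hu : ∀ c, w i c = 1 / Fintype.card T) (hT : 0 < Fintype.card T) (A : Set (ι → T)) :
    Ex w (fun x => (cnt A i x : ℝ)) = Fintype.card T * Ex w (ind A) := by
  have h1 : Ex w (ind A) = ∑ c, w i c * Ex w (fun x => ind A (update x i c)) := by
    conv_lhs => rw [← update_eq_self i w]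
    exact Ex_resample hw _ _
  have h2 : Ex w (fun x => (cnt A i x : ℝ)) = ∑ c, Ex w (fun x => ind A (update x i c)) := by
    unfold Ex
    rw [Finset.sum_comm]
    refine Finset.sum_congr rfl (fun x _ => ?_)
    beta_reduce
    rw [cnt_cast, Finset.mul_sum]
  rw [h1, h2, Finset.mul_sum]
  refine Finset.sum_congr rfl (fun c _ => ?_)
  rw [hu c]
  have : (Fintype.card T : ℝ) ≠ 0 := by exact_mod_cast hT.ne'
  field_simp

lemma sum_ind_lt (N m : ℕ) (hm : m ≤ N) :
    ∑ θ : Fin N, (if (θ : ℕ) < m then (1 : ℝ) else 0) = m := by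
  rw [Finset.sum_ite, Finset.sum_const_zero, add_zero, Finset.sum_const, nsmul_eq_mul, mul_one]
  rw [Fin.card_filter_val_lt, min_eq_right hm]

lemma sum_ind_ge (N m : ℕ) (hm : m ≤ N) :
    ∑ θ : Fin N, (if N ≤ m + (θ : ℕ) then (1 : ℝ) else 0) = m := by
  have h := Equiv.sum_comp Fin.revPerm (fun θ : Fin N => (if (θ : ℕ) < m then (1 : ℝ) else 0))
  rw [sum_ind_lt N m hm] at h
  rw [← h]
  refine Finset.sum_congr rfl (fun θ _ => ?_)
  have h1 := θ.2
  have h2 : (Fin.revPerm θ : ℕ) = N - (θ + 1) := by simp
  by_cases h3 : N ≤ m + (θ : ℕ)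
  · rw [if_pos h3, if_pos (by rw [h2]; omega)]
  · rw [if_neg h3, if_neg (by rw [h2]; omega)]

lemma Ex_sum {κ : Type*} [Fintype κ] (w : ι → T → ℝ) (F : κ → (ι → T) → ℝ) :
    ∑ a, Ex w (F a) = Ex w (fun x => ∑ a, F a x) := by
  unfold Ex
  rw [Finset.sum_comm]
  refine Finset.sum_congr rfl (fun x _ => ?_)
  rw [Finset.mul_sum]

lemma dist_update_le (x y : ι → T) (i : ι) (c c' : T) (h : x i ≠ y i) :
    hammingDist (update x i c) (update y i c') ≤ hammingDist x y := by
  refine Finset.card_le_card (fun k hk => ?_)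
  simp only [Finset.mem_filter, Finset.mem_univ, true_and] at hk ⊢
  by_cases hki : k = i
  · subst hki; exact h
  · simpa [hki] using hk

lemma dist_update_same_le (x y : ι → T) (i : ι) (c : T) :
    hammingDist (update x i c) (update y i c) ≤ hammingDist x y := by
  refine Finset.card_le_card (fun k hk => ?_)
  simp only [Finset.mem_filter, Finset.mem_univ, true_and] at hk ⊢
  by_cases hki : k = i
  · subst hki; simp at hk
  · simpa [hki] using hk

/-- Processing one more coordinate. -/
lemma State.step {D : ℕ} {z o : T} (hzo : z ≠ o) {s : Finset ι} {w : ι → T → ℝ}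
    {A B : Set (ι → T)} (h : State D z s w A B) (hA : 0 < Ex w (ind A)) (hB : 0 < Ex w (ind B))
    {i : ι} (hi : i ∉ s) :
    ∃ (w' : ι → T → ℝ) (A' B' : Set (ι → T)), State D z (insert i s) w' A' B' ∧
      Ex w (ind A) * Ex w (ind B) ≤ Ex w' (ind A') * Ex w' (ind B') := by
  classical
  have hT : 0 < Fintype.card T := Fintype.card_pos_iff.2 ⟨z⟩
  set N := Fintype.card T with hN
  haveI : Nonempty (Fin N) := ⟨⟨0, hT⟩⟩
  let Aθ : Fin N → Set (ι → T) := fun θ => {x | (θ : ℕ) < cnt A i x}
  let Bθ : Fin N → Set (ι → T) := fun θ => {x | N ≤ cnt B i x + (θ : ℕ)}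
  have hsumA : ∑ θ, Ex w (ind (Aθ θ)) = N * Ex w (ind A) := by
    rw [Ex_sum, ← Ex_cnt (h.sum i) (h.unif i hi) hT]
    congr 1
    funext x
    rw [← sum_ind_lt N _ (cnt_le A i x)]
    refine Finset.sum_congr rfl (fun θ _ => ?_)
    by_cases h1 : (θ : ℕ) < cnt A i x
    · rw [if_pos h1, ind_of_mem]; exact h1
    · rw [if_neg h1, ind_of_not_mem]; exact h1
  have hsumB : ∑ θ, Ex w (ind (Bθ θ)) = N * Ex w (ind B) := by
    rw [Ex_sum, ← Ex_cnt (h.sum i) (h.unif i hi) hT]
    congr 1
    funext x
    rw [← sum_ind_ge N _ (cnt_le B i x)]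
    refine Finset.sum_congr rfl (fun θ _ => ?_)
    by_cases h1 : N ≤ cnt B i x + (θ : ℕ)
    · rw [if_pos h1, ind_of_mem]; exact h1
    · rw [if_neg h1, ind_of_not_mem]; exact h1
  -- choose two thresholds
  obtain ⟨θ₀, θ₁, t, ht0, ht1, hθ, hle⟩ : ∃ (θ₀ θ₁ : Fin N) (t : ℝ), 0 ≤ t ∧ t ≤ 1 ∧
      θ₁ ≤ θ₀ ∧ Ex w (ind A) * Ex w (ind B) ≤
        ((1 - t) * Ex w (ind (Aθ θ₀)) + t * Ex w (ind (Aθ θ₁))) *
        ((1 - t) * Ex w (ind (Bθ θ₀)) + t * Ex w (ind (Bθ θ₁))) := by
    obtain ⟨a, b, t, ht0, ht1, hle⟩ := two_point_prod (fun θ => Ex w (ind (Aθ θ)))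
      (fun θ => Ex w (ind (Bθ θ))) hA hB (by rw [hsumA, Fintype.card_fin])
      (by rw [hsumB, Fintype.card_fin])
    rcases le_total b a with hab | hab
    · exact ⟨a, b, t, ht0, ht1, hab, hle⟩
    · refine ⟨b, a, 1 - t, by linarith, by linarith, hab, hle.trans (le_of_eq ?_)⟩
      ring
  let th : (ι → T) → ℕ := fun x => if x i = z then (θ₀ : ℕ) else θ₁
  let A' : Set (ι → T) := {x | th x < cnt A i x}
  let B' : Set (ι → T) := {x | N ≤ cnt B i x + th x}
  let v : T → ℝ := fun c => if c = z then 1 - t else if c = o then t else 0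
  have hθ' : (θ₁ : ℕ) ≤ θ₀ := hθ
  have hθN : (θ₀ : ℕ) < N := θ₀.2
  have hth1 : ∀ x, (θ₁ : ℕ) ≤ th x := by
    intro x; simp only [th]; split_ifs <;> omega
  have hth0 : ∀ x, th x ≤ θ₀ := by
    intro x; simp only [th]; split_ifs <;> omega
  have hvsum : ∀ F : T → ℝ, ∑ c, v c * F c = (1 - t) * F z + t * F o := by
    intro F
    rw [← Finset.sum_subset (Finset.subset_univ {z, o})]
    · rw [Finset.sum_pair hzo]
      simp [v, hzo.symm]
    · intro c _ hc
      simp only [Finset.mem_insert, Finset.mem_singleton, not_or] at hc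
      simp [v, hc.1, hc.2]
  have hcoordA : ∀ j, j ≠ i → ∀ x c, cnt A i (update x j c) =
      (Finset.univ.filter (fun c' => update (update x i c') j c ∈ A)).card := by
    intro j hj x c
    unfold cnt
    congr 1
    ext c'
    rw [Finset.mem_filter, Finset.mem_filter, update_comm hj]
  have hcoordB : ∀ j, j ≠ i → ∀ x c, cnt B i (update x j c) =
      (Finset.univ.filter (fun c' => update (update x i c') j c ∈ B)).card := by
    intro j hj x c
    unfold cnt
    congr 1
    ext c'
    rw [Finset.mem_filter, Finset.mem_filter, update_comm hj]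
  have hthj : ∀ j, j ≠ i → ∀ x c, th (update x j c) = th x := by
    intro j hj x c
    simp only [th, update_of_ne hj.symm]
  refine ⟨update w i v, A', B', ?_, ?_⟩
  · refine ⟨?_, ?_, ?_, ?_, ?_, ?_, ?_, ?_⟩
    · intro j c
      by_cases hj : j = i
      · subst hj
        rw [update_self]
        simp only [v]
        split_ifs
        · linarith
        · exact ht0
        · exact le_rfl
      · rw [update_of_ne hj]; exact h.nonneg j c
    · intro j
      by_cases hj : j = i
      · subst hj
        rw [update_self]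
        have := hvsum (fun _ => 1)
        simp only [mul_one] at this
        rw [this]; ring
      · rw [update_of_ne hj]; exact h.sum j
    · intro j hj c
      rw [Finset.mem_insert, not_or] at hj
      rw [update_of_ne hj.1]
      exact h.unif j hj.2 c
    · intro j hj x c c' hc hc' hx
      by_cases hji : j = i
      · subst hji
        simp only [A', Set.mem_setOf_eq, cnt_update_self] at hx ⊢
        simpa [th, hc, hc'] using hx
      · have hjs := (Finset.mem_insert.1 hj).resolve_left hji
        simp only [A', Set.mem_setOf_eq, hthj j hji] at hx ⊢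
        refine lt_of_lt_of_le hx ?_
        rw [hcoordA j hji, hcoordA j hji]
        refine Finset.card_le_card (fun d hd => ?_)
        rw [Finset.mem_filter] at hd ⊢
        exact ⟨hd.1, h.binA j hjs _ c c' hc hc' hd.2⟩
    · intro j hj x c c' hc hc' hx
      by_cases hji : j = i
      · subst hji
        simp only [B', Set.mem_setOf_eq, cnt_update_self] at hx ⊢
        simpa [th, hc, hc'] using hx
      · have hjs := (Finset.mem_insert.1 hj).resolve_left hji
        simp only [B', Set.mem_setOf_eq, hthj j hji] at hx ⊢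
        refine hx.trans (Nat.add_le_add_right ?_ _)
        rw [hcoordB j hji, hcoordB j hji]
        refine Finset.card_le_card (fun d hd => ?_)
        rw [Finset.mem_filter] at hd ⊢
        exact ⟨hd.1, h.binB j hjs _ c c' hc hc' hd.2⟩
    · intro j hj x c hx
      by_cases hji : j = i
      · subst hji
        simp only [A', Set.mem_setOf_eq, cnt_update_self] at hx ⊢
        refine lt_of_le_of_lt ?_ hx
        simp only [th, update_self, if_true]
        split_ifs <;> omega
      · have hjs := (Finset.mem_insert.1 hj).resolve_left hji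
        simp only [A', Set.mem_setOf_eq, hthj j hji] at hx ⊢
        refine lt_of_lt_of_le hx ?_
        rw [hcoordA j hji, hcoordA j hji]
        refine Finset.card_le_card (fun d hd => ?_)
        rw [Finset.mem_filter] at hd ⊢
        exact ⟨hd.1, h.monA j hjs _ c hd.2⟩
    · intro j hj x c hx
      by_cases hji : j = i
      · subst hji
        simp only [B', Set.mem_setOf_eq, cnt_update_self] at hx ⊢
        refine hx.trans (Nat.add_le_add_left ?_ _)
        simp only [th, update_self, if_true]
        split_ifs <;> omega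
      · have hjs := (Finset.mem_insert.1 hj).resolve_left hji
        simp only [B', Set.mem_setOf_eq, hthj j hji] at hx ⊢
        refine hx.trans (Nat.add_le_add_right ?_ _)
        rw [hcoordB j hji, hcoordB j hji]
        refine Finset.card_le_card (fun d hd => ?_)
        rw [Finset.mem_filter] at hd ⊢
        exact ⟨hd.1, h.monB j hjs _ c hd.2⟩
    · intro x hx y hy
      simp only [A', B', Set.mem_setOf_eq] at hx hy
      by_cases hxy : th x = th y
      · obtain ⟨c, hc1, hc2⟩ := exists_common (A := A) (B := B) (i := i) (x := x) (y := y)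
          (by omega)
        exact (h.dist _ hc1 _ hc2).trans (dist_update_same_le x y i c)
      · have hne : x i ≠ y i := by
          intro heq
          apply hxy
          simp only [th, heq]
        obtain ⟨c, hc⟩ := exists_of_cnt_pos (A := A) (i := i) (x := x) (by omega)
        obtain ⟨c', hc'⟩ := exists_of_cnt_pos (A := B) (i := i) (x := y)
          (by have := hth0 y; omega)
        exact (h.dist _ hc _ hc').trans (dist_update_le x y i c c' hne)
  · refine hle.trans (le_of_eq ?_)
    have eA : Ex (update w i v) (ind A') =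
        (1 - t) * Ex w (ind (Aθ θ₀)) + t * Ex w (ind (Aθ θ₁)) := by
      rw [Ex_resample (h.sum i), hvsum]
      congr 2
      · congr 1
        funext x
        refine ind_congr ?_
        simp only [A', Aθ, Set.mem_setOf_eq, cnt_update_self, th, update_self, if_true]
      · congr 1
        funext x
        refine ind_congr ?_
        simp only [A', Aθ, Set.mem_setOf_eq, cnt_update_self, th, update_self, hzo.symm, if_false]
    have eB : Ex (update w i v) (ind B') =
        (1 - t) * Ex w (ind (Bθ θ₀)) + t * Ex w (ind (Bθ θ₁)) := by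
      rw [Ex_resample (h.sum i), hvsum]
      congr 2
      · congr 1
        funext x
        refine ind_congr ?_
        simp only [B', Bθ, Set.mem_setOf_eq, cnt_update_self, th, update_self, if_true]
      · congr 1
        funext x
        refine ind_congr ?_
        simp only [B', Bθ, Set.mem_setOf_eq, cnt_update_self, th, update_self, hzo.symm, if_false]
    rw [eA, eB]

/-- Processing all coordinates of a finite set. -/
lemma State.process {D : ℕ} {z o : T} (hzo : z ≠ o) {w : ι → T → ℝ}
    {A B : Set (ι → T)} (h : State D z ∅ w A B) (hA : 0 < Ex w (ind A)) (hB : 0 < Ex w (ind B))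
    (s : Finset ι) :
    ∃ (w' : ι → T → ℝ) (A' B' : Set (ι → T)), State D z s w' A' B' ∧
      Ex w (ind A) * Ex w (ind B) ≤ Ex w' (ind A') * Ex w' (ind B') := by
  induction s using Finset.induction_on with
  | empty => exact ⟨w, A, B, h, le_rfl⟩
  | insert i s hi ih =>
    obtain ⟨w', A', B', h', hle⟩ := ih
    have hpos : 0 < Ex w' (ind A') * Ex w' (ind B') := lt_of_lt_of_le (mul_pos hA hB) hle
    have h1 : 0 ≤ Ex w' (ind A') := Ex_nonneg h'.nonneg (fun x => ind_nonneg _ x)
    have h2 : 0 ≤ Ex w' (ind B') := Ex_nonneg h'.nonneg (fun x => ind_nonneg _ x)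
    have hA' : 0 < Ex w' (ind A') := by
      rcases h1.lt_or_eq with h3 | h3
      · exact h3
      · rw [← h3] at hpos; simp at hpos
    have hB' : 0 < Ex w' (ind B') := by
      rcases h2.lt_or_eq with h3 | h3
      · exact h3
      · rw [← h3] at hpos; simp at hpos
    obtain ⟨w'', A'', B'', h'', hle'⟩ := h'.step hzo hA' hB' hi
    exact ⟨w'', A'', B'', h'', hle.trans hle'⟩

lemma State.mono_mem {D : ℕ} {z : T} {w : ι → T → ℝ} {A B : Set (ι → T)}
    (h : State D z Finset.univ w A B) {x y : ι → T} (hxy : ∀ k, x k ≠ z → y k ≠ z)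
    (hx : x ∈ A) : y ∈ A := by
  classical
  have key : ∀ s : Finset ι, (fun k => if k ∈ s then y k else x k) ∈ A := by
    intro s
    induction s using Finset.induction_on with
    | empty => simpa using hx
    | insert a s ha ih =>
      have e1 : (fun k => if k ∈ insert a s then y k else x k) =
          update (fun k => if k ∈ s then y k else x k) a (y a) := by
        funext k
        by_cases hk : k = a
        · subst hk; simp
        · simp [hk]
      have e2 : (fun k => if k ∈ s then y k else x k) =
          update (fun k => if k ∈ s then y k else x k) a (x a) := by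
        funext k
        by_cases hk : k = a
        · subst hk; simp [ha]
        · simp [hk]
      rw [e1]
      rw [e2] at ih
      by_cases hxa : x a = z
      · rw [hxa] at ih
        exact h.monA a (Finset.mem_univ a) _ _ ih
      · exact h.binA a (Finset.mem_univ a) _ _ _ hxa (hxy a hxa) ih
  have := key Finset.univ
  simpa using this

lemma State.anti_mem {D : ℕ} {z : T} {w : ι → T → ℝ} {A B : Set (ι → T)}
    (h : State D z Finset.univ w A B) {x y : ι → T} (hxy : ∀ k, y k ≠ z → x k ≠ z)
    (hx : x ∈ B) : y ∈ B := by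
  classical
  have key : ∀ s : Finset ι, (fun k => if k ∈ s then y k else x k) ∈ B := by
    intro s
    induction s using Finset.induction_on with
    | empty => simpa using hx
    | insert a s ha ih =>
      have e1 : (fun k => if k ∈ insert a s then y k else x k) =
          update (fun k => if k ∈ s then y k else x k) a (y a) := by
        funext k
        by_cases hk : k = a
        · subst hk; simp
        · simp [hk]
      have e2 : (fun k => if k ∈ s then y k else x k) =
          update (fun k => if k ∈ s then y k else x k) a (x a) := by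
        funext k
        by_cases hk : k = a
        · subst hk; simp [ha]
        · simp [hk]
      rw [e1]
      rw [e2] at ih
      by_cases hya : y a = z
      · rw [hya]
        exact h.monB a (Finset.mem_univ a) _ _ ih
      · exact h.binB a (Finset.mem_univ a) _ _ _ (hxy a hya) hya ih
  have := key Finset.univ
  simpa using this

/-- A fully processed configuration gives a configuration on the cube. -/
lemma State.toCube {D : ℕ} {z o : T} (hzo : z ≠ o) {w : ι → T → ℝ} {A B : Set (ι → T)}
    (h : State D z Finset.univ w A B) :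
    ∃ (p : ι → ℝ) (A' B' : Set (ι → Bool)), (∀ i, 0 ≤ p i ∧ p i ≤ 1) ∧ Adm D A' B' ∧
      mu p A' = Ex w (ind A) ∧ mu p B' = Ex w (ind B) := by
  classical
  let κ : (ι → Bool) → (ι → T) := fun b i => if b i then o else z
  have hz1 : ∀ i, w i z ≤ 1 := by
    intro i
    rw [← h.sum i]
    exact Finset.single_le_sum (fun c _ => h.nonneg i c) (Finset.mem_univ z)
  have hκz : ∀ b i, κ b i ≠ z ↔ b i = true := by
    intro b i
    simp only [κ]
    by_cases hb : b i = true
    · simp [hb, hzo.symm]
    · simp [hb]
  have hval : ∀ C : Set (ι → T), (∀ x y : ι → T, (∀ k, x k ≠ z ↔ y k ≠ z) → (x ∈ C ↔ y ∈ C)) →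
      mu (fun i => 1 - w i z) (κ ⁻¹' C) = Ex w (ind C) := by
    intro C hC
    have h1 : Ex w (ind C) = Ex w (fun x => ind (κ ⁻¹' C) (fun i => decide (x i ≠ z))) := by
      congr 1
      funext x
      refine ind_congr ?_
      rw [Set.mem_preimage]
      refine hC _ _ (fun k => ?_)
      have e := hκz (fun i => decide (x i ≠ z)) k
      constructor
      · intro hx; exact e.2 (by simpa using hx)
      · intro hx; simpa using e.1 hx
    rw [h1, Ex_push w (fun _ c => decide (c ≠ z)) (ind (κ ⁻¹' C))]
    unfold mu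
    congr 1
    funext i b
    cases b
    · have : (Finset.univ.filter (fun c : T => decide (c ≠ z) = false)) = {z} := by
        ext c; simp
      rw [this, Finset.sum_singleton]
      simp [bern]
    · have : (Finset.univ.filter (fun c : T => decide (c ≠ z) = true)) = Finset.univ.erase z := by
        ext c; simp
      rw [this]
      have h2 := Finset.add_sum_erase Finset.univ (w i) (Finset.mem_univ z)
      rw [h.sum i] at h2
      simp only [bern, if_true]
      linarith
  refine ⟨fun i => 1 - w i z, κ ⁻¹' A, κ ⁻¹' B, ?_, ?_, ?_, ?_⟩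
  · intro i
    have := h.nonneg i z
    have := hz1 i
    constructor <;> linarith
  · refine ⟨?_, ?_, ?_⟩
    · intro b b' hbb' hb
      refine h.mono_mem (fun k hk => ?_) hb
      rw [hκz] at hk ⊢
      have := hbb' k
      rw [hk] at this
      revert this
      cases b' k <;> simp
    · intro b b' hbb' hb
      refine h.anti_mem (fun k hk => ?_) hb
      rw [hκz] at hk ⊢
      have := hbb' k
      rw [hk] at this
      revert this
      cases b k <;> simp
    · intro b hb b' hb'
      have h1 := h.dist _ hb _ hb'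
      refine h1.trans (Finset.card_le_card (fun k hk => ?_))
      simp only [Finset.mem_filter, Finset.mem_univ, true_and] at hk ⊢
      intro heq
      apply hk
      simp only [κ, heq]
  · refine hval A (fun x y hxy => ⟨h.mono_mem (fun k => (hxy k).1), h.mono_mem (fun k => (hxy k).2)⟩)
  · refine hval B (fun x y hxy => ⟨h.anti_mem (fun k => (hxy k).2), h.anti_mem (fun k => (hxy k).1)⟩)

/-- **Reduction to the cube.** -/
theorem reduce_to_cube {D : ℕ} (hT : 2 ≤ Fintype.card T) (A B : Set (ι → T))
    (hd : ∀ x ∈ A, ∀ y ∈ B, D ≤ hammingDist x y)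
    (hA : A.Nonempty) (hB : B.Nonempty) :
    ∃ (p : ι → ℝ) (A' B' : Set (ι → Bool)), (∀ i, 0 ≤ p i ∧ p i ≤ 1) ∧ Adm D A' B' ∧
      (A.ncard : ℝ) * B.ncard ≤
        mu p A' * mu p B' * ((Fintype.card T : ℝ) ^ (Fintype.card ι)) ^ 2 := by
  classical
  obtain ⟨z, o, hzo⟩ := Fintype.exists_pair_of_one_lt_card (by omega : 1 < Fintype.card T)
  have hT0 : (0 : ℝ) < Fintype.card T := by
    have : 0 < Fintype.card T := by omega
    exact_mod_cast this
  let w : ι → T → ℝ := fun _ _ => 1 / Fintype.card T
  have hS : State D z ∅ w A B := by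
    refine ⟨fun _ _ => by positivity, fun i => ?_, fun _ _ _ => rfl, ?_, ?_, ?_, ?_, hd⟩
    · simp only [w, Finset.sum_const, Finset.card_univ, nsmul_eq_mul]
      field_simp
    all_goals
      intro i hi
      simp at hi
  have hEx : ∀ C : Set (ι → T), Ex w (ind C) * (Fintype.card T : ℝ) ^ (Fintype.card ι) =
      (C.ncard : ℝ) := by
    intro C
    unfold Ex
    simp only [w, Finset.prod_const, Finset.card_univ]
    rw [← Finset.mul_sum, mul_comm, ← mul_assoc, one_div, inv_pow, mul_inv_cancel₀
      (pow_ne_zero _ hT0.ne'), one_mul]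
    have h1 : ∀ x, ind C x = if x ∈ C then 1 else 0 := by
      intro x
      by_cases hx : x ∈ C
      · rw [ind_of_mem hx, if_pos hx]
      · rw [ind_of_not_mem hx, if_neg hx]
    simp only [h1, Finset.sum_boole]
    rw [Set.ncard_eq_toFinset_card']
    congr 2
    ext x
    simp
  have hwpos : ∀ (i : ι) (c : T), 0 < w i c := fun i c => by
    simp only [w]; positivity
  obtain ⟨x₀, hx₀⟩ := hA
  obtain ⟨y₀, hy₀⟩ := hB
  have hA' : 0 < Ex w (ind A) := Ex_pos hwpos (fun x => ind_nonneg A x) x₀
    (by rw [ind_of_mem hx₀]; exact zero_lt_one)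
  have hB' : 0 < Ex w (ind B) := Ex_pos hwpos (fun x => ind_nonneg B x) y₀
    (by rw [ind_of_mem hy₀]; exact zero_lt_one)
  obtain ⟨w', A₁, B₁, h₁, hle⟩ := hS.process hzo hA' hB' Finset.univ
  obtain ⟨p, A₂, B₂, hp, hadm, e1, e2⟩ := h₁.toCube hzo
  refine ⟨p, A₂, B₂, hp, hadm, ?_⟩
  rw [e1, e2, ← hEx A, ← hEx B]
  have h3 : 0 ≤ ((Fintype.card T : ℝ) ^ (Fintype.card ι)) ^ 2 := by positivity
  have h4 := mul_le_mul_of_nonneg_right hle h3
  linarith

end Pool.Agent.Helper74.Cross
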