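import Mathlib
import Pool.Agent.Helper74.CrossReduce

set_option autoImplicit false

/-!
# From families of sets to tuples
-/

namespace Pool.Agent.Helper74.Cross

set_option linter.unusedSectionVars false
set_option linter.unusedVariables false
set_option linter.unusedSimpArgs false

open Function Finset

/-- The underlying set of a tuple. -/
def im {r n : ℕ} (x : Fin r → Fin n) : Finset ℕ := Finset.univ.image (fun i => (x i : ℕ))

open Classical in
/-- The injective tuples with underlying set in a family. -/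
noncomputable def tup (r n : ℕ) (F : Finset (Finset ℕ)) : Finset (Fin r → Fin n) :=
  Finset.univ.filter (fun x => Injective x ∧ im x ∈ F)

lemma mem_tup {r n : ℕ} {F : Finset (Finset ℕ)} {x : Fin r → Fin n} :
    x ∈ tup r n F ↔ Injective x ∧ im x ∈ F := by
  simp [tup]

lemma card_fiber {r n : ℕ} {S : Finset ℕ} (hS : S ∈ (Finset.range n).powersetCard r) :
    Fintype.card {x : Fin r → Fin n // Injective x ∧ im x = S} = r.factorial := by
  classical
  rw [Finset.mem_powersetCard] at hS
  have e0 : Fin r ≃ S := (S.equivFinOfCardEq hS.2).symm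
  have h1 : Fintype.card (Fin r ≃ S) = r.factorial := by
    rw [Fintype.card_equiv e0, Fintype.card_fin]
  rw [← h1]
  refine Fintype.card_congr ?_
  refine ⟨fun x => Equiv.ofBijective (fun i => (⟨x.1 i, ?_⟩ : S)) ⟨?_, ?_⟩,
    fun e => ⟨fun i => ⟨e i, ?_⟩, ?_, ?_⟩, ?_, ?_⟩
  · have h2 : ((x.1 i : Fin n) : ℕ) ∈ im x.1 := Finset.mem_image_of_mem _ (Finset.mem_univ i)
    exact (Finset.ext_iff.1 x.2.2 _).1 h2
  · intro i j hij
    simp only [Subtype.mk.injEq] at hij
    exact x.2.1 (Fin.ext hij)
  · rintro ⟨a, ha⟩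
    rw [← x.2.2] at ha
    obtain ⟨i, -, hi⟩ := Finset.mem_image.1 ha
    exact ⟨i, Subtype.ext hi⟩
  · exact Finset.mem_range.1 (hS.1 (e i).2)
  · intro i j hij
    simp only [Fin.mk.injEq] at hij
    exact e.injective (Subtype.ext hij)
  · ext a
    simp only [im, Finset.mem_image, Finset.mem_univ, true_and]
    constructor
    · rintro ⟨i, rfl⟩
      exact (e i).2
    · intro ha
      exact ⟨e.symm ⟨a, ha⟩, by simp⟩
  · intro x
    rfl
  · intro e
    ext i
    rfl

lemma card_tup {r n : ℕ} {F : Finset (Finset ℕ)} (hF : F ⊆ (Finset.range n).powersetCard r) :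
    (tup r n F).card = F.card * r.factorial := by
  classical
  have h1 : ∀ x ∈ tup r n F, im x ∈ F := fun x hx => (mem_tup.1 hx).2
  rw [Finset.card_eq_sum_card_fiberwise h1]
  have h2 : ∀ S ∈ F, ((tup r n F).filter (fun x => im x = S)).card = r.factorial := by
    intro S hS
    rw [← card_fiber (hF hS), Fintype.card_subtype]
    congr 1
    ext x
    simp only [Finset.mem_filter, mem_tup, Finset.mem_univ, true_and]
    constructor
    · rintro ⟨⟨h3, -⟩, h5⟩
      exact ⟨h3, h5⟩
    · rintro ⟨h3, h5⟩
      exact ⟨⟨h3, h5 ▸ hS⟩, h5⟩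
  rw [Finset.sum_congr rfl h2, Finset.sum_const, smul_eq_mul]

section upper

variable {r n : ℕ}

open Classical in
/-- The points of `B` that agree with `y` on `I`. -/
noncomputable def agr (B : Finset (Fin r → Fin n)) (I : Finset (Fin r)) (y : Fin r → Fin n) :
    Finset (Fin r → Fin n) := B.filter (fun y' => ∀ i ∈ I, y' i = y i)

lemma card_few (B : Finset (Fin r → Fin n)) (I : Finset (Fin r)) (θ : ℕ) :
    (B.filter (fun y => (agr B I y).card ≤ θ)).card ≤ θ * n ^ I.card := by
  classical
  have h := Finset.card_le_mul_card_image (f := fun (y : Fin r → Fin n) (i : I) => y i)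
    (B.filter (fun y => (agr B I y).card ≤ θ)) θ (by
      intro a ha
      obtain ⟨y, hy, rfl⟩ := Finset.mem_image.1 ha
      rw [Finset.mem_filter] at hy
      refine (Finset.card_le_card ?_).trans hy.2
      intro y' hy'
      rw [Finset.mem_filter, Finset.mem_filter] at hy'
      unfold agr
      rw [Finset.mem_filter]
      refine ⟨hy'.1.1, fun i hi => ?_⟩
      exact congrFun hy'.2 ⟨i, hi⟩)
  refine h.trans (Nat.mul_le_mul_left _ ?_)
  refine (Finset.card_le_univ _).trans (le_of_eq ?_)
  simp

lemma card_presc (x y : Fin r → Fin n) (I : Finset (Fin r)) (i j : Fin r) (hj : j ∉ I) :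
    (Finset.univ.filter (fun y' : Fin r → Fin n => (∀ l ∈ I, y' l = y l) ∧ y' j = x i)).card ≤
      n ^ (r - (I.card + 1)) := by
  classical
  have hsub : (Finset.univ.filter (fun y' : Fin r → Fin n => (∀ l ∈ I, y' l = y l) ∧ y' j = x i)) ⊆
      Fintype.piFinset (fun l => if l ∈ insert j I then {if l ∈ I then y l else x i}
        else Finset.univ) := by
    intro y' hy'
    simp only [Finset.mem_filter, Finset.mem_univ, true_and] at hy'
    rw [Fintype.mem_piFinset]
    intro l
    by_cases h1 : l ∈ insert j I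
    · rw [if_pos h1, Finset.mem_singleton]
      by_cases h2 : l ∈ I
      · rw [if_pos h2]; exact hy'.1 l h2
      · rw [if_neg h2]
        have : l = j := (Finset.mem_insert.1 h1).resolve_right h2
        rw [this]; exact hy'.2
    · rw [if_neg h1]; exact Finset.mem_univ _
  refine (Finset.card_le_card hsub).trans (le_of_eq ?_)
  rw [Fintype.card_piFinset]
  have h3 : ∀ l : Fin r, (if l ∈ insert j I then ({if l ∈ I then y l else x i} : Finset (Fin n))
        else Finset.univ).card = if l ∈ insert j I then 1 else n := by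
    intro l
    split_ifs <;> simp
  rw [Finset.prod_congr rfl (fun l _ => h3 l), Finset.prod_ite, Finset.prod_const_one, one_mul,
    Finset.prod_const]
  congr 1
  rw [Finset.filter_not, Finset.card_sdiff_of_subset (Finset.filter_subset _ _)]
  rw [Finset.card_univ, Fintype.card_fin]
  congr 1
  rw [← Finset.card_insert_of_notMem hj]
  congr 1
  ext l
  simp

lemma card_hit (x y : Fin r → Fin n) (I : Finset (Fin r)) :
    (Finset.univ.filter (fun y' : Fin r → Fin n => (∀ l ∈ I, y' l = y l) ∧
      ∃ j ∉ I, ∃ i, y' j = x i)).card ≤ r * r * n ^ (r - (I.card + 1)) := by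
  classical
  have hsub : (Finset.univ.filter (fun y' : Fin r → Fin n => (∀ l ∈ I, y' l = y l) ∧
      ∃ j ∉ I, ∃ i, y' j = x i)) ⊆ (Finset.univ.filter
        (fun q : Fin r × Fin r => q.1 ∉ I)).biUnion (fun q =>
        Finset.univ.filter (fun y' : Fin r → Fin n => (∀ l ∈ I, y' l = y l) ∧ y' q.1 = x q.2)) := by
    intro y' hy'
    simp only [Finset.mem_filter, Finset.mem_univ, true_and] at hy'
    obtain ⟨h1, j, hj, i, hi⟩ := hy'
    rw [Finset.mem_biUnion]
    refine ⟨(j, i), by simpa using hj, ?_⟩
    rw [Finset.mem_filter]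
    exact ⟨Finset.mem_univ _, h1, hi⟩
  refine (Finset.card_le_card hsub).trans (Finset.card_biUnion_le.trans ?_)
  refine (Finset.sum_le_card_nsmul _ _ (n ^ (r - (I.card + 1))) ?_).trans ?_
  · intro q hq
    rw [Finset.mem_filter] at hq
    exact card_presc x y I q.2 q.1 hq.2
  · rw [smul_eq_mul]
    refine Nat.mul_le_mul_right _ ?_
    refine (Finset.card_le_univ _).trans (le_of_eq ?_)
    simp

open Classical in
/-- The typical points of `B`. -/
noncomputable def typ (t : ℕ) (B : Finset (Fin r → Fin n)) : Finset (Fin r → Fin n) :=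
  B.filter (fun y => ∀ I : Finset (Fin r), I.card = t → r * r * n ^ (r - (t + 1)) <
    (agr B I y).card)

lemma card_typ (t : ℕ) (B : Finset (Fin r → Fin n)) :
    B.card ≤ (typ t B).card + 2 ^ r * (r * r * n ^ (r - (t + 1)) * n ^ t) := by
  classical
  have hsub : B ⊆ typ t B ∪ (Finset.univ.filter (fun I : Finset (Fin r) => I.card = t)).biUnion
      (fun I => B.filter (fun y => (agr B I y).card ≤ r * r * n ^ (r - (t + 1)))) := by
    intro y hy
    rw [Finset.mem_union, Finset.mem_biUnion]
    by_cases h : y ∈ typ t B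
    · exact Or.inl h
    · right
      unfold typ at h
      rw [Finset.mem_filter] at h
      push Not at h
      obtain ⟨I, hI, hle⟩ := h hy
      exact ⟨I, by simpa using hI, by rw [Finset.mem_filter]; exact ⟨hy, hle⟩⟩
  refine (Finset.card_le_card hsub).trans ((Finset.card_union_le _ _).trans ?_)
  refine Nat.add_le_add_left ?_ _
  refine Finset.card_biUnion_le.trans ?_
  refine (Finset.sum_le_card_nsmul _ _ (r * r * n ^ (r - (t + 1)) * n ^ t) ?_).trans ?_
  · intro I hI
    rw [Finset.mem_filter] at hI
    have := card_few B I (r * r * n ^ (r - (t + 1)))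
    rwa [hI.2] at this
  · rw [smul_eq_mul]
    refine Nat.mul_le_mul_right _ ?_
    refine (Finset.card_le_univ _).trans (le_of_eq ?_)
    simp

lemma dist_typ {t : ℕ} (ht : t < r) {F G : Finset (Finset ℕ)}
    (hav : ∀ A ∈ F, ∀ B ∈ G, (A ∩ B).card ≠ t) {x y : Fin r → Fin n}
    (hx : x ∈ tup r n F) (hy : y ∈ typ t (tup r n G)) : r + 1 - t ≤ hammingDist x y := by
  classical
  by_contra hcon
  push Not at hcon
  have hagr : t ≤ (Finset.univ.filter (fun i => x i = y i)).card := by
    have h1 := Finset.card_filter_add_card_filter_not (s := (Finset.univ : Finset (Fin r)))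
      (fun i => x i = y i)
    have h2 : (Finset.univ.filter (fun i => ¬ x i = y i)).card = hammingDist x y := rfl
    rw [h2, Finset.card_univ, Fintype.card_fin] at h1
    omega
  obtain ⟨I, hIsub, hIcard⟩ := Finset.exists_subset_card_eq hagr
  unfold typ at hy
  rw [Finset.mem_filter] at hy
  have hbig := hy.2 I hIcard
  have hhit := card_hit x y I
  rw [hIcard] at hhit
  obtain ⟨y', hy', hnot⟩ : ∃ y' ∈ agr (tup r n G) I y, y' ∉ (Finset.univ.filter
      (fun y' : Fin r → Fin n => (∀ l ∈ I, y' l = y l) ∧ ∃ j ∉ I, ∃ i, y' j = x i)) := by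
    by_contra hno
    push Not at hno
    have := Finset.card_le_card (fun z hz => hno z hz :
      agr (tup r n G) I y ⊆ _)
    omega
  unfold agr at hy'
  rw [Finset.mem_filter, mem_tup] at hy'
  obtain ⟨⟨hinj, hG⟩, hag⟩ := hy'
  simp only [Finset.mem_filter, Finset.mem_univ, true_and, not_and, not_exists] at hnot
  have hnot' := hnot hag
  rw [mem_tup] at hx
  refine hav _ hx.2 _ hG ?_
  have himg : im x ∩ im y' = I.image (fun i => (y' i : ℕ)) := by
    ext a
    simp only [im, Finset.mem_inter, Finset.mem_image, Finset.mem_univ, true_and]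
    constructor
    · rintro ⟨⟨i, hi⟩, ⟨j, hj⟩⟩
      by_cases hjI : j ∈ I
      · exact ⟨j, hjI, hj⟩
      · exfalso
        exact hnot' j hjI i (Fin.ext (by rw [hj, hi]))
    · rintro ⟨j, hj, rfl⟩
      refine ⟨⟨j, ?_⟩, ⟨j, rfl⟩⟩
      have h1 := hIsub hj
      simp only [Finset.mem_filter, Finset.mem_univ, true_and] at h1
      rw [h1, hag j hj]
  rw [himg, Finset.card_image_of_injective _ (fun i j hij => hinj (Fin.ext hij)), hIcard]

/-- **Upper bound**: for `t`-avoiding pairs of families. -/
theorem upper {t : ℕ} (ht0 : 0 < t) (ht : t < r) (hn : 2 ≤ n) {M : ℝ} (hM0 : 0 ≤ M)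
    (hM : ∀ (p' : Fin r → ℝ) (A B : Set (Fin r → Bool)), (∀ i, 0 ≤ p' i ∧ p' i ≤ 1) →
      Adm (r + 1 - t) A B → mu p' A * mu p' B ≤ M)
    {F G : Finset (Finset ℕ)} (hF : F ⊆ (Finset.range n).powersetCard r)
    (hG : G ⊆ (Finset.range n).powersetCard r)
    (hav : ∀ A ∈ F, ∀ B ∈ G, (A ∩ B).card ≠ t) :
    ((F.card : ℝ) * r.factorial) * (G.card * r.factorial) ≤
      (M + (2 ^ r * (r * r) : ℝ) / n) * ((n : ℝ) ^ r) ^ 2 := by
  classical
  have hn0 : (0 : ℝ) < n := by
    have : 0 < n := by omega
    exact_mod_cast this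
  set A := tup r n F with hA
  set B := tup r n G with hB
  set B' := typ t B with hB'
  have hmain : (A.card : ℝ) * B'.card ≤ M * ((n : ℝ) ^ r) ^ 2 := by
    by_cases hA0 : A.Nonempty
    · by_cases hB0 : B'.Nonempty
      · obtain ⟨p, A₁, B₁, hp, hadm, hle⟩ := reduce_to_cube (ι := Fin r) (T := Fin n)
          (D := r + 1 - t) (by simpa using hn) (A : Set (Fin r → Fin n)) (B' : Set (Fin r → Fin n))
          (fun x hx y hy => dist_typ ht hav (Finset.mem_coe.1 hx) (Finset.mem_coe.1 hy))
          (by simpa using hA0) (by simpa using hB0)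
        rw [Set.ncard_coe_finset, Set.ncard_coe_finset, Fintype.card_fin, Fintype.card_fin] at hle
        refine hle.trans ?_
        exact mul_le_mul_of_nonneg_right (hM p A₁ B₁ hp hadm) (by positivity)
      · rw [Finset.not_nonempty_iff_eq_empty] at hB0
        rw [hB0]
        simp only [Finset.card_empty, Nat.cast_zero, mul_zero]
        positivity
    · rw [Finset.not_nonempty_iff_eq_empty] at hA0
      rw [hA0]
      simp only [Finset.card_empty, Nat.cast_zero, zero_mul]
      positivity
  have hBle : (B.card : ℝ) ≤ B'.card + 2 ^ r * (r * r) * (n : ℝ) ^ r / n := by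
    have h1 := card_typ t B
    have h2 : n ^ (r - (t + 1)) * n ^ t * n = n ^ r := by
      rw [← pow_add, ← pow_succ]
      congr 1
      omega
    have h3 : ((2 ^ r * (r * r * n ^ (r - (t + 1)) * n ^ t) : ℕ) : ℝ) =
        2 ^ r * (r * r) * (n : ℝ) ^ r / n := by
      rw [eq_div_iff hn0.ne']
      have h4 : ((n ^ (r - (t + 1)) * n ^ t * n : ℕ) : ℝ) = (n : ℝ) ^ r := by
        rw [h2]; push_cast; rfl
      rw [← h4]
      push_cast
      ring
    rw [← h3]
    exact_mod_cast h1
  have hAle : (A.card : ℝ) ≤ (n : ℝ) ^ r := by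
    have : A.card ≤ n ^ r := (Finset.card_le_univ _).trans (by simp)
    exact_mod_cast this
  have e1 : (F.card : ℝ) * r.factorial = A.card := by
    rw [hA, card_tup hF]; push_cast; ring
  have e2 : (G.card : ℝ) * r.factorial = B.card := by
    rw [hB, card_tup hG]; push_cast; ring
  rw [e1, e2]
  have hA0 : (0 : ℝ) ≤ A.card := by positivity
  calc (A.card : ℝ) * B.card ≤ A.card * (B'.card + 2 ^ r * (r * r) * (n : ℝ) ^ r / n) :=
        mul_le_mul_of_nonneg_left hBle hA0
    _ = A.card * B'.card + A.card * (2 ^ r * (r * r) * (n : ℝ) ^ r / n) := by ring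
    _ ≤ M * ((n : ℝ) ^ r) ^ 2 + (n : ℝ) ^ r * (2 ^ r * (r * r) * (n : ℝ) ^ r / n) :=
        add_le_add hmain (mul_le_mul_of_nonneg_right hAle (by positivity))
    _ = (M + (2 ^ r * (r * r) : ℝ) / n) * ((n : ℝ) ^ r) ^ 2 := by ring

end upper

section lower

variable {r n : ℕ}

lemma card_not_inj : (Finset.univ.filter (fun x : Fin r → Fin n => ¬ Injective x)).card * n ≤
    r * r * n ^ r := by
  classical
  have hsub : (Finset.univ.filter (fun x : Fin r → Fin n => ¬ Injective x)) ⊆
      (Finset.univ.filter (fun q : Fin r × Fin r => q.1 ≠ q.2)).biUnion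
        (fun q => Finset.univ.filter (fun x : Fin r → Fin n => x q.1 = x q.2)) := by
    intro x hx
    simp only [Finset.mem_filter, Finset.mem_univ, true_and] at hx
    unfold Injective at hx
    push Not at hx
    obtain ⟨i, j, hij, hne⟩ := hx
    rw [Finset.mem_biUnion]
    exact ⟨(i, j), by simpa using hne, by simpa using hij⟩
  have hq : ∀ q : Fin r × Fin r, q.1 ≠ q.2 →
      (Finset.univ.filter (fun x : Fin r → Fin n => x q.1 = x q.2)).card * n ≤ n ^ r := by
    intro q hq
    have : ((Finset.univ.filter (fun x : Fin r → Fin n => x q.1 = x q.2)) ×ˢ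
        (Finset.univ : Finset (Fin n))).card ≤ (Finset.univ : Finset (Fin r → Fin n)).card := by
      refine Finset.card_le_card_of_injOn (fun p => update p.1 q.2 p.2)
        (fun _ _ => Finset.mem_coe.2 (Finset.mem_univ _)) ?_
      rintro ⟨x, c⟩ hx ⟨y, d⟩ hy hxy
      simp only [Finset.coe_product, Set.mem_prod, Finset.mem_coe, Finset.mem_filter,
        Finset.mem_univ, true_and, and_true] at hx hy
      simp only at hxy
      have h1 : c = d := by
        have := congrFun hxy q.2
        simpa using this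
      have h2 : ∀ k, k ≠ q.2 → x k = y k := by
        intro k hk
        have := congrFun hxy k
        simpa [hk] using this
      have h3 : x = y := by
        funext k
        by_cases hk : k = q.2
        · rw [hk, ← hx, ← hy]
          exact h2 q.1 hq
        · exact h2 k hk
      rw [h1, h3]
    rw [Finset.card_product] at this
    simpa using this
  refine (Nat.mul_le_mul_right _ ((Finset.card_le_card hsub).trans Finset.card_biUnion_le)).trans ?_
  rw [Finset.sum_mul]
  refine (Finset.sum_le_card_nsmul _ _ (n ^ r) ?_).trans ?_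
  · intro q hq'
    rw [Finset.mem_filter] at hq'
    exact hq q hq'.2
  · rw [smul_eq_mul]
    refine Nat.mul_le_mul_right _ ?_
    refine (Finset.card_le_univ _).trans (le_of_eq ?_)
    simp

/-- Number of all tuples whose pattern with respect to `X` lies in `S`. -/
lemma card_pattern (hn : 0 < n) (X : Finset ℕ) (hX : X ⊆ Finset.range n)
    (S : Set (Fin r → Bool)) [DecidablePred (· ∈ S)] :
    ((Finset.univ.filter (fun x : Fin r → Fin n =>
      (fun i => decide ((x i : ℕ) ∈ X)) ∈ S)).card : ℝ) =
      mu (fun _ : Fin r => (X.card : ℝ) / n) S * (n : ℝ) ^ r := by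
  classical
  have hn0 : (0 : ℝ) < n := by exact_mod_cast hn
  have h1 := Ex_push (fun (_ : Fin r) (_ : Fin n) => (1 : ℝ) / n)
    (fun _ c => decide ((c : ℕ) ∈ X)) (ind S)
  have hcard : (Finset.univ.filter (fun c : Fin n => (c : ℕ) ∈ X)).card = X.card := by
    refine Finset.card_bij (fun c _ => (c : ℕ)) ?_ ?_ ?_
    · intro c hc
      simpa using hc
    · intro c _ d _ hcd
      exact Fin.ext hcd
    · intro b hb
      exact ⟨⟨b, Finset.mem_range.1 (hX hb)⟩, by simpa using hb, rfl⟩
  have h2 : (fun (_ : Fin r) (b : Bool) => ∑ c ∈ Finset.univ.filter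
      (fun c : Fin n => decide ((c : ℕ) ∈ X) = b), (1 : ℝ) / n) =
      bern (fun _ : Fin r => (X.card : ℝ) / n) := by
    funext i b
    rw [Finset.sum_const, nsmul_eq_mul]
    cases b
    · have h3 : (Finset.univ.filter (fun c : Fin n => decide ((c : ℕ) ∈ X) = false)).card =
          n - X.card := by
        have h4 := Finset.card_filter_add_card_filter_not (s := (Finset.univ : Finset (Fin n)))
          (fun c => (c : ℕ) ∈ X)
        rw [hcard, Finset.card_univ, Fintype.card_fin] at h4
        have h5 : (Finset.univ.filter (fun c : Fin n => decide ((c : ℕ) ∈ X) = false)) =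
            (Finset.univ.filter (fun c : Fin n => ¬ (c : ℕ) ∈ X)) := by
          ext c; simp
        rw [h5]
        omega
      have h6 : X.card ≤ n := by
        have := Finset.card_le_card hX
        rwa [Finset.card_range] at this
      rw [h3, Nat.cast_sub h6]
      simp only [bern, Bool.false_eq_true, if_false]
      field_simp
    · have h3 : (Finset.univ.filter (fun c : Fin n => decide ((c : ℕ) ∈ X) = true)).card =
          X.card := by
        rw [← hcard]
        congr 1
        ext c; simp
      rw [h3]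
      simp only [bern, if_true]
      ring
  rw [h2] at h1
  unfold mu
  rw [← h1]
  unfold Ex
  simp only [Finset.prod_const, Finset.card_univ, Fintype.card_fin]
  rw [← Finset.mul_sum]
  have h7 : ∀ x : Fin r → Fin n, ind S (fun i => decide ((x i : ℕ) ∈ X)) =
      if (fun i => decide ((x i : ℕ) ∈ X)) ∈ S then 1 else 0 := by
    intro x
    by_cases hx : (fun i => decide ((x i : ℕ) ∈ X)) ∈ S
    · rw [ind_of_mem hx, if_pos hx]
    · rw [ind_of_not_mem hx, if_neg hx]
  simp only [h7, Finset.sum_boole]
  rw [mul_comm _ ((n : ℝ) ^ r), ← mul_assoc, one_div, inv_pow, mul_inv_cancel₀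
    (pow_ne_zero _ hn0.ne'), one_mul]

lemma im_mem_powersetCard {x : Fin r → Fin n} (hx : Injective x) :
    im x ∈ (Finset.range n).powersetCard r := by
  rw [Finset.mem_powersetCard]
  constructor
  · intro a ha
    obtain ⟨i, -, rfl⟩ := Finset.mem_image.1 ha
    exact Finset.mem_range.2 (x i).2
  · unfold im
    rw [Finset.card_image_of_injective _ (fun i j hij => hx (Fin.ext hij)), Finset.card_univ,
      Fintype.card_fin]

lemma card_im_inter {x : Fin r → Fin n} (hx : Injective x) (X : Finset ℕ) :
    (im x ∩ X).card = wt (fun i => decide ((x i : ℕ) ∈ X)) := by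
  classical
  rw [wt_eq_card]
  have : im x ∩ X = (Finset.univ.filter (fun k => decide ((x k : ℕ) ∈ X) = true)).image
      (fun i => (x i : ℕ)) := by
    ext a
    simp only [im, Finset.mem_inter, Finset.mem_image, Finset.mem_univ, true_and,
      Finset.mem_filter, decide_eq_true_eq]
    constructor
    · rintro ⟨⟨i, rfl⟩, h⟩
      exact ⟨i, h, rfl⟩
    · rintro ⟨i, h, rfl⟩
      exact ⟨⟨i, rfl⟩, h⟩
  rw [this, Finset.card_image_of_injective _ (fun i j hij => hx (Fin.ext hij))]

/-- **Lower bound** for a family given by the pattern with respect to `X`. -/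
lemma lower (hn : 0 < n) (X : Finset ℕ) (hX : X ⊆ Finset.range n)
    (S : Set (Fin r → Bool)) {F : Finset (Finset ℕ)}
    (hF : F ⊆ (Finset.range n).powersetCard r)
    (hFS : ∀ x : Fin r → Fin n, Injective x → (fun i => decide ((x i : ℕ) ∈ X)) ∈ S → im x ∈ F) :
    (mu (fun _ : Fin r => (X.card : ℝ) / n) S - (r * r : ℝ) / n) * (n : ℝ) ^ r ≤
      (F.card : ℝ) * r.factorial := by
  classical
  have hn0 : (0 : ℝ) < n := by exact_mod_cast hn
  have h1 := card_pattern (r := r) hn X hX S
  have h2 : (Finset.univ.filter (fun x : Fin r → Fin n =>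
      (fun i => decide ((x i : ℕ) ∈ X)) ∈ S)).card ≤ (tup r n F).card +
      (Finset.univ.filter (fun x : Fin r → Fin n => ¬ Injective x)).card := by
    refine (Finset.card_le_card ?_).trans (Finset.card_union_le _ _)
    intro x hx
    simp only [Finset.mem_filter, Finset.mem_univ, true_and] at hx
    rw [Finset.mem_union, mem_tup]
    by_cases hinj : Injective x
    · exact Or.inl ⟨hinj, hFS x hinj hx⟩
    · exact Or.inr (by simpa using hinj)
  have h3 : ((Finset.univ.filter (fun x : Fin r → Fin n => ¬ Injective x)).card : ℝ) ≤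
      (r * r : ℝ) / n * (n : ℝ) ^ r := by
    have h4 : (((Finset.univ.filter (fun x : Fin r → Fin n => ¬ Injective x)).card * n : ℕ) : ℝ) ≤
        ((r * r * n ^ r : ℕ) : ℝ) := by exact_mod_cast card_not_inj
    push_cast at h4
    rw [div_mul_eq_mul_div, le_div_iff₀ hn0]
    exact h4
  have e1 : (F.card : ℝ) * r.factorial = (tup r n F).card := by
    rw [card_tup hF]; push_cast; ring
  rw [e1, sub_mul, ← h1]
  have h5 : ((Finset.univ.filter (fun x : Fin r → Fin n =>
      (fun i => decide ((x i : ℕ) ∈ X)) ∈ S)).card : ℝ) ≤ (tup r n F).card +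
      (Finset.univ.filter (fun x : Fin r → Fin n => ¬ Injective x)).card := by
    exact_mod_cast h2
  linarith

end lower

end Pool.Agent.Helper74.Cross
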