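import Mathlib

set_option autoImplicit false

/-!
# Sands-Sauer-Woodrow for tournaments with all but two colour classes transitive

`R c x y` : there is an arc of colour `c` from `x` to `y`.
-/

namespace Pool.Agent.SSW74

open Relation

variable {V C : Type*}

/-- monochromatic reachability of colour `c` inside the vertex set `W` -/
def Rch (R : C → V → V → Prop) (W : Finset V) (c : C) : V → V → Prop :=
  TransGen (fun a b => a ∈ W ∧ b ∈ W ∧ R c a b)

/-- multicoloured tournaments without rainbow triangle, all colours but `p`, `q` transitive -/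
structure Multi (R : C → V → V → Prop) (p q : C) : Prop where
  tot : ∀ x y, x ≠ y → ∃ c, R c x y ∨ R c y x
  anti : ∀ x y c d, R c x y → R d y x → False
  tr : ∀ c, c ≠ p → c ≠ q → ∀ x y z, R c x y → R c y z → R c x z
  rb : ∀ i j k x y z, i ≠ j → j ≠ k → i ≠ k → R i x y → R j y z → R k z x → False

/-- `v` dominates `W` -/
def Dom (R : C → V → V → Prop) (W : Finset V) (v : V) : Prop :=
  v ∈ W ∧ ∀ w ∈ W, w ≠ v → ∃ c, Rch R W c v w

/-- the induction statement -/
def QQ (R : C → V → V → Prop) (p q : C) (W : Finset V) : Prop :=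
  (∃ v, Dom R W v) ∧ ∀ v, Dom R W v → (∀ v', Dom R W v' → v' = v) → ∀ u ∈ W, ∀ t,
    (t = p ∨ t = q) → R t u v → ∃ c, c ≠ t ∧ Rch R W c v u

theorem Rch.mono {R : C → V → V → Prop} {W W' : Finset V} (h : W ⊆ W') {c : C} {x y : V}
    (hxy : Rch R W c x y) : Rch R W' c x y := by
  refine TransGen.mono ?_ _ _ hxy
  intro a b hab
  exact ⟨h hab.1, h hab.2.1, hab.2.2⟩

theorem Rch.single {R : C → V → V → Prop} {W : Finset V} {c : C} {x y : V}
    (hx : x ∈ W) (hy : y ∈ W) (h : R c x y) : Rch R W c x y :=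
  TransGen.single ⟨hx, hy, h⟩

theorem Rch.mem_left {R : C → V → V → Prop} {W : Finset V} {c : C} {x y : V}
    (h : Rch R W c x y) : x ∈ W := by
  obtain ⟨z, hz, -⟩ := TransGen.head'_iff.1 h
  exact hz.1

theorem Rch.arc {R : C → V → V → Prop} {p q : C} (hM : Multi R p q) {W : Finset V} {c : C}
    (hp : c ≠ p) (hq : c ≠ q) {x y : V} (h : Rch R W c x y) : R c x y := by
  induction h with
  | single h => exact h.2.2
  | tail _ h ih => exact hM.tr c hp hq _ _ _ ih h.2.2

theorem switch {α : Type*} {r : α → α → Prop} {A : α → Prop} {x y : α}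
    (h : ReflTransGen r x y) (hx : A x) (hy : ¬ A y) :
    ∃ a b, ReflTransGen r x a ∧ r a b ∧ ReflTransGen r b y ∧ A a ∧ ¬ A b := by
  induction h with
  | refl => exact absurd hx hy
  | @tail b c hab hbc ih =>
    by_cases hb : A b
    · exact ⟨b, c, hab, hbc, ReflTransGen.refl, hb, hy⟩
    · obtain ⟨a', b', h1, h2, h3, h4, h5⟩ := ih hb
      exact ⟨a', b', h1, h2, h3.tail hbc, h4, h5⟩

theorem chain {α : Type*} {r : α → α → Prop} {x : ℕ → α} {i j : ℕ} (hij : i < j)
    (h : ∀ l, i ≤ l → l < j → r (x l) (x (l + 1))) : TransGen r (x i) (x j) := by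
  induction j, hij using Nat.le_induction with
  | base => exact TransGen.single (h i le_rfl (Nat.lt_succ_self i))
  | succ j hj ih =>
    refine TransGen.tail (ih ?_) (h j (by omega) (Nat.lt_succ_self j))
    intro l hl1 hl2
    exact h l hl1 (by omega)

variable [DecidableEq V]

/-- the switch along the path `P_m` -/
theorem core {R : C → V → V → Prop} {p q : C} (hM : Multi R p q) {W : Finset V}
    {m mp mm : V} {y : C} (hm : m ∈ W) (hP : Rch R (W.erase m) y mp mm)
    (hout : ∃ c, R c m mp) (hin : ∃ c, R c mm m)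
    (h1 : ¬ Rch R W y m mm) (h2 : ¬ Rch R W y mp m) :
    ∃ a b z, a ∈ W.erase m ∧ b ∈ W.erase m ∧ z ≠ y ∧ (z = p ∨ z = q) ∧ R z m a ∧ R y a b ∧
      R z b m ∧ (a = mp ∨ Rch R W y mp a) ∧ (b = mm ∨ Rch R W y b mm) := by
  have hsub : W.erase m ⊆ W := Finset.erase_subset _ _
  have hA2 : ¬ ∃ c, R c m mm := by
    rintro ⟨c, hc⟩
    obtain ⟨d, hd⟩ := hin
    exact hM.anti _ _ _ _ hc hd
  obtain ⟨a, b, hxa, hab, hby, ⟨e, he⟩, hb⟩ :=
    switch (A := fun x => ∃ c, R c m x) hP.to_reflTransGen hout hA2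
  have hxa' : a = mp ∨ Rch R W y mp a := by
    rcases reflTransGen_iff_eq_or_transGen.1 hxa with h | h
    · exact Or.inl h
    · exact Or.inr (Rch.mono hsub h)
  have hby' : b = mm ∨ Rch R W y b mm := by
    rcases reflTransGen_iff_eq_or_transGen.1 hby with h | h
    · exact Or.inl h.symm
    · exact Or.inr (Rch.mono hsub h)
  have haW : a ∈ W := hsub hab.1
  have hbW : b ∈ W := hsub hab.2.1
  have hbm : b ≠ m := (Finset.mem_erase.1 hab.2.1).1
  obtain ⟨d, hd⟩ : ∃ d, R d b m := by
    obtain ⟨d, hd | hd⟩ := hM.tot b m hbm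
    · exact ⟨d, hd⟩
    · exact absurd ⟨d, hd⟩ hb
  have hey : e ≠ y := by
    rintro rfl
    apply h1
    have hmb : Rch R W e m b :=
      (Rch.single hm haW he).trans (Rch.single haW hbW hab.2.2)
    rcases hby' with h | h
    · exact h ▸ hmb
    · exact hmb.trans h
  have hdy : d ≠ y := by
    rintro rfl
    apply h2
    have ham : Rch R W d a m :=
      (Rch.single haW hbW hab.2.2).trans (Rch.single hbW hm hd)
    rcases hxa' with h | h
    · exact h ▸ ham
    · exact h.trans ham
  have hed : e = d := by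
    by_contra hne
    exact hM.rb e y d m a b hey (Ne.symm hdy) hne he hab.2.2 hd
  subst hed
  have hz : e = p ∨ e = q := by
    by_contra hcon
    push Not at hcon
    exact hM.anti _ _ _ _ (hM.tr e hcon.1 hcon.2 _ _ _ hd he) hab.2.2
  exact ⟨a, b, e, hab.1, hab.2.1, hey, hz, he, hab.2.2, hd, hxa', hby'⟩

/-- a maximal run of one colour along an injective successor map gives a contradiction -/
theorem no_orbit [Finite V] {R : C → V → V → Prop} {W : Finset V} {g : V → V} {x : ℕ → V} {c : C}
    (hx : ∀ i, x (i + 1) = g (x i)) (hW : ∀ i, x i ∈ W) (hne : ∀ i, g (x i) ≠ x i)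
    (hole : ∀ i, ∀ c, ¬ Rch R W c (g (x i)) (x i)) (hR : ∀ i, R c (x i) (x (i + 1))) : False := by
  obtain ⟨i, j, hij, hxx⟩ := Finite.exists_ne_map_eq_of_infinite x
  wlog hlt : i < j generalizing i j
  · exact this j i hij.symm hxx.symm (by omega)
  rcases Nat.lt_or_ge (i + 1) j with h | h
  · apply hole i c
    rw [← hx i]
    conv => rhs; rw [hxx]
    exact chain h (fun l _ _ => ⟨hW l, hW (l + 1), hR l⟩)
  · have : j = i + 1 := by omega
    subst this
    exact hne i (by rw [← hx i]; exact hxx.symm)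

theorem alpha [Finite V] {R : C → V → V → Prop} {p q : C} (hM : Multi R p q) {W : Finset V}
    (hne : W.Nonempty) (IH : ∀ W', W' ⊂ W → W'.Nonempty → QQ R p q W') : ∃ v, Dom R W v := by
  by_contra hcon
  push Not at hcon
  have hg : ∀ x ∈ W, ∃ d, Dom R (W.erase x) d ∧ ∀ c, ¬ Rch R W c d x := by
    intro x hx
    have hne' : (W.erase x).Nonempty := by
      rw [Finset.nonempty_iff_ne_empty]
      intro he
      refine hcon x ⟨hx, ?_⟩
      intro w hw hwx
      have : w ∈ W.erase x := Finset.mem_erase.2 ⟨hwx, hw⟩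
      rw [he] at this
      exact absurd this (Finset.notMem_empty _)
    obtain ⟨⟨d, hd⟩, -⟩ := IH _ (Finset.erase_ssubset hx) hne'
    refine ⟨d, hd, ?_⟩
    intro c hc
    refine hcon d ⟨Finset.mem_of_mem_erase hd.1, ?_⟩
    intro w hw hwd
    by_cases hwx : w = x
    · exact ⟨c, hwx ▸ hc⟩
    · obtain ⟨c', hc'⟩ := hd.2 w (Finset.mem_erase.2 ⟨hwx, hw⟩) hwd
      exact ⟨c', Rch.mono (Finset.erase_subset _ _) hc'⟩
  choose! g hg using hg
  have gW : ∀ x ∈ W, g x ∈ W := fun x hx => Finset.mem_of_mem_erase (hg x hx).1.1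
  have gne : ∀ x ∈ W, g x ≠ x := fun x hx => (Finset.mem_erase.1 (hg x hx).1.1).1
  have ginj : Set.InjOn g W := by
    intro x hx y hy hxy
    by_contra hne
    have hx' : x ∈ W := hx
    have hy' : y ∈ W := hy
    obtain ⟨c, hc⟩ := (hg x hx').1.2 y (Finset.mem_erase.2 ⟨Ne.symm hne, hy'⟩)
      (by rw [hxy]; exact (gne y hy').symm)
    exact (hg y hy').2 c (by rw [← hxy]; exact Rch.mono (Finset.erase_subset _ _) hc)
  have gsurj : ∀ y ∈ W, ∃ x ∈ W, g x = y := by
    have := Finset.surjOn_of_injOn_of_card_le g (s := W) (t := W) (fun x hx => gW x hx) ginj le_rfl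
    intro y hy
    obtain ⟨x, hx, hxy⟩ := this hy
    exact ⟨x, hx, hxy⟩
  have guniq : ∀ x ∈ W, ∀ d, Dom R (W.erase x) d → d = g x := by
    intro x hx d hd
    obtain ⟨y, hy, rfl⟩ := gsurj d (Finset.mem_of_mem_erase hd.1)
    by_contra hne
    have hyx : y ≠ x := by
      rintro rfl
      exact hne rfl
    obtain ⟨c, hc⟩ := hd.2 y (Finset.mem_erase.2 ⟨hyx, hy⟩) (gne y hy).symm
    exact (hg y hy).2 c (Rch.mono (Finset.erase_subset _ _) hc)
  -- arcs along g
  have garc : ∀ x ∈ W, ∃ c, R c x (g x) := by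
    intro x hx
    obtain ⟨c, hc | hc⟩ := hM.tot x (g x) (gne x hx).symm
    · exact ⟨c, hc⟩
    · exact absurd (Rch.single (gW x hx) hx hc) ((hg x hx).2 c)
  -- a wall
  have hwall : ∃ w ∈ W, ∃ c c', R c w (g w) ∧ R c' (g w) (g (g w)) ∧ c ≠ c' := by
    by_contra hno
    push Not at hno
    obtain ⟨x0, hx0⟩ := hne
    obtain ⟨c0, hc0⟩ := garc x0 hx0
    have hs : ∀ i, g^[i + 1] x0 = g (g^[i] x0) := fun i => Function.iterate_succ_apply' g i x0
    have hW : ∀ i, g^[i] x0 ∈ W := by
      intro i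
      induction i with
      | zero => exact hx0
      | succ i ih => rw [hs]; exact gW _ ih
    have hR : ∀ i, R c0 (g^[i] x0) (g^[i + 1] x0) := by
      intro i
      induction i with
      | zero => exact hc0
      | succ i ih =>
        obtain ⟨c', hc'⟩ := garc _ (hW (i + 1))
        rw [hs i] at ih
        have h1 := hc'
        rw [hs i] at h1
        have := hno _ (hW i) c0 c' ih h1
        rw [hs (i + 1), this]
        exact hc'
    exact no_orbit (x := fun i => g^[i] x0) (g := g) (c := c0) hs hW (fun i => gne _ (hW i))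
      (fun i c => (hg _ (hW i)).2 c) hR
  obtain ⟨w, hw, c, c', hc, hc', hcc⟩ := hwall
  set m := g w with hmdef
  have hm : m ∈ W := gW w hw
  have holew : ∀ c, ¬ Rch R W c m w := (hg w hw).2
  have holem : ∀ c, ¬ Rch R W c (g m) m := (hg m hm).2
  have hwm : w ≠ m := (gne w hw).symm
  have hgmw : w ≠ g m := by
    intro h
    exact hM.anti _ _ _ _ hc (by rw [← h] at hc'; exact hc')
  obtain ⟨y, hy⟩ := (hg m hm).1.2 w (Finset.mem_erase.2 ⟨hwm, hw⟩) hgmw
  have hyW : Rch R W y (g m) w := Rch.mono (Finset.erase_subset _ _) hy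
  have hyc' : y ≠ c' := by
    rintro rfl
    exact holew y ((Rch.single hm (gW m hm) hc').trans hyW)
  have hyc : y ≠ c := by
    rintro rfl
    exact holem y (hyW.trans (Rch.single hw hm hc))
  have hyN : y = p ∨ y = q := by
    by_contra hcon2
    push Not at hcon2
    exact hM.rb c c' y w m (g m) hcc (Ne.symm hyc') (Ne.symm hyc) hc hc' (Rch.arc hM hcon2.1 hcon2.2 hyW)
  have h2 : ¬ Rch R W y (g m) m := holem y
  obtain ⟨a, b, z, haW, hbW, hzy, hz, hza, hab, hzb, hxa, hby⟩ :=
    core hM hm hy ⟨c', hc'⟩ ⟨c, hc⟩ (holew y) h2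
  have ham : a ≠ m := (Finset.mem_erase.1 haW).1
  have hbm : b ≠ m := (Finset.mem_erase.1 hbW).1
  have haW' : a ∈ W := Finset.mem_of_mem_erase haW
  have hbW' : b ∈ W := Finset.mem_of_mem_erase hbW
  have key : ∀ d, (d = p ∨ d = q) → d ≠ z → d = y := by
    intro d hd hdz
    rcases hyN with rfl | rfl <;> rcases hz with rfl | rfl <;> rcases hd with rfl | rfl <;>
      first | rfl | exact absurd rfl hdz | exact absurd rfl hzy
  by_cases hamp : a = g m
  · -- then b ≠ w
    have hbw : b ≠ w := by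
      rintro rfl
      subst hamp
      exact hM.rb c c' y b m (g m) hcc (Ne.symm hyc') (Ne.symm hyc) hc hc' hab
    have hdomm : Dom R (W.erase w) m := (hg w hw).1
    obtain ⟨d, hdz, hd⟩ := (IH (W.erase w) (Finset.erase_ssubset hw) ⟨m, hdomm.1⟩).2 m hdomm
      (fun v' hv' => guniq w hw v' hv') b (Finset.mem_erase.2 ⟨hbw, hbW'⟩) z hz hzb
    have hdW : Rch R W d m b := Rch.mono (Finset.erase_subset _ _) hd
    by_cases hdN : d = p ∨ d = q
    · have := key d hdN hdz
      subst this
      rcases hby with h | h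
      · exact hbw h
      · exact holew d (hdW.trans h)
    · push Not at hdN
      exact hM.anti _ _ _ _ (Rch.arc hM hdN.1 hdN.2 hdW) hzb
  · obtain ⟨a', ha', haa⟩ := gsurj a haW'
    have ham' : a' ≠ m := by
      rintro rfl
      exact hamp haa.symm
    have hdoma : Dom R (W.erase a') a := haa ▸ (hg a' ha').1
    obtain ⟨d, hdz, hd⟩ := (IH (W.erase a') (Finset.erase_ssubset ha') ⟨a, hdoma.1⟩).2 a hdoma
      (fun v' hv' => (guniq a' ha' v' hv').trans haa) m
      (Finset.mem_erase.2 ⟨Ne.symm ham', hm⟩) z hz hza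
    have hdW : Rch R W d a m := Rch.mono (Finset.erase_subset _ _) hd
    by_cases hdN : d = p ∨ d = q
    · have := key d hdN hdz
      subst this
      rcases hxa with h | h
      · exact hamp h
      · exact h2 (h.trans hdW)
    · push Not at hdN
      exact hM.anti _ _ _ _ (Rch.arc hM hdN.1 hdN.2 hdW) hza

theorem beta [Finite V] {R : C → V → V → Prop} {p q : C} (hM : Multi R p q) {W : Finset V}
    (IH : ∀ W', W' ⊂ W → W'.Nonempty → QQ R p q W') {v : V} (hv : Dom R W v)
    (huniq : ∀ v', Dom R W v' → v' = v) {u : V} (hu : u ∈ W) {t : C} (ht : t = p ∨ t = q)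
    (htuv : R t u v) : ∃ c, c ≠ t ∧ Rch R W c v u := by
  by_contra hcon
  have honly : ∀ c, Rch R W c v u → c = t := by
    intro c hc
    by_contra hct
    exact hcon ⟨c, hct, hc⟩
  have huv : u ≠ v := by
    rintro rfl
    exact hM.anti _ _ _ _ htuv htuv
  have hvW : v ∈ W := hv.1
  have hg : ∀ x ∈ W, x ≠ u → ∃ d, Dom R (W.erase x) d ∧ (∀ c, ¬ Rch R W c d x) ∧ d ≠ v := by
    intro x hx hxu
    have huW' : u ∈ W.erase x := Finset.mem_erase.2 ⟨Ne.symm hxu, hu⟩
    have hIH := IH (W.erase x) (Finset.erase_ssubset hx) ⟨u, huW'⟩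
    have hext : ∀ d, Dom R (W.erase x) d → (∃ c, Rch R W c d x) → d = v := by
      intro d hd ⟨c, hc⟩
      refine huniq d ⟨Finset.mem_of_mem_erase hd.1, ?_⟩
      intro w hw hwd
      by_cases hwx : w = x
      · exact ⟨c, hwx ▸ hc⟩
      · obtain ⟨c', hc'⟩ := hd.2 w (Finset.mem_erase.2 ⟨hwx, hw⟩) hwd
        exact ⟨c', Rch.mono (Finset.erase_subset _ _) hc'⟩
    by_contra hno
    push Not at hno
    have hall : ∀ d, Dom R (W.erase x) d → d = v := by
      intro d hd
      by_contra hdv
      by_cases h : ∃ c, Rch R W c d x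
      · exact hdv (hext d hd h)
      · push Not at h
        exact hdv (hno d hd h)
    obtain ⟨d, hd⟩ := hIH.1
    have hdv := hall d hd
    subst hdv
    obtain ⟨c, hct, hc⟩ := hIH.2 d hd hall u huW' t ht htuv
    exact hct (honly c (Rch.mono (Finset.erase_subset _ _) hc))
  choose! g hg using hg
  have gW : ∀ x ∈ W, x ≠ u → g x ∈ W := fun x hx hxu => Finset.mem_of_mem_erase (hg x hx hxu).1.1
  have gne : ∀ x ∈ W, x ≠ u → g x ≠ x := fun x hx hxu =>
    (Finset.mem_erase.1 (hg x hx hxu).1.1).1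
  have gv : ∀ x ∈ W, x ≠ u → g x ≠ v := fun x hx hxu => (hg x hx hxu).2.2
  have ghole : ∀ x ∈ W, x ≠ u → ∀ c, ¬ Rch R W c (g x) x := fun x hx hxu => (hg x hx hxu).2.1
  have ginj : ∀ x ∈ W, x ≠ u → ∀ y ∈ W, y ≠ u → g x = g y → x = y := by
    intro x hx hxu y hy hyu hxy
    by_contra hne
    obtain ⟨c, hc⟩ := (hg x hx hxu).1.2 y (Finset.mem_erase.2 ⟨Ne.symm hne, hy⟩)
      (by rw [hxy]; exact (gne y hy hyu).symm)
    exact ghole y hy hyu c (by rw [← hxy]; exact Rch.mono (Finset.erase_subset _ _) hc)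
  have gsurj : ∀ y ∈ W, y ≠ v → ∃ x ∈ W, x ≠ u ∧ g x = y := by
    have hmap : Set.MapsTo g (W.erase u) (W.erase v) := by
      intro x hx
      have hx' := Finset.mem_erase.1 (Finset.mem_coe.1 hx)
      exact Finset.mem_coe.2 (Finset.mem_erase.2 ⟨gv x hx'.2 hx'.1, gW x hx'.2 hx'.1⟩)
    have hinj : Set.InjOn g (W.erase u) := by
      intro x hx y hy hxy
      have hx' := Finset.mem_erase.1 (Finset.mem_coe.1 hx)
      have hy' := Finset.mem_erase.1 (Finset.mem_coe.1 hy)
      exact ginj x hx'.2 hx'.1 y hy'.2 hy'.1 hxy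
    have := Finset.surjOn_of_injOn_of_card_le g hmap hinj
      (by rw [Finset.card_erase_of_mem hu, Finset.card_erase_of_mem hvW])
    intro y hy hyv
    obtain ⟨x, hx, hxy⟩ := this (Finset.mem_coe.2 (Finset.mem_erase.2 ⟨hyv, hy⟩))
    have hx' := Finset.mem_erase.1 (Finset.mem_coe.1 hx)
    exact ⟨x, hx'.2, hx'.1, hxy⟩
  have garc : ∀ x ∈ W, x ≠ u → ∃ c, R c x (g x) := by
    intro x hx hxu
    obtain ⟨c, hc | hc⟩ := hM.tot x (g x) (gne x hx hxu).symm
    · exact ⟨c, hc⟩
    · exact absurd (Rch.single (gW x hx hxu) hx hc) (ghole x hx hxu c)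
  -- the chain
  obtain ⟨x, hx0, hxs⟩ : ∃ x : ℕ → V, x 0 = v ∧ ∀ i, x (i + 1) = g (x i) :=
    ⟨fun i => g^[i] v, rfl, fun i => Function.iterate_succ_apply' g i v⟩
  have hstep : ∀ k, (∀ i, i < k → x i ≠ u ∧ R t (x i) (x (i + 1))) →
      (∀ i, i ≤ k → x i ∈ W) ∧ x k ≠ u := by
    intro k hk
    have hW : ∀ i, i ≤ k → x i ∈ W := by
      intro i
      induction i with
      | zero => intro _; rw [hx0]; exact hvW
      | succ i ih => intro hi; rw [hxs]; exact gW _ (ih (by omega)) (hk i (by omega)).1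
    refine ⟨hW, ?_⟩
    intro hxk
    rcases Nat.lt_trichotomy k 1 with h | h | h
    · have : k = 0 := by omega
      subst this
      exact huv (hxk.symm.trans hx0)
    · subst h
      have h0 := ghole v hvW (Ne.symm huv) t
      rw [← hx0, ← hxs 0, hx0] at h0
      apply h0
      rw [hxk]
      exact Rch.single hu hvW htuv
    · have h0 := ghole v hvW (Ne.symm huv) t
      rw [← hx0, ← hxs 0, hx0] at h0
      apply h0
      have hch : Rch R W t (x 1) (x k) :=
        chain h (fun l _ hl => ⟨hW l (by omega), hW (l + 1) (by omega), (hk l hl).2⟩)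
      rw [hxk] at hch
      exact hch.trans (Rch.single hu hvW htuv)
  obtain ⟨k, hklt, hku, hkR⟩ : ∃ k, (∀ i, i < k → x i ≠ u ∧ R t (x i) (x (i + 1))) ∧ x k ≠ u ∧
      ¬ R t (x k) (x (k + 1)) := by
    by_cases hall : ∀ k, x k ≠ u ∧ R t (x k) (x (k + 1))
    · exfalso
      have hW : ∀ i, x i ∈ W := fun i => (hstep i (fun j _ => hall j)).1 i le_rfl
      exact no_orbit (x := x) (g := g) (c := t) hxs hW (fun i => gne _ (hW i) (hall i).1)
        (fun i c => ghole _ (hW i) (hall i).1 c) (fun i => (hall i).2)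
    · push Not at hall
      classical
      have hex : ∃ k, ¬ (x k ≠ u ∧ R t (x k) (x (k + 1))) := by
        obtain ⟨k, hk⟩ := hall
        exact ⟨k, fun h => hk h.1 h.2⟩
      have hmin : ∀ i, i < Nat.find hex → x i ≠ u ∧ R t (x i) (x (i + 1)) := by
        intro i hi
        have := Nat.find_min hex hi
        exact not_not.1 this
      have hku := (hstep _ hmin).2
      refine ⟨Nat.find hex, hmin, hku, ?_⟩
      intro hR
      exact Nat.find_spec hex ⟨hku, hR⟩
  obtain ⟨hW, -⟩ := hstep k hklt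
  have hxu : ∀ i, i ≤ k → x i ≠ u := by
    intro i hi
    rcases Nat.lt_or_ge i k with h | h
    · exact (hklt i h).1
    · have : i = k := by omega
      rw [this]; exact hku
  -- injectivity on the initial segment
  have hinj0 : ∀ i j, i < j → j ≤ k → x i ≠ x j := by
    intro i j hij hjk hxx
    rcases Nat.lt_or_ge (i + 1) j with h | h
    · apply ghole (x i) (hW i (by omega)) (hxu i (by omega)) t
      rw [← hxs i]
      conv => rhs; rw [hxx]
      exact chain h (fun l _ hl => ⟨hW l (by omega), hW (l + 1) (by omega), (hklt l (by omega)).2⟩)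
    · have : j = i + 1 := by omega
      subst this
      exact gne (x i) (hW i (by omega)) (hxu i (by omega)) (by rw [← hxs i]; exact hxx.symm)
  set s := x k with hsdef
  have hsW : s ∈ W := hW k le_rfl
  set m := g s with hmdef
  have hm1 : x (k + 1) = m := hxs k
  have hmW : m ∈ W := gW s hsW hku
  have hms : m ≠ s := gne s hsW hku
  have hmv : m ≠ v := gv s hsW hku
  have holes : ∀ c, ¬ Rch R W c m s := ghole s hsW hku
  have hmI : ∀ i, i ≤ k → x i ≠ m := by
    intro i hi hxm
    rcases Nat.lt_or_ge i k with h | h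
    · rcases Nat.eq_zero_or_pos i with h0 | h0
      · subst h0
        exact hmv (hxm.symm.trans hx0)
      · obtain ⟨j, rfl⟩ : ∃ j, i = j + 1 := ⟨i - 1, by omega⟩
        rw [hxs j] at hxm
        have := ginj (x j) (hW j (by omega)) (hxu j (by omega)) s hsW hku hxm
        exact hinj0 j k (by omega) le_rfl this
    · have : i = k := by omega
      subst this
      exact hms hxm.symm
  -- predecessors
  obtain ⟨pr, hprR, hprW, hprS, hprs, hprm⟩ : ∃ pr : ℕ → V, (∀ j, j ≤ k → R t (pr j) (x j)) ∧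
      (∀ j, j ≤ k → pr j ∈ W) ∧ (∀ j, j ≤ k → ∀ c, Rch R W c (x j) (pr j) → c = t) ∧
      (∀ j, j ≤ k → pr j ≠ s) ∧ (∀ j, j ≤ k → pr j = m → j = 0 ∧ m = u) := by
    refine ⟨fun j => if j = 0 then u else x (j - 1), ?_, ?_, ?_, ?_, ?_⟩
    · intro j hj
      rcases Nat.eq_zero_or_pos j with h0 | h0
      · subst h0
        simp only [if_true, hx0]
        exact htuv
      · obtain ⟨i, rfl⟩ : ∃ i, j = i + 1 := ⟨j - 1, by omega⟩
        simp only [Nat.add_eq_zero_iff, one_ne_zero, and_false, if_false, Nat.add_sub_cancel]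
        exact (hklt i (by omega)).2
    · intro j hj
      rcases Nat.eq_zero_or_pos j with h0 | h0
      · subst h0
        simp only [if_true]
        exact hu
      · have : ¬ j = 0 := by omega
        simp only [this, if_false]
        exact hW _ (by omega)
    · intro j hj c hc
      rcases Nat.eq_zero_or_pos j with h0 | h0
      · subst h0
        simp only [if_true, hx0] at hc
        exact honly c hc
      · obtain ⟨i, rfl⟩ : ∃ i, j = i + 1 := ⟨j - 1, by omega⟩
        simp only [Nat.add_eq_zero_iff, one_ne_zero, and_false, if_false, Nat.add_sub_cancel] at hc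
        rw [hxs i] at hc
        exact absurd hc (ghole _ (hW i (by omega)) (hxu i (by omega)) c)
    · intro j hj
      rcases Nat.eq_zero_or_pos j with h0 | h0
      · subst h0
        simp only [if_true]
        exact (hxu k le_rfl).symm
      · have : ¬ j = 0 := by omega
        simp only [this, if_false]
        exact hinj0 _ k (by omega) le_rfl
    · intro j hj hjm
      rcases Nat.eq_zero_or_pos j with h0 | h0
      · subst h0
        simp only [if_true] at hjm
        exact ⟨rfl, hjm.symm⟩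
      · have : ¬ j = 0 := by omega
        simp only [this, if_false] at hjm
        exact absurd hjm (hmI _ (by omega))
  have hdomm : Dom R (W.erase s) m := (hg s hsW hku).1
  have hkR' : ¬ R t s m := by rw [← hm1]; exact hkR
  -- Step A
  have stepA : ∀ c, R c s m → c ≠ p ∧ c ≠ q := by
    intro c hc
    have hct : c ≠ t := by
      rintro rfl
      exact hkR' hc
    have hne : pr k ≠ m := by
      intro h
      have := hprR k le_rfl
      rw [h] at this
      exact holes t (Rch.single hmW hsW this)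
    obtain ⟨y, hy⟩ := hdomm.2 (pr k) (Finset.mem_erase.2 ⟨hprs k le_rfl, hprW k le_rfl⟩) hne
    have hyW : Rch R W y m (pr k) := Rch.mono (Finset.erase_subset _ _) hy
    have hyt : y ≠ t := by
      rintro rfl
      exact holes y (hyW.trans (Rch.single (hprW k le_rfl) hsW (hprR k le_rfl)))
    have hyc : y ≠ c := by
      rintro rfl
      exact hct (hprS k le_rfl y ((Rch.single hsW hmW hc).trans hyW))
    by_contra hcN
    have hcN' : c = p ∨ c = q := by
      by_contra h
      push Not at h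
      exact hcN h
    have hy1 : y ≠ p ∧ y ≠ q := by
      constructor <;> rintro rfl <;> rcases hcN' with rfl | rfl <;> rcases ht with rfl | rfl <;>
        first | exact hyt rfl | exact hyc rfl | exact hct rfl
    exact hM.rb t c y (pr k) s m (Ne.symm hct) (Ne.symm hyc) (Ne.symm hyt) (hprR k le_rfl) hc
      (Rch.arc hM hy1.1 hy1.2 hyW)
  obtain ⟨c, hc⟩ := garc s hsW hku
  obtain ⟨hcp, hcq⟩ := stepA c hc
  -- Step B
  obtain ⟨mp, c', y, hc', hy, h2, hmu⟩ : ∃ mp c' y, R c' m mp ∧ Rch R (W.erase m) y mp s ∧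
      ¬ Rch R W y mp m ∧ (m = u → y ≠ t) := by
    by_cases hmu : m = u
    · -- v dominates W.erase u
      have hsub : W.erase m ⊂ W := Finset.erase_ssubset hmW
      obtain ⟨d, hd⟩ := (IH (W.erase m) hsub ⟨s, Finset.mem_erase.2 ⟨Ne.symm hms, hsW⟩⟩).1
      have hdv : d = v := by
        by_contra hdv
        obtain ⟨d', hd'W, hd'u, hgd⟩ := gsurj d (Finset.mem_of_mem_erase hd.1) hdv
        obtain ⟨c, hc⟩ := hd.2 d' (Finset.mem_erase.2 ⟨by rw [hmu]; exact hd'u, hd'W⟩)
          (by rw [← hgd]; exact (gne d' hd'W hd'u).symm)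
        exact ghole d' hd'W hd'u c (by rw [hgd]; exact Rch.mono (Finset.erase_subset _ _) hc)
      subst hdv
      have hsd : s ≠ d := by
        intro h
        apply holes t
        rw [h, hmu]
        exact Rch.single hu hvW htuv
      obtain ⟨y, hy⟩ := hd.2 s (Finset.mem_erase.2 ⟨Ne.symm hms, hsW⟩) hsd
      have hyt : y ≠ t := by
        rintro rfl
        apply holes y
        have : Rch R W y m d := by rw [hmu]; exact Rch.single hu hvW htuv
        exact this.trans (Rch.mono (Finset.erase_subset _ _) hy)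
      refine ⟨d, t, y, by rw [hmu]; exact htuv, hy, ?_, fun _ => hyt⟩
      intro h
      rw [hmu] at h
      exact hyt (honly y h)
    · obtain ⟨c', hc'⟩ := garc m hmW hmu
      have hsg : s ≠ g m := by
        intro h
        exact hM.anti _ _ _ _ hc' (by rw [← h]; exact hc)
      obtain ⟨y, hy⟩ := (hg m hmW hmu).1.2 s (Finset.mem_erase.2 ⟨Ne.symm hms, hsW⟩) hsg
      exact ⟨g m, c', y, hc', hy, ghole m hmW hmu y, fun h => absurd h hmu⟩
  have hyW : Rch R W y mp s := Rch.mono (Finset.erase_subset _ _) hy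
  have hmpW : mp ∈ W := hyW.mem_left
  have hyc : y ≠ c := by
    rintro rfl
    exact h2 (hyW.trans (Rch.single hsW hmW hc))
  have hyc' : y ≠ c' := by
    rintro rfl
    exact holes y ((Rch.single hmW hmpW hc').trans hyW)
  have hyN : y = p ∨ y = q := by
    by_contra hcon2
    push Not at hcon2
    have hyR := Rch.arc hM hcon2.1 hcon2.2 hyW
    by_cases hcc : c = c'
    · subst hcc
      exact hM.anti _ _ _ _ (hM.tr c hcp hcq _ _ _ hc hc') hyR
    · exact hM.rb c c' y s m mp hcc (Ne.symm hyc') (Ne.symm hyc) hc hc' hyR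
  obtain ⟨a, f, z, haW, hfW, hzy, hz, hza, haf, hzf, hxa, hfy⟩ :=
    core hM hmW hy ⟨c', hc'⟩ ⟨c, hc⟩ (holes y) h2
  have hfm : f ≠ m := (Finset.mem_erase.1 hfW).1
  have hfW' : f ∈ W := Finset.mem_of_mem_erase hfW
  have hfs : f ≠ s := by
    rintro rfl
    obtain ⟨h1, h2⟩ := stepA z hzf
    rcases hz with h | h
    · exact h1 h
    · exact h2 h
  have hfy' : Rch R W y f s := by
    rcases hfy with h | h
    · exact absurd h hfs
    · exact h
  have key : ∀ d, (d = p ∨ d = q) → d ≠ z → d = y := by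
    intro d hd hdz
    rcases hyN with rfl | rfl <;> rcases hz with rfl | rfl <;> rcases hd with rfl | rfl <;>
      first | rfl | exact absurd rfl hdz | exact absurd rfl hzy
  have hmf : ∀ d, Rch R W d m f → d = z := by
    intro d hd
    by_contra hdz
    by_cases hdN : d = p ∨ d = q
    · have := key d hdN hdz
      subst this
      exact holes d (hd.trans hfy')
    · push Not at hdN
      exact hM.anti _ _ _ _ (Rch.arc hM hdN.1 hdN.2 hd) hzf
  by_cases hfI : ∃ j, j ≤ k ∧ x j = f
  · obtain ⟨j, hjk, hjf⟩ := hfI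
    have hjk' : j < k := by
      rcases Nat.lt_or_ge j k with h | h
      · exact h
      · have : j = k := by omega
        subst this
        exact absurd hjf.symm hfs
    have hfs2 : Rch R W t f s := by
      rw [← hjf]
      exact chain hjk' (fun l _ hl => ⟨hW l (by omega), hW (l + 1) (by omega), (hklt l hl).2⟩)
    have hzt : z ≠ t := by
      intro hzt
      obtain ⟨d, hd⟩ := hdomm.2 f (Finset.mem_erase.2 ⟨hfs, hfW'⟩) hfm
      have hdW : Rch R W d m f := Rch.mono (Finset.erase_subset _ _) hd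
      have := hmf d hdW
      rw [this, hzt] at hdW
      exact holes t (hdW.trans hfs2)
    have hyt : y = t := (key t ht (Ne.symm hzt)).symm
    have hmu' : m ≠ u := fun h => hmu h hyt
    have hne1 : pr j ≠ s := hprs j hjk
    have hne2 : pr j ≠ m := fun h => hmu' (hprm j hjk h).2
    obtain ⟨d, hd⟩ := hdomm.2 (pr j) (Finset.mem_erase.2 ⟨hne1, hprW j hjk⟩) hne2
    have hdW : Rch R W d m (pr j) := Rch.mono (Finset.erase_subset _ _) hd
    have hprf : R t (pr j) f := hjf ▸ hprR j hjk
    have hdt : d ≠ t := by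
      rintro rfl
      exact hzt (hmf d (hdW.trans (Rch.single (hprW j hjk) hfW' hprf))).symm
    have hdz : d ≠ z := by
      rintro rfl
      apply hzt
      apply hprS j hjk
      rw [hjf]
      exact (Rch.single hfW' hmW hzf).trans hdW
    have hdN : d ≠ p ∧ d ≠ q := by
      constructor
      · rintro rfl
        exact hdt ((key d (Or.inl rfl) hdz).trans hyt)
      · rintro rfl
        exact hdt ((key d (Or.inr rfl) hdz).trans hyt)
    exact hM.rb t z d (pr j) f m (Ne.symm hzt) (Ne.symm hdz) (Ne.symm hdt) hprf hzf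
      (Rch.arc hM hdN.1 hdN.2 hdW)
  · push Not at hfI
    classical
    set I : Finset V := (Finset.range (k + 1)).image x with hI
    have hmemI : ∀ w, w ∈ I ↔ ∃ j, j ≤ k ∧ x j = w := by
      intro w
      rw [hI, Finset.mem_image]
      constructor
      · rintro ⟨j, hj, rfl⟩
        exact ⟨j, by have := Finset.mem_range.1 hj; omega, rfl⟩
      · rintro ⟨j, hj, rfl⟩
        exact ⟨j, Finset.mem_range.2 (by omega), rfl⟩
    have hmI' : m ∉ I := by
      rw [hmemI]
      rintro ⟨j, hj, hjm⟩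
      exact hmI j hj hjm
    have hfI' : f ∉ I := by
      rw [hmemI]
      rintro ⟨j, hj, hjf⟩
      exact hfI j hj hjf
    have hvI : v ∈ I := (hmemI v).2 ⟨0, Nat.zero_le _, hx0⟩
    have hsub : W \ I ⊂ W := by
      refine Finset.ssubset_iff_subset_ne.2 ⟨Finset.sdiff_subset, ?_⟩
      intro h
      have : v ∈ W \ I := by rw [h]; exact hvW
      exact (Finset.mem_sdiff.1 this).2 hvI
    have hmW' : m ∈ W \ I := Finset.mem_sdiff.2 ⟨hmW, hmI'⟩
    have hfW'' : f ∈ W \ I := Finset.mem_sdiff.2 ⟨hfW', hfI'⟩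
    have huni : ∀ d, Dom R (W \ I) d → d = m := by
      intro d hd
      by_contra hdm
      have hdW : d ∈ W := (Finset.mem_sdiff.1 hd.1).1
      have hdI : d ∉ I := (Finset.mem_sdiff.1 hd.1).2
      have hdv : d ≠ v := by
        rintro rfl
        exact hdI hvI
      obtain ⟨d', hd'W, hd'u, hgd⟩ := gsurj d hdW hdv
      have hd'I : d' ∉ I := by
        rw [hmemI]
        rintro ⟨i, hi, hid⟩
        rcases Nat.lt_or_ge i k with h | h
        · apply hdI
          rw [hmemI]
          exact ⟨i + 1, by omega, by rw [hxs i, hid, hgd]⟩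
        · have : i = k := by omega
          subst this
          apply hdm
          rw [← hgd, ← hid]
      obtain ⟨c, hc⟩ := hd.2 d' (Finset.mem_sdiff.2 ⟨hd'W, hd'I⟩)
        (by rw [← hgd]; exact (gne d' hd'W hd'u).symm)
      exact ghole d' hd'W hd'u c (by rw [hgd]; exact Rch.mono Finset.sdiff_subset hc)
    have hIH := IH (W \ I) hsub ⟨m, hmW'⟩
    obtain ⟨d, hd⟩ := hIH.1
    have hdm := huni d hd
    subst hdm
    obtain ⟨c2, hc2z, hc2⟩ := hIH.2 _ hd huni f hfW'' z hz hzf
    exact hc2z (hmf c2 (Rch.mono Finset.sdiff_subset hc2))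

theorem QQ_all [Finite V] {R : C → V → V → Prop} {p q : C} (hM : Multi R p q) (W : Finset V)
    (hW : W.Nonempty) : QQ R p q W := by
  induction W using Finset.strongInduction with
  | H W ih =>
    have IH : ∀ W', W' ⊂ W → W'.Nonempty → QQ R p q W' := fun W' h h' => ih W' h h'
    exact ⟨alpha hM hW IH, fun v hv huniq u hu t ht htuv => beta hM IH hv huniq hu ht htuv⟩

end Pool.Agent.SSW74
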