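import Pool.Agent.Helper74.TvMoment

/-!
# Graphs which are not 3-Tverberg: the graph
-/

open scoped List

namespace Pool.Agent.Helper74.Tv

/-- the bipartite graph with incidence matrix `E` -/
def bip {m : ℕ} (E : Fin m → Fin m → Bool) : SimpleGraph (Letter m) where
  Adj u v := match u, v with
    | Sum.inl i, Sum.inr j => E i j = true
    | Sum.inr j, Sum.inl i => E i j = true
    | _, _ => False
  symm := ⟨by
    rintro (i | i) (j | j) h <;> exact h⟩
  loopless := ⟨by
    rintro (i | i) h <;> exact h⟩

theorem bip_colorable {m : ℕ} (E : Fin m → Fin m → Bool) : (bip E).Colorable 2 := by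
  refine ⟨SimpleGraph.Coloring.mk (fun u => if u.isLeft then (0 : Fin 2) else 1) ?_⟩
  rintro (i | i) (j | j) h
  · exact absurd h (by simp [bip])
  · simp
  · simp
  · exact absurd h (by simp [bip])

theorem exists_graph : ∃ (m : ℕ) (G : SimpleGraph (Letter m)), G.Colorable 2 ∧
    ∀ w : List (Letter m), ¬ ∀ u v, u ≠ v → (Meets w u v ↔ G.Adj u v) := by
  obtain ⟨m, E, hE⟩ := exists_bad'
  refine ⟨m, bip E, bip_colorable E, ?_⟩
  intro w hw
  apply hE w
  · rintro (i | i) (j | j) huv hlr
    · rw [hw _ _ huv]; simp [bip]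
    · simp at hlr
    · simp at hlr
    · rw [hw _ _ huv]; simp [bip]
  · intro i j
    rw [hw _ _ (by simp)]
    simp [bip]

end Pool.Agent.Helper74.Tv
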