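import Pool.Agent.Helper74.TvWords

/-!
# Minimal words and counting
-/

open scoped List

namespace Pool.Agent.Helper74.Tv

variable {α : Type*} [DecidableEq α]

/-- two letters alternate at least five times -/
def Meets (w : List α) (u v : α) : Prop := [u, v, u, v, u] <+ w ∨ [v, u, v, u, v] <+ w

theorem sublist_dup (p : List α) (hp : p.IsChain (· ≠ ·)) (a : α) (y : List α) :
    ∀ x : List α, p <+ x ++ a :: a :: y → p <+ x ++ a :: y := by
  intro x
  induction x generalizing p with
  | nil =>
    intro h
    rw [List.nil_append] at h ⊢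
    rcases List.sublist_cons_iff.mp h with h1 | ⟨r, rfl, h1⟩
    · exact h1
    · rcases List.sublist_cons_iff.mp h1 with h2 | ⟨r', rfl, h2⟩
      · exact List.Sublist.cons_cons a h2
      · simp at hp
  | cons b x ih =>
    intro h
    rw [List.cons_append] at h ⊢
    rcases List.sublist_cons_iff.mp h with h1 | ⟨r, rfl, h1⟩
    · exact List.Sublist.cons b (ih p hp h1)
    · exact List.Sublist.cons_cons b (ih r hp.tail h1)

theorem pat_chain {u v : α} (h : u ≠ v) : [u, v, u, v, u].IsChain (· ≠ ·) := by
  simp [h, Ne.symm h]

theorem meets_dup {u v : α} (huv : u ≠ v) (a : α) (x y : List α) :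
    Meets (x ++ a :: y) u v ↔ Meets (x ++ a :: a :: y) u v := by
  have hs : x ++ a :: y <+ x ++ a :: a :: y :=
    List.Sublist.append (List.Sublist.refl _) (List.sublist_cons_self _ _)
  constructor
  · rintro (h | h)
    · exact Or.inl (h.trans hs)
    · exact Or.inr (h.trans hs)
  · rintro (h | h)
    · exact Or.inl (sublist_dup _ (pat_chain huv) a y x h)
    · exact Or.inr (sublist_dup _ (pat_chain huv.symm) a y x h)

theorem sub_filter (u v : α) (w : List α) :
    [u, v, u, v, u] <+ w ↔ [u, v, u, v, u] <+ w.filter (fun z => z = u ∨ z = v) := by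
  constructor
  · intro h
    have := h.filter (fun z => decide (z = u ∨ z = v))
    simpa using this
  · intro h
    exact h.trans List.filter_sublist

theorem meets_filter (u v : α) (w : List α) :
    Meets w u v ↔ Meets (w.filter (fun z => z = u ∨ z = v)) u v := by
  unfold Meets
  rw [sub_filter u v w, sub_filter v u w]
  have : (w.filter (fun z => z = v ∨ z = u)) = (w.filter (fun z => z = u ∨ z = v)) := by
    apply List.filter_congr
    intro z _
    simp [or_comm]
  rw [this]

theorem meets_seven {i j u v : α} (huv : u ≠ v) (x y : List α) :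
    Meets (x ++ [i, j, i, j, i] ++ y) u v ↔ Meets (x ++ [i, j, i, j, i, j, i] ++ y) u v := by
  have hs : x ++ [i, j, i, j, i] ++ y <+ x ++ [i, j, i, j, i, j, i] ++ y := by
    refine List.Sublist.append (List.Sublist.append (List.Sublist.refl _) ?_) (List.Sublist.refl _)
    have : [i, j, i, j, i, j, i] = [i, j, i, j, i] ++ [j, i] := by simp
    rw [this]
    exact List.sublist_append_left _ _
  constructor
  · rintro (h | h)
    · exact Or.inl (h.trans hs)
    · exact Or.inr (h.trans hs)
  · intro h
    have hself : [i, j, i, j, i] <+ x ++ [i, j, i, j, i] ++ y :=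
      (List.sublist_append_right _ _).trans (List.sublist_append_left _ _)
    by_cases h1 : i = u ∧ j = v
    · obtain ⟨rfl, rfl⟩ := h1
      exact Or.inl hself
    by_cases h2 : i = v ∧ j = u
    · obtain ⟨rfl, rfl⟩ := h2
      exact Or.inr hself
    rw [meets_filter] at h ⊢
    simp only [List.filter_append] at h ⊢
    by_cases hi : i = u ∨ i = v
    · by_cases hj : j = u ∨ j = v
      · -- then i = j
        have hij : i = j := by
          rcases hi with hi | hi <;> rcases hj with hj | hj
          · rw [hi, hj]
          · exact absurd ⟨hi, hj⟩ h1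
          · exact absurd ⟨hi, hj⟩ h2
          · rw [hi, hj]
        subst hij
        have e1 : ([i, i, i, i, i, i, i] : List α).filter (fun z => z = u ∨ z = v) =
          [i, i, i, i, i, i, i] := by
          simp [List.filter_cons, hi]
        have e2 : ([i, i, i, i, i] : List α).filter (fun z => z = u ∨ z = v) =
          [i, i, i, i, i] := by
          simp [List.filter_cons, hi]
        rw [e1] at h
        rw [e2]
        simp only [List.append_assoc, List.cons_append, List.nil_append] at h ⊢
        rw [← meets_dup huv, ← meets_dup huv] at h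
        exact h
      · have e1 : ([i, j, i, j, i, j, i] : List α).filter (fun z => z = u ∨ z = v) =
          [i, i, i, i] := by
          simp [List.filter_cons, hi, hj]
        have e2 : ([i, j, i, j, i] : List α).filter (fun z => z = u ∨ z = v) =
          [i, i, i] := by
          simp [List.filter_cons, hi, hj]
        rw [e1] at h
        rw [e2]
        simp only [List.append_assoc, List.cons_append, List.nil_append] at h ⊢
        rw [← meets_dup huv] at h
        exact h
    · by_cases hj : j = u ∨ j = v
      · have e1 : ([i, j, i, j, i, j, i] : List α).filter (fun z => z = u ∨ z = v) =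
          [j, j, j] := by
          simp [List.filter_cons, hi, hj]
        have e2 : ([i, j, i, j, i] : List α).filter (fun z => z = u ∨ z = v) =
          [j, j] := by
          simp [List.filter_cons, hi, hj]
        rw [e1] at h
        rw [e2]
        simp only [List.append_assoc, List.cons_append, List.nil_append] at h ⊢
        rw [← meets_dup huv] at h
        exact h
      · have e1 : ([i, j, i, j, i, j, i] : List α).filter (fun z => z = u ∨ z = v) =
          [] := by
          simp [List.filter_cons, hi, hj]
        have e2 : ([i, j, i, j, i] : List α).filter (fun z => z = u ∨ z = v) =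
          [] := by
          simp [List.filter_cons, hi, hj]
        rw [e1] at h
        rw [e2]
        exact h

theorem not_chain_decomp : ∀ w : List α, ¬ w.IsChain (· ≠ ·) → ∃ x a y, w = x ++ a :: a :: y
  | [], h => absurd (by simp) h
  | [a], h => absurd (by simp) h
  | a :: b :: r, h => by
      by_cases hab : a = b
      · subst hab
        exact ⟨[], a, r, by simp⟩
      · have h' : ¬ (b :: r).IsChain (· ≠ ·) := by
          intro hc
          apply h
          rw [List.isChain_cons_cons]
          exact ⟨hab, hc⟩
        obtain ⟨x, c, y, hxy⟩ := not_chain_decomp (b :: r) h'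
        exact ⟨a :: x, c, y, by rw [hxy]; simp⟩

/-- A word with the same alternation relation and of bounded complexity. -/
theorem exists_min (w : List α) : ∃ w' : List α, (∀ u v, u ≠ v → (Meets w' u v ↔ Meets w u v)) ∧
    w'.IsChain (· ≠ ·) ∧ ∀ i j, ¬ [i, j, i, j, i, j, i] <:+: w' := by
  induction hn : w.length using Nat.strong_induction_on generalizing w with
  | _ n ih =>
    by_cases hc : w.IsChain (· ≠ ·)
    · by_cases h7 : ∀ i j, ¬ [i, j, i, j, i, j, i] <:+: w
      · exact ⟨w, fun _ _ _ => Iff.rfl, hc, h7⟩
      · push Not at h7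
        obtain ⟨i, j, x, y, rfl⟩ := h7
        obtain ⟨w', h1, h2, h3⟩ := ih (x ++ [i, j, i, j, i] ++ y).length (by
          rw [← hn]; simp) (x ++ [i, j, i, j, i] ++ y) rfl
        refine ⟨w', fun u v huv => ?_, h2, h3⟩
        rw [h1 u v huv, meets_seven huv]
    · obtain ⟨x, a, y, rfl⟩ := not_chain_decomp w hc
      obtain ⟨w', h1, h2, h3⟩ := ih (x ++ a :: y).length (by
        rw [← hn]; simp) (x ++ a :: y) rfl
      refine ⟨w', fun u v huv => ?_, h2, h3⟩
      rw [h1 u v huv, meets_dup huv]

/-- among seven consecutive letters there are three distinct ones -/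
theorem three_distinct (a b c d e f k : α)
    (hc : [a, b, c, d, e, f, k].IsChain (· ≠ ·))
    (h7 : ¬ (c = a ∧ e = a ∧ k = a ∧ d = b ∧ f = b)) :
    ∃ x y z, x ∈ [a, b, c, d, e, f, k] ∧ y ∈ [a, b, c, d, e, f, k] ∧ z ∈ [a, b, c, d, e, f, k] ∧
      x ≠ y ∧ y ≠ z ∧ x ≠ z := by
  simp only [List.isChain_cons_cons, List.isChain_singleton, and_true] at hc
  obtain ⟨hab, hbc, hcd, hde, hef, hfk⟩ := hc
  by_cases h1 : c = a
  · by_cases h2 : d = b
    · by_cases h3 : e = c
      · by_cases h4 : f = d
        · by_cases h5 : k = e
          · exfalso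
            apply h7
            subst h1 h2 h3 h4 h5
            simp
          · exact ⟨e, f, k, by simp, by simp, by simp, hef, hfk, Ne.symm h5⟩
        · exact ⟨d, e, f, by simp, by simp, by simp, hde, hef, Ne.symm h4⟩
      · exact ⟨c, d, e, by simp, by simp, by simp, hcd, hde, Ne.symm h3⟩
    · exact ⟨b, c, d, by simp, by simp, by simp, hbc, hcd, Ne.symm h2⟩
  · exact ⟨a, b, c, by simp, by simp, by simp, hab, hbc, Ne.symm h1⟩

theorem two_same (col : α → Bool) (x y z : α) (hxy : x ≠ y) (hyz : y ≠ z) (hxz : x ≠ z)
    (L : List α) (hx : x ∈ L) (hy : y ∈ L) (hz : z ∈ L) :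
    ∃ (b : Bool) (p q : α), p ∈ L ∧ q ∈ L ∧ p ≠ q ∧ col p = b ∧ col q = b := by
  rcases hcx : col x <;> rcases hcy : col y <;> rcases hcz : col z
  · exact ⟨false, x, y, hx, hy, hxy, hcx, hcy⟩
  · exact ⟨false, x, y, hx, hy, hxy, hcx, hcy⟩
  · exact ⟨false, x, z, hx, hz, hxz, hcx, hcz⟩
  · exact ⟨true, y, z, hy, hz, hyz, hcy, hcz⟩
  · exact ⟨false, y, z, hy, hz, hyz, hcy, hcz⟩
  · exact ⟨true, x, z, hx, hz, hxz, hcx, hcz⟩
  · exact ⟨true, x, y, hx, hy, hxy, hcx, hcy⟩
  · exact ⟨true, x, y, hx, hy, hxy, hcx, hcy⟩

/-- prolong a chain by one of two distinct letters -/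
theorem prolong (w : List α) (hw : w.IsChain (· ≠ ·)) (p q : α) (hpq : p ≠ q) :
    ∃ r, (r = p ∨ r = q) ∧ (r :: w).IsChain (· ≠ ·) := by
  cases w with
  | nil => exact ⟨p, Or.inl rfl, by simp⟩
  | cons c t =>
    by_cases h : p = c
    · refine ⟨q, Or.inr rfl, ?_⟩
      rw [List.isChain_cons_cons]
      exact ⟨fun hq => hpq (h.trans hq.symm), hw⟩
    · refine ⟨p, Or.inl rfl, ?_⟩
      rw [List.isChain_cons_cons]
      exact ⟨h, hw⟩

theorem windows (col : α → Bool) : ∀ (k : ℕ) (w : List α), w.IsChain (· ≠ ·) →
    (∀ i j, ¬ [i, j, i, j, i, j, i] <:+: w) → 7 * k ≤ w.length →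
    ∃ s t : List α, s <+ w ∧ t <+ w ∧ s.IsChain (· ≠ ·) ∧ t.IsChain (· ≠ ·) ∧
      (∀ x ∈ s, col x = true) ∧ (∀ x ∈ t, col x = false) ∧ k ≤ s.length + t.length := by
  intro k
  induction k with
  | zero => intro w _ _ _; exact ⟨[], [], by simp⟩
  | succ k ih =>
    intro w hc h7 hl
    match w, hc, h7, hl with
    | a :: b :: c :: d :: e :: f :: m :: r, hc, h7, hl =>
      have hdec : a :: b :: c :: d :: e :: f :: m :: r = [a, b, c, d, e, f, m] ++ r := by simp
      rw [hdec] at hc h7 hl ⊢
      have hc1 : [a, b, c, d, e, f, m].IsChain (· ≠ ·) :=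
        (List.isChain_append.mp hc).1
      have hc2 : r.IsChain (· ≠ ·) := (List.isChain_append.mp hc).2.1
      have hns : ¬ (c = a ∧ e = a ∧ m = a ∧ d = b ∧ f = b) := by
        rintro ⟨rfl, rfl, rfl, rfl, rfl⟩
        exact h7 _ _ (List.prefix_append _ _).isInfix
      obtain ⟨x, y, z, hx, hy, hz, hxy, hyz, hxz⟩ := three_distinct a b c d e f m hc1 hns
      obtain ⟨bb, p, q, hp, hq, hpq, hcp, hcq⟩ :=
        two_same col x y z hxy hyz hxz _ hx hy hz
      obtain ⟨s, t, hs, ht, hsc, htc, hst, htf, hk⟩ := ih r hc2
        (fun i j hij => h7 i j (hij.trans (List.suffix_append _ _).isInfix)) (by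
          simp at hl; omega)
      cases bb
      · obtain ⟨u, hu, huc⟩ := prolong t htc p q hpq
        have huL : u ∈ [a, b, c, d, e, f, m] := by rcases hu with rfl | rfl <;> assumption
        have huf : col u = false := by rcases hu with rfl | rfl <;> assumption
        refine ⟨s, u :: t, hs.trans (List.sublist_append_right _ _), ?_, hsc, huc, hst, ?_, ?_⟩
        · have : u :: t = [u] ++ t := rfl
          rw [this]
          exact List.Sublist.append (List.singleton_sublist.mpr huL) ht
        · intro x hx
          rcases List.mem_cons.mp hx with rfl | hx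
          · exact huf
          · exact htf x hx
        · simp only [List.length_cons]; omega
      · obtain ⟨u, hu, huc⟩ := prolong s hsc p q hpq
        have huL : u ∈ [a, b, c, d, e, f, m] := by rcases hu with rfl | rfl <;> assumption
        have huf : col u = true := by rcases hu with rfl | rfl <;> assumption
        refine ⟨u :: s, t, ?_, ht.trans (List.sublist_append_right _ _), huc, htc, ?_, htf, ?_⟩
        · have : u :: s = [u] ++ s := rfl
          rw [this]
          exact List.Sublist.append (List.singleton_sublist.mpr huL) hs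
        · intro x hx
          rcases List.mem_cons.mp hx with rfl | hx
          · exact huf
          · exact hst x hx
        · simp only [List.length_cons]; omega
    | [], _, _, hl => simp at hl
    | [_], _, _, hl => simp at hl; omega
    | [_, _], _, _, hl => simp at hl; omega
    | [_, _, _], _, _, hl => simp at hl; omega
    | [_, _, _, _], _, _, hl => simp at hl; omega
    | [_, _, _, _, _], _, _, hl => simp at hl; omega
    | [_, _, _, _, _, _], _, _, hl => simp at hl; omega

/-- the letters: two parts with `m` letters each -/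
abbrev Letter (m : ℕ) := Fin m ⊕ Fin m

theorem short_word (m : ℕ) (w : List (Letter m))
    (hw : ∀ u v : Letter m, u ≠ v → u.isLeft = v.isLeft → ¬ Meets w u v) :
    ∃ w' : List (Letter m), (∀ u v, u ≠ v → (Meets w' u v ↔ Meets w u v)) ∧
      (w'.length : ℝ) ≤ 7 * (2 * g m + 1) := by
  obtain ⟨w', h1, h2, h3⟩ := exists_min w
  refine ⟨w', h1, ?_⟩
  obtain ⟨s, t, hs, ht, hsc, htc, hst, htf, hk⟩ :=
    windows (fun x => Sum.isLeft x) (w'.length / 7) w' h2 h3 (Nat.mul_div_le _ _)
  have key : ∀ (b : Bool) (l : List (Letter m)), l <+ w' → l.IsChain (· ≠ ·) →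
      (∀ x ∈ l, Sum.isLeft x = b) → (l.length : ℝ) ≤ g m := by
    intro b l hl hlc hlb
    apply ds_bound m l hlc
    · intro x y hxy hsub
      have hx : x ∈ l := hsub.subset (by simp)
      have hy : y ∈ l := hsub.subset (by simp)
      apply hw x y hxy ((hlb x hx).trans (hlb y hy).symm)
      rw [← h1 x y hxy]
      exact Or.inl (hsub.trans hl)
    · -- number of letters
      cases b
      · have hsub : l.toFinset ⊆ (Finset.univ : Finset (Fin m)).map
            ⟨Sum.inr, Sum.inr_injective⟩ := by
          intro x hx
          have := hlb x (by simpa using hx)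
          rcases x with x | x
          · simp at this
          · simp
        have := Finset.card_le_card hsub
        simpa using this
      · have hsub : l.toFinset ⊆ (Finset.univ : Finset (Fin m)).map
            ⟨Sum.inl, Sum.inl_injective⟩ := by
          intro x hx
          have := hlb x (by simpa using hx)
          rcases x with x | x
          · simp
          · simp at this
        have := Finset.card_le_card hsub
        simpa using this
  have e1 := key true s hs hsc hst
  have e2 := key false t ht htc htf
  have e3 : (w'.length : ℝ) ≤ 7 * ((w'.length / 7 : ℕ) : ℝ) + 7 := by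
    have : w'.length ≤ 7 * (w'.length / 7) + 7 := by omega
    exact_mod_cast this
  have e4 : ((w'.length / 7 : ℕ) : ℝ) ≤ s.length + t.length := by exact_mod_cast hk
  linarith

theorem getElem?_inj {m B : ℕ} (w w' : List (Letter m)) (h : w.length ≤ B) (h' : w'.length ≤ B)
    (he : (fun k : Fin B => w[(k : ℕ)]?) = (fun k : Fin B => w'[(k : ℕ)]?)) : w = w' := by
  apply List.ext_getElem?
  intro n
  by_cases hn : n < B
  · exact congrFun he ⟨n, hn⟩
  · rw [List.getElem?_eq_none (by omega), List.getElem?_eq_none (by omega)]

/-- **Counting.** Some relation between the two parts is not the alternation relation of a word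
in which letters of the same part never alternate five times. -/
theorem exists_bad (m B : ℕ) (hB : 7 * (2 * g m + 1) ≤ B) (hcount : (2 * m + 1) ^ B < 2 ^ (m * m)) :
    ∃ E : Fin m → Fin m → Bool, ∀ w : List (Letter m),
      (∀ u v : Letter m, u ≠ v → u.isLeft = v.isLeft → ¬ Meets w u v) →
      ¬ ∀ i j, (Meets w (Sum.inl i) (Sum.inr j) ↔ E i j = true) := by
  by_contra hcon
  push Not at hcon
  have hw : ∀ E : Fin m → Fin m → Bool, ∃ w : List (Letter m), w.length ≤ B ∧
      ∀ i j, (Meets w (Sum.inl i) (Sum.inr j) ↔ E i j = true) := by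
    intro E
    obtain ⟨w, h1, h2⟩ := hcon E
    obtain ⟨w', h3, h4⟩ := short_word m w h1
    refine ⟨w', ?_, fun i j => ?_⟩
    · have := h4.trans hB
      exact_mod_cast this
    · rw [h3 _ _ (by simp), h2]
  choose W hW1 hW2 using hw
  have hinj : Function.Injective (fun E : Fin m → Fin m → Bool =>
      (fun k : Fin B => (W E)[(k : ℕ)]?)) := by
    intro E E' h
    have hWW : W E = W E' := getElem?_inj _ _ (hW1 E) (hW1 E') h
    funext i j
    have h1 := hW2 E i j
    have h2 := hW2 E' i j
    rw [hWW] at h1
    rw [Bool.eq_iff_iff]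
    exact h1.symm.trans h2
  have hcard := Fintype.card_le_of_injective _ hinj
  simp only [Fintype.card_fun, Fintype.card_bool, Fintype.card_fin, Fintype.card_option,
    Fintype.card_sum] at hcard
  rw [← pow_mul, ← two_mul] at hcard
  omega

end Pool.Agent.Helper74.Tv
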