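import Pool.Agent.Helper74.TvMin

/-!
# The moment curve in dimension three
-/

open scoped List

namespace Pool.Agent.Helper74.Tv

/-- the moment curve -/
def mc (t : ℝ) : Fin 3 → ℝ := ![t, t ^ 2, t ^ 3]

theorem mc_inj : Function.Injective mc := by
  intro s t h
  have := congrFun h 0
  simpa [mc] using this

/-- five alternating points of the moment curve: the hulls meet -/
theorem alt_meet (a b c d e : ℝ) (hab : a < b) (hbc : b < c) (hcd : c < d) (hde : d < e)
    (A B : Set (Fin 3 → ℝ)) (ha : mc a ∈ A) (hb : mc b ∈ B) (hc : mc c ∈ A) (hd : mc d ∈ B)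
    (he : mc e ∈ A) : (convexHull ℝ A ∩ convexHull ℝ B).Nonempty := by
  set wa : ℝ := (c - b) * (d - b) * (e - b) * (d - c) * (e - c) * (e - d) with hwa
  set wb : ℝ := (c - a) * (d - a) * (e - a) * (d - c) * (e - c) * (e - d) with hwb
  set wc : ℝ := (b - a) * (d - a) * (e - a) * (d - b) * (e - b) * (e - d) with hwc
  set wd : ℝ := (b - a) * (c - a) * (e - a) * (c - b) * (e - b) * (e - c) with hwd
  set we : ℝ := (b - a) * (c - a) * (d - a) * (c - b) * (d - b) * (d - c) with hwe
  have pba : 0 < b - a := by linarith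
  have pca : 0 < c - a := by linarith
  have pda : 0 < d - a := by linarith
  have pea : 0 < e - a := by linarith
  have pcb : 0 < c - b := by linarith
  have pdb : 0 < d - b := by linarith
  have peb : 0 < e - b := by linarith
  have pdc : 0 < d - c := by linarith
  have pec : 0 < e - c := by linarith
  have ped : 0 < e - d := by linarith
  have pwa : 0 < wa := by positivity
  have pwb : 0 < wb := by positivity
  have pwc : 0 < wc := by positivity
  have pwd : 0 < wd := by positivity
  have pwe : 0 < we := by positivity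
  have h0 : wa + wc + we = wb + wd := by rw [hwa, hwb, hwc, hwd, hwe]; ring
  have h1 : wa * a + wc * c + we * e = wb * b + wd * d := by
    rw [hwa, hwb, hwc, hwd, hwe]; ring
  have h2 : wa * a ^ 2 + wc * c ^ 2 + we * e ^ 2 = wb * b ^ 2 + wd * d ^ 2 := by
    rw [hwa, hwb, hwc, hwd, hwe]; ring
  have h3 : wa * a ^ 3 + wc * c ^ 3 + we * e ^ 3 = wb * b ^ 3 + wd * d ^ 3 := by
    rw [hwa, hwb, hwc, hwd, hwe]; ring
  set W : ℝ := wb + wd with hW
  have pW : 0 < W := by positivity
  have hsum : (wa / W) • mc a + (wc / W) • mc c + (we / W) • mc e =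
      (wb / W) • mc b + (wd / W) • mc d := by
    have key : ∀ k : ℕ, wa * a ^ k + wc * c ^ k + we * e ^ k = wb * b ^ k + wd * d ^ k →
        wa / W * a ^ k + wc / W * c ^ k + we / W * e ^ k = wb / W * b ^ k + wd / W * d ^ k := by
      intro k hk
      have : (wa * a ^ k + wc * c ^ k + we * e ^ k) / W = (wb * b ^ k + wd * d ^ k) / W := by
        rw [hk]
      field_simp at this ⊢
      linarith
    funext i
    fin_cases i
    · have := key 1 (by simpa using h1)
      simpa [mc] using this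
    · have := key 2 h2
      simpa [mc] using this
    · have := key 3 h3
      simpa [mc] using this
  refine ⟨(wa / W) • mc a + (wc / W) • mc c + (we / W) • mc e, ?_, ?_⟩
  · have hconv := convex_convexHull ℝ A
    have := hconv.sum_mem (t := (Finset.univ : Finset (Fin 3))) (w := ![wa / W, wc / W, we / W])
      (z := ![mc a, mc c, mc e]) (by
        intro i _
        fin_cases i
        · exact (div_pos pwa pW).le
        · exact (div_pos pwc pW).le
        · exact (div_pos pwe pW).le) (by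
        simp only [Fin.sum_univ_three, Matrix.cons_val_zero, Matrix.cons_val_one, Matrix.cons_val]
        rw [← add_div, ← add_div, h0]
        exact div_self pW.ne') (by
        intro i _
        fin_cases i
        · exact subset_convexHull ℝ A ha
        · exact subset_convexHull ℝ A hc
        · exact subset_convexHull ℝ A he)
    simpa [Fin.sum_univ_three] using this
  · rw [hsum]
    have hconv := convex_convexHull ℝ B
    exact hconv (subset_convexHull ℝ B hb) (subset_convexHull ℝ B hd)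
      (div_pos pwb pW).le (div_pos pwd pW).le (by rw [← add_div]; exact div_self pW.ne')

/-- sets separated by a cubic have disjoint hulls -/
theorem cubic_sep (r₁ r₂ r₃ : ℝ) (A B : Set ℝ)
    (hA : ∀ t ∈ A, 0 < -((t - r₁) * (t - r₂) * (t - r₃)))
    (hB : ∀ t ∈ B, -((t - r₁) * (t - r₂) * (t - r₃)) < 0) :
    ¬ (convexHull ℝ (mc '' A) ∩ convexHull ℝ (mc '' B)).Nonempty := by
  let L : (Fin 3 → ℝ) →ₗ[ℝ] ℝ :=
    -(LinearMap.proj 2) + (r₁ + r₂ + r₃) • LinearMap.proj 1
      - (r₁ * r₂ + r₁ * r₃ + r₂ * r₃) • LinearMap.proj 0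
  have hL : ∀ t, L (mc t) + r₁ * r₂ * r₃ = -((t - r₁) * (t - r₂) * (t - r₃)) := by
    intro t
    simp only [L, mc, LinearMap.sub_apply, LinearMap.add_apply, LinearMap.neg_apply,
      LinearMap.smul_apply, LinearMap.proj_apply, Matrix.cons_val_zero, Matrix.cons_val_one,
      Matrix.cons_val, smul_eq_mul]
    ring
  rintro ⟨x, hx1, hx2⟩
  have h1 : x ∈ {y | -(r₁ * r₂ * r₃) < L y} := by
    refine convexHull_min ?_ (convex_halfSpace_gt L.isLinear _) hx1
    rintro _ ⟨t, ht, rfl⟩
    have := hA t ht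
    rw [← hL] at this
    show -(r₁ * r₂ * r₃) < L (mc t)
    linarith
  have h2 : x ∈ {y | L y < -(r₁ * r₂ * r₃)} := by
    refine convexHull_min ?_ (convex_halfSpace_lt L.isLinear _) hx2
    rintro _ ⟨t, ht, rfl⟩
    have := hB t ht
    rw [← hL] at this
    show L (mc t) < -(r₁ * r₂ * r₃)
    linarith
  rw [Set.mem_setOf_eq] at h1 h2
  exact lt_asymm h1 h2

/-- If the smallest element comes from `A` and there is no alternation of length five starting in
`A`, the hulls are disjoint. -/
theorem noalt_sep_aux (N : ℕ) (A B : Set ℕ) (hAN : ∀ a ∈ A, a < N) (hBN : ∀ b ∈ B, b < N)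
    (hdis : ∀ a, a ∈ A → a ∉ B) (a₀ : ℕ) (ha₀ : a₀ ∈ A) (hmin : ∀ b ∈ B, a₀ < b)
    (hno : ¬ ∃ a b c d e, a < b ∧ b < c ∧ c < d ∧ d < e ∧ a ∈ A ∧ b ∈ B ∧ c ∈ A ∧ d ∈ B ∧ e ∈ A) :
    ¬ (convexHull ℝ (mc '' ((fun n : ℕ => (n : ℝ)) '' A)) ∩
      convexHull ℝ (mc '' ((fun n : ℕ => (n : ℝ)) '' B))).Nonempty := by
  classical
  have e1 : ∃ k, k ∈ B ∨ k = N := ⟨N, Or.inr rfl⟩
  set c1 := Nat.find e1 with hc1
  have s1 := Nat.find_spec e1
  have m1 : ∀ t, t < c1 → ¬ (t ∈ B ∨ t = N) := fun t ht => Nat.find_min e1 ht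
  rw [← hc1] at s1
  have l1 : c1 ≤ N := Nat.find_min' e1 (Or.inr rfl)
  have e2 : ∃ k, c1 ≤ k ∧ (k ∈ A ∨ k = N) := ⟨N, l1, Or.inr rfl⟩
  set c2 := Nat.find e2 with hc2
  have s2 := Nat.find_spec e2
  have m2 : ∀ t, t < c2 → ¬ (c1 ≤ t ∧ (t ∈ A ∨ t = N)) := fun t ht => Nat.find_min e2 ht
  rw [← hc2] at s2
  have l2 : c2 ≤ N := Nat.find_min' e2 ⟨l1, Or.inr rfl⟩
  have e3 : ∃ k, c2 ≤ k ∧ (k ∈ B ∨ k = N) := ⟨N, l2, Or.inr rfl⟩
  set c3 := Nat.find e3 with hc3
  have s3 := Nat.find_spec e3
  have m3 : ∀ t, t < c3 → ¬ (c2 ≤ t ∧ (t ∈ B ∨ t = N)) := fun t ht => Nat.find_min e3 ht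
  rw [← hc3] at s3
  have l3 : c3 ≤ N := Nat.find_min' e3 ⟨l2, Or.inr rfl⟩
  -- beyond c3 there is no element of A
  have hend : ∀ t ∈ A, c3 ≤ t → False := by
    intro t ht hct
    have htN := hAN t ht
    have h3 : c3 ∈ B := by
      rcases s3.2 with h | h
      · exact h
      · omega
    have h2 : c2 ∈ A := by
      rcases s2.2 with h | h
      · exact h
      · omega
    have h1 : c1 ∈ B := by
      rcases s1 with h | h
      · exact h
      · omega
    have n12 : c1 ≠ c2 := fun h => hdis c2 h2 (h ▸ h1)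
    have n23 : c2 ≠ c3 := fun h => hdis c2 h2 (h ▸ h3)
    have n3t : c3 ≠ t := fun h => hdis t ht (h ▸ h3)
    have h12 : c1 ≤ c2 := s2.1
    have h23 : c2 ≤ c3 := s3.1
    exact hno ⟨a₀, c1, c2, c3, t, hmin c1 h1, by omega, by omega, by omega, ha₀, h1, h2, h3, ht⟩
  have h12 : c1 ≤ c2 := s2.1
  have h23 : c2 ≤ c3 := s3.1
  have below : ∀ t c : ℕ, t < c → (t : ℝ) - ((c : ℝ) - 1 / 2) < 0 := by
    intro t c h
    have : (t : ℝ) + 1 ≤ c := by exact_mod_cast h
    linarith
  have above : ∀ t c : ℕ, c ≤ t → 0 < (t : ℝ) - ((c : ℝ) - 1 / 2) := by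
    intro t c h
    have : (c : ℝ) ≤ t := by exact_mod_cast h
    linarith
  apply cubic_sep ((c1 : ℝ) - 1 / 2) ((c2 : ℝ) - 1 / 2) ((c3 : ℝ) - 1 / 2)
  · rintro _ ⟨t, ht, rfl⟩
    have htN := hAN t ht
    by_cases q1 : t < c1
    · have p1 := below t c1 q1
      have p2 := below t c2 (by omega)
      have p3 := below t c3 (by omega)
      have := mul_pos_of_neg_of_neg p1 p2
      have := mul_neg_of_pos_of_neg this p3
      simpa using this
    · have q2 : ¬ t < c2 := fun h => m2 t h ⟨by omega, Or.inl ht⟩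
      have q3 : t < c3 := by
        by_contra h
        exact hend t ht (by omega)
      have p1 := above t c1 (by omega)
      have p2 := above t c2 (by omega)
      have p3 := below t c3 q3
      have := mul_pos p1 p2
      have := mul_neg_of_pos_of_neg this p3
      simpa using this
  · rintro _ ⟨t, ht, rfl⟩
    have htN := hBN t ht
    have q1 : ¬ t < c1 := fun h => m1 t h (Or.inl ht)
    have p1 := above t c1 (by omega)
    by_cases q2 : t < c2
    · have p2 := below t c2 q2
      have p3 := below t c3 (by omega)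
      have := mul_neg_of_pos_of_neg p1 p2
      have := mul_pos_of_neg_of_neg this p3
      simpa using this
    · have q3 : ¬ t < c3 := fun h => m3 t h ⟨by omega, Or.inl ht⟩
      have p2 := above t c2 (by omega)
      have p3 := above t c3 (by omega)
      have := mul_pos (mul_pos p1 p2) p3
      simpa using this

/-- pattern of indices -/
def Alt (A B : Set ℕ) : Prop :=
  ∃ a b c d e, a < b ∧ b < c ∧ c < d ∧ d < e ∧ a ∈ A ∧ b ∈ B ∧ c ∈ A ∧ d ∈ B ∧ e ∈ A

theorem hull_meet_iff (N : ℕ) (A B : Set ℕ) (hAN : ∀ a ∈ A, a < N) (hBN : ∀ b ∈ B, b < N)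
    (hdis : ∀ a, a ∈ A → a ∉ B) :
    (convexHull ℝ (mc '' ((fun n : ℕ => (n : ℝ)) '' A)) ∩
      convexHull ℝ (mc '' ((fun n : ℕ => (n : ℝ)) '' B))).Nonempty ↔ Alt A B ∨ Alt B A := by
  classical
  constructor
  · intro h
    by_contra hcon
    push Not at hcon
    obtain ⟨hno1, hno2⟩ := hcon
    have hA : A.Nonempty := by
      obtain ⟨x, hx, -⟩ := h
      have : (convexHull ℝ (mc '' ((fun n : ℕ => (n : ℝ)) '' A))).Nonempty := ⟨x, hx⟩
      rw [convexHull_nonempty_iff] at this
      simpa using this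
    have hB : B.Nonempty := by
      obtain ⟨x, -, hx⟩ := h
      have : (convexHull ℝ (mc '' ((fun n : ℕ => (n : ℝ)) '' B))).Nonempty := ⟨x, hx⟩
      rw [convexHull_nonempty_iff] at this
      simpa using this
    set a₀ := Nat.find hA with ha₀
    set b₀ := Nat.find hB with hb₀
    have sa : a₀ ∈ A := Nat.find_spec hA
    have sb : b₀ ∈ B := Nat.find_spec hB
    rcases lt_trichotomy a₀ b₀ with hlt | heq | hlt
    · refine noalt_sep_aux N A B hAN hBN hdis a₀ sa ?_ hno1 h
      intro b hb
      exact lt_of_lt_of_le hlt (Nat.find_min' hB hb)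
    · exact hdis a₀ sa (heq ▸ sb)
    · refine noalt_sep_aux N B A hBN hAN (fun b hb ha => hdis b ha hb) b₀ sb ?_ hno2 ?_
      · intro a ha
        exact lt_of_lt_of_le hlt (Nat.find_min' hA ha)
      · rw [Set.inter_comm]; exact h
  · have key : ∀ A B : Set ℕ, Alt A B →
        (convexHull ℝ (mc '' ((fun n : ℕ => (n : ℝ)) '' A)) ∩
          convexHull ℝ (mc '' ((fun n : ℕ => (n : ℝ)) '' B))).Nonempty := by
      rintro A B ⟨a, b, c, d, e, hab, hbc, hcd, hde, ha, hb, hc, hd, he⟩
      exact alt_meet a b c d e (by exact_mod_cast hab) (by exact_mod_cast hbc)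
        (by exact_mod_cast hcd) (by exact_mod_cast hde) _ _
        ⟨a, ⟨a, ha, rfl⟩, rfl⟩ ⟨b, ⟨b, hb, rfl⟩, rfl⟩ ⟨c, ⟨c, hc, rfl⟩, rfl⟩
        ⟨d, ⟨d, hd, rfl⟩, rfl⟩ ⟨e, ⟨e, he, rfl⟩, rfl⟩
    rintro (h | h)
    · exact key A B h
    · rw [Set.inter_comm]; exact key B A h

theorem sublist_range_of_sorted : ∀ (l : List ℕ) (s N : ℕ), l.Pairwise (· < ·) →
    (∀ x ∈ l, s ≤ x ∧ x < s + N) → l <+ List.range' s N
  | [], _, _, _, _ => List.nil_sublist _
  | a :: r, s, 0, _, h => by
      exfalso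
      have := h a (by simp)
      omega
  | a :: r, s, N + 1, hp, h => by
      rw [List.range'_succ]
      by_cases has : a = s
      · subst has
        refine List.Sublist.cons_cons a (sublist_range_of_sorted r (a + 1) N hp.tail ?_)
        intro x hx
        have h1 := (List.pairwise_cons.mp hp).1 x hx
        have h2 := h x (List.mem_cons_of_mem _ hx)
        omega
      · refine List.Sublist.cons s (sublist_range_of_sorted (a :: r) (s + 1) N hp ?_)
        intro x hx
        have h2 := h x hx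
        have ha := h a (by simp)
        rcases List.mem_cons.mp hx with rfl | hx'
        · omega
        · have h1 := (List.pairwise_cons.mp hp).1 x hx'
          omega

theorem pat_iff {V : Type*} (N : ℕ) (f : ℕ → V) (u v : V) :
    [u, v, u, v, u] <+ (List.range N).map f ↔
      Alt {k | k < N ∧ f k = u} {k | k < N ∧ f k = v} := by
  rw [List.sublist_map_iff]
  constructor
  · rintro ⟨l, hl, heq⟩
    have hp : l.Pairwise (· < ·) := List.Pairwise.sublist hl List.pairwise_lt_range
    have hlen : l.length = 5 := by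
      have := congrArg List.length heq
      simpa using this.symm
    obtain ⟨a, b, c, d, e, rfl⟩ : ∃ a b c d e, l = [a, b, c, d, e] := by
      rcases l with _ | ⟨a, _ | ⟨b, _ | ⟨c, _ | ⟨d, _ | ⟨e, _ | ⟨f, l⟩⟩⟩⟩⟩⟩
      · simp at hlen
      · simp at hlen
      · simp at hlen
      · simp at hlen
      · simp at hlen
      · exact ⟨a, b, c, d, e, rfl⟩
      · simp at hlen
    · simp only [List.map_cons, List.map_nil, List.cons.injEq, and_true] at heq
      obtain ⟨ha, hb, hc, hd, he⟩ := heq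
      have hm : ∀ x ∈ [a, b, c, d, e], x < N := fun x hx => List.mem_range.mp (hl.subset hx)
      simp only [List.pairwise_cons, List.mem_cons, List.not_mem_nil, or_false,
        forall_eq_or_imp, forall_eq] at hp
      refine ⟨a, b, c, d, e, hp.1.1, hp.2.1.1, hp.2.2.1.1, hp.2.2.2.1, ⟨hm a (by simp), ha.symm⟩,
        ⟨hm b (by simp), hb.symm⟩, ⟨hm c (by simp), hc.symm⟩, ⟨hm d (by simp), hd.symm⟩,
        ⟨hm e (by simp), he.symm⟩⟩
  · rintro ⟨a, b, c, d, e, hab, hbc, hcd, hde, ha, hb, hc, hd, he⟩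
    refine ⟨[a, b, c, d, e], ?_, ?_⟩
    · rw [List.range_eq_range']
      apply sublist_range_of_sorted
      · simp only [List.pairwise_cons, List.mem_cons, List.not_mem_nil, or_false,
          forall_eq_or_imp, forall_eq, List.Pairwise.nil, and_true, IsEmpty.forall_iff,
          implies_true]
        omega
      · intro x hx
        have hx' : x = a ∨ x = b ∨ x = c ∨ x = d ∨ x = e := by simpa using hx
        have h1 := ha.1
        have h2 := hb.1
        have h3 := hc.1
        have h4 := hd.1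
        have h5 := he.1
        omega
    · simp only [List.map_cons, List.map_nil, ha.2, hb.2, hc.2, hd.2, he.2]

/-- Hulls of colour classes of points on the moment curve meet iff the letters alternate. -/
theorem hull_iff_meets {V : Type*} [DecidableEq V] (N : ℕ) (f : ℕ → V) (u v : V) (huv : u ≠ v) :
    (convexHull ℝ (mc '' ((fun n : ℕ => (n : ℝ)) '' {k | k < N ∧ f k = u})) ∩
      convexHull ℝ (mc '' ((fun n : ℕ => (n : ℝ)) '' {k | k < N ∧ f k = v}))).Nonempty ↔
      Meets ((List.range N).map f) u v := by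
  rw [hull_meet_iff N _ _ (fun a ha => ha.1) (fun b hb => hb.1)
    (fun a ha hb => huv (ha.2.symm.trans hb.2)), Meets, pat_iff, pat_iff]

/-- at most three points of the moment curve lie on a plane -/
theorem mc_general (T : Finset ℝ) (hT : T.card = 4) (a : Fin 3 → ℝ) (b : ℝ) (ha : a ≠ 0) :
    ¬ ∀ t ∈ T, ∑ i, a i * mc t i = b := by
  intro h
  let p : Polynomial ℝ := Polynomial.C (-b) + Polynomial.C (a 0) * Polynomial.X +
    Polynomial.C (a 1) * Polynomial.X ^ 2 + Polynomial.C (a 2) * Polynomial.X ^ 3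
  have hp : p ≠ 0 := by
    intro hp0
    apply ha
    have c0 : p.coeff 1 = a 0 := by
      simp [p, Polynomial.coeff_X, Polynomial.coeff_C]
    have c1 : p.coeff 2 = a 1 := by
      simp [p, Polynomial.coeff_X, Polynomial.coeff_C]
    have c2 : p.coeff 3 = a 2 := by
      simp [p, Polynomial.coeff_X, Polynomial.coeff_C]
    rw [hp0] at c0 c1 c2
    funext i
    fin_cases i
    · simpa using c0.symm
    · simpa using c1.symm
    · simpa using c2.symm
  have hdeg : p.natDegree ≤ 3 := by
    simp only [p]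
    compute_degree
  have hroots : T.val ⊆ p.roots := by
    intro t ht
    rw [Polynomial.mem_roots hp, Polynomial.IsRoot.def]
    have := h t ht
    simp only [Fin.sum_univ_three, mc, Matrix.cons_val_zero, Matrix.cons_val_one,
      Matrix.cons_val] at this
    simp only [p, Polynomial.eval_add, Polynomial.eval_mul, Polynomial.eval_C, Polynomial.eval_X,
      Polynomial.eval_pow]
    linarith
  have := Polynomial.card_le_degree_of_subset_roots hroots
  omega

theorem harmonic_dyadic (k : ℕ) : (harmonic (2 ^ k - 1) : ℝ) ≤ k := by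
  induction k with
  | zero => simp
  | succ k ih =>
    have h1 : 2 ^ (k + 1) - 1 = (2 ^ k - 1) + 2 ^ k := by
      have := Nat.one_le_two_pow (n := k)
      rw [pow_succ]; omega
    rw [h1]
    have h2 : ∀ j : ℕ, j ≤ 2 ^ k → (harmonic (2 ^ k - 1 + j) : ℝ) ≤
        (harmonic (2 ^ k - 1) : ℝ) + j * (1 / 2 ^ k) := by
      intro j
      induction j with
      | zero => intro _; simp
      | succ j ihj =>
        intro hj
        have := ihj (by omega)
        rw [← add_assoc, harmonic_succ]
        push_cast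
        have h3 : ((((2 ^ k - 1 : ℕ) : ℝ) + j + 1))⁻¹ ≤ 1 / 2 ^ k := by
          rw [inv_eq_one_div]
          apply one_div_le_one_div_of_le (by positivity)
          have : (((2 ^ k - 1 : ℕ) : ℝ)) = 2 ^ k - 1 := by
            rw [Nat.cast_sub Nat.one_le_two_pow]; push_cast; ring
          rw [this]
          have : (0 : ℝ) ≤ j := Nat.cast_nonneg j
          linarith
        have h4 : ((j : ℝ) + 1) * (1 / 2 ^ k) = j * (1 / 2 ^ k) + 1 / 2 ^ k := by ring
        rw [h4]
        linarith
    have h5 := h2 (2 ^ k) le_rfl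
    have h6 : (((2 ^ k : ℕ) : ℝ)) * (1 / 2 ^ k) = 1 := by
      push_cast
      field_simp
    rw [h6] at h5
    push_cast
    linarith

theorem pow_bound (m B : ℕ) (h1 : 2 * m + 1 ≤ 2 ^ 15) (h2 : 15 * B < m * m) :
    (2 * m + 1) ^ B < 2 ^ (m * m) :=
  calc (2 * m + 1) ^ B ≤ (2 ^ 15) ^ B := Nat.pow_le_pow_left h1 _
    _ = 2 ^ (15 * B) := by rw [← pow_mul]
    _ < 2 ^ (m * m) := Nat.pow_lt_pow_right (by norm_num) h2

theorem numeric : ∃ m B : ℕ, 7 * (2 * g m + 1) ≤ B ∧ 2 * m + 1 ≤ 2 ^ 15 ∧ 15 * B < m * m := by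
  refine ⟨2 ^ 13, 3096583, ?_, by norm_num, by norm_num⟩
  have h := harmonic_dyadic 13
  unfold g
  generalize (harmonic (2 ^ 13 - 1) : ℝ) = H at h ⊢
  push_cast at h ⊢
  linarith

theorem exists_bad' : ∃ (m : ℕ) (E : Fin m → Fin m → Bool), ∀ w : List (Letter m),
      (∀ u v : Letter m, u ≠ v → u.isLeft = v.isLeft → ¬ Meets w u v) →
      ¬ ∀ i j, (Meets w (Sum.inl i) (Sum.inr j) ↔ E i j = true) := by
  obtain ⟨m, B, h1, h2, h3⟩ := numeric
  obtain ⟨E, hE⟩ := exists_bad m B h1 (pow_bound m B h2 h3)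
  exact ⟨m, E, hE⟩

end Pool.Agent.Helper74.Tv
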