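import Mathlib

/-!
# Words and Davenport-Schinzel sequences of order 3
-/

open scoped List

namespace Pool.Agent.Helper74.Tv

variable {α : Type*} [DecidableEq α]

/-- no alternation of length five -/
def NoAlt5 (l : List α) : Prop := ∀ a b, a ≠ b → ¬ [a, b, a, b, a] <+ l

theorem NoAlt5.sublist {l l' : List α} (h : NoAlt5 l) (hs : l' <+ l) : NoAlt5 l' :=
  fun a b hab hc => h a b hab (hc.trans hs)

theorem chain_filter (x : α) : ∀ q : List α, q.IsChain (· ≠ ·) →
    (∀ y, ¬ [y, x, y] <:+: q) → (q.filter (· ≠ x)).IsChain (· ≠ ·)
  | [], _, _ => by simp
  | [a], _, _ => by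
      by_cases h : a = x <;> simp [h]
  | a :: b :: r, hc, hi => by
      have hab : a ≠ b := by simp at hc; exact hc.1
      have hc' : (b :: r).IsChain (· ≠ ·) := by
        rw [List.isChain_cons_cons] at hc; exact hc.2
      have hi' : ∀ y, ¬ [y, x, y] <:+: (b :: r) := fun y hy =>
        hi y (hy.trans (List.suffix_cons a (b :: r)).isInfix)
      have ih := chain_filter x (b :: r) hc' hi'
      by_cases hax : a = x
      · rw [List.filter_cons_of_neg (by simp [hax])]
        exact ih
      · rw [List.filter_cons_of_pos (by simp [hax])]
        by_cases hbx : b = x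
        · subst hbx
          rw [List.filter_cons_of_neg (by simp)] at ih ⊢
          cases r with
          | nil => simp
          | cons c r' =>
            have hbc : b ≠ c := by simp at hc'; exact hc'.1
            have hac : a ≠ c := by
              intro h
              subst h
              exact hi a ⟨[], r', by simp⟩
            rw [List.filter_cons_of_pos (by simp [Ne.symm hbc])] at ih ⊢
            rw [List.isChain_cons_cons]
            exact ⟨hac, ih⟩
        · rw [List.filter_cons_of_pos (by simp [hbx])] at ih ⊢
          rw [List.isChain_cons_cons]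
          exact ⟨hab, ih⟩

/-- joining two chains at the cost of at most one letter -/
theorem join_chain (a b : List α) (ha : a.IsChain (· ≠ ·)) (hb : b.IsChain (· ≠ ·)) :
    ∃ l, l <+ a ++ b ∧ l.IsChain (· ≠ ·) ∧ a.length + b.length ≤ l.length + 1 := by
  cases b with
  | nil => exact ⟨a, by simp, ha, by simp⟩
  | cons c r =>
    by_cases h : ∀ x ∈ a.getLast?, x ≠ c
    · refine ⟨a ++ c :: r, List.Sublist.refl _, ?_, by simp⟩
      rw [List.isChain_append]
      refine ⟨ha, hb, ?_⟩
      intro x hx y hy
      simp at hy
      subst hy
      exact h x hx
    · push Not at h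
      obtain ⟨x, hx, rfl⟩ := h
      refine ⟨a ++ r, ?_, ?_, by simp; omega⟩
      · exact List.Sublist.append (List.Sublist.refl a) (List.sublist_cons_self x r)
      · rw [List.isChain_append]
        refine ⟨ha, ?_, ?_⟩
        · exact hb.tail
        · intro y hy z hz
          have : y = x := by
            have h1 : a.getLast? = some x := hx
            have h2 : a.getLast? = some y := hy
            rw [h1] at h2
            exact (Option.some.inj h2).symm
          subst this
          cases r with
          | nil => simp at hz
          | cons w r' =>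
            simp at hz
            subst hz
            rw [List.isChain_cons_cons] at hb
            exact hb.1

theorem remove_letter (l : List α) (hc : l.IsChain (· ≠ ·)) (hn : NoAlt5 l) (x : α) (hx : x ∈ l) :
    ∃ l', l' <+ l ∧ l'.IsChain (· ≠ ·) ∧ x ∉ l' ∧
      l.length ≤ l'.length + 2 + l.count x := by
  obtain ⟨p, s, hp, rfl⟩ : ∃ p s, x ∉ p ∧ l = p ++ x :: s := by
    have := List.eq_append_cons_of_mem hx
    obtain ⟨p, s, h1, h2⟩ := this
    exact ⟨p, s, h2, h1⟩
  rw [List.isChain_append] at hc
  obtain ⟨hcp, hcs, -⟩ := hc
  by_cases hxs : x ∈ s
  · -- last occurrence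
    obtain ⟨q, t, ht, rfl⟩ : ∃ q t, x ∉ t ∧ s = q ++ x :: t := by
      have h1 : x ∈ s.reverse := by simpa using hxs
      obtain ⟨p1, s1, h1, h2⟩ := List.eq_append_cons_of_mem h1
      refine ⟨s1.reverse, p1.reverse, by simpa using h2, ?_⟩
      have := congrArg List.reverse h1
      simpa using this
    have hcs2 : (q ++ x :: t).IsChain (· ≠ ·) := hcs.tail
    rw [List.isChain_append] at hcs2
    obtain ⟨hcq, hct, -⟩ := hcs2
    have hq : ∀ y, ¬ [y, x, y] <:+: q := by
      intro y hy
      have hyx : y ≠ x := by
        obtain ⟨q1, q2, hq12⟩ := hy
        rw [← hq12] at hcq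
        have := (List.isChain_append.mp (List.isChain_append.mp hcq).1).2.1
        simp at this
        exact this.1
      refine hn x y (Ne.symm hyx) ?_
      obtain ⟨q1, q2, rfl⟩ := hy
      have : [x, y, x, y, x] = [] ++ ([x] ++ (([] ++ [y, x, y] ++ []) ++ ([x] ++ []))) := by simp
      rw [this]
      have e2 : p ++ x :: (q1 ++ [y, x, y] ++ q2 ++ x :: t) =
        p ++ ([x] ++ ((q1 ++ [y, x, y] ++ q2) ++ ([x] ++ t))) := by simp
      rw [e2]
      refine List.Sublist.append (List.nil_sublist _) (List.Sublist.append (List.Sublist.refl _)
        (List.Sublist.append ?_ (List.Sublist.append (List.Sublist.refl _) (List.nil_sublist _))))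
      exact List.Sublist.append (List.Sublist.append (List.nil_sublist _) (List.Sublist.refl _))
        (List.nil_sublist _)
    have hfq := chain_filter x q hcq hq
    obtain ⟨l1, h1s, h1c, h1l⟩ := join_chain (q.filter (· ≠ x)) t hfq hct.tail
    obtain ⟨l2, h2s, h2c, h2l⟩ := join_chain p l1 hcp h1c
    have hl1x : x ∉ l1 := by
      intro h
      have := h1s.subset h
      simp at this
      exact ht this
    refine ⟨l2, ?_, h2c, ?_, ?_⟩
    · refine h2s.trans (List.Sublist.append (List.Sublist.refl _) ?_)
      refine h1s.trans ?_
      refine List.Sublist.cons _ ?_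
      exact List.Sublist.append List.filter_sublist (List.sublist_cons_self _ _)
    · intro h
      have := h2s.subset h
      rw [List.mem_append] at this
      rcases this with h | h
      · exact hp h
      · exact hl1x h
    · have hcount : q.length = (q.filter (· ≠ x)).length + q.count x := by
        have := List.length_eq_length_filter_add (l := q) (fun y => decide (y ≠ x))
        rw [this]
        congr 1
        rw [List.count_eq_length_filter]
        congr 1
        apply List.filter_congr
        intro y _
        by_cases hy : y = x <;> simp [hy]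
      simp only [List.length_append, List.length_cons, List.count_append, List.count_cons_self]
      omega
  · obtain ⟨l2, h2s, h2c, h2l⟩ := join_chain p s hcp hcs.tail
    refine ⟨l2, ?_, h2c, ?_, ?_⟩
    · exact h2s.trans (List.Sublist.append (List.Sublist.refl _) (List.sublist_cons_self _ _))
    · intro h
      have := h2s.subset h
      rw [List.mem_append] at this
      rcases this with h | h
      · exact hp h
      · exact hxs h
    · simp only [List.length_append, List.length_cons, List.count_append, List.count_cons_self]
      omega

/-- the bound `n (1 + 2 H_{n-1})` -/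
noncomputable def g (n : ℕ) : ℝ := n * (1 + 2 * (harmonic (n - 1) : ℝ))

theorem exists_small_count (l : List α) (hl : l ≠ []) :
    ∃ x ∈ l, l.count x * l.toFinset.card ≤ l.length := by
  by_contra hcon
  push Not at hcon
  have h1 : ∑ x ∈ l.toFinset, l.count x = l.length := by
    simpa using (List.sum_toFinset_count_eq_length l)
  have hne : l.toFinset.Nonempty := by
    simpa using hl
  have h2 : ∑ x ∈ l.toFinset, (l.count x * l.toFinset.card) = l.length * l.toFinset.card := by
    rw [← Finset.sum_mul, h1]
  have h3 : ∑ x ∈ l.toFinset, l.length < ∑ x ∈ l.toFinset, (l.count x * l.toFinset.card) := by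
    apply Finset.sum_lt_sum_of_nonempty hne
    intro x hx
    exact hcon x (by simpa using hx)
  rw [h2] at h3
  simp at h3
  rw [mul_comm] at h3
  omega

theorem g_mono {n : ℕ} : g n ≤ g (n + 1) := by
  unfold g
  have h1 : (harmonic (n - 1) : ℝ) ≤ (harmonic n : ℝ) := by
    cases n with
    | zero => simp
    | succ k =>
      rw [Nat.add_sub_cancel, harmonic_succ]
      push_cast
      have : (0 : ℝ) ≤ ((k : ℝ) + 1)⁻¹ := by positivity
      linarith
  have h2 : (0 : ℝ) ≤ (harmonic (n - 1) : ℝ) := by
    cases n with
    | zero => simp
    | succ k =>
      rw [Nat.add_sub_cancel]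
      unfold harmonic
      push_cast
      positivity
  rw [Nat.add_sub_cancel]
  push_cast
  nlinarith [(Nat.cast_nonneg n : (0 : ℝ) ≤ n)]

/-- The Davenport-Schinzel bound. -/
theorem ds_bound : ∀ (n : ℕ) (l : List α), l.IsChain (· ≠ ·) → NoAlt5 l →
    l.toFinset.card ≤ n → (l.length : ℝ) ≤ g n := by
  intro n
  induction n with
  | zero =>
    intro l _ _ h
    have : l = [] := by
      simpa using h
    subst this
    simp [g]
  | succ n ih =>
    intro l hc hn h
    by_cases hlt : l.toFinset.card ≤ n
    · exact (ih l hc hn hlt).trans g_mono
    · have hcard : l.toFinset.card = n + 1 := by omega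
      have hne : l ≠ [] := by
        rintro rfl
        simp at hcard
      cases n with
      | zero =>
        -- one letter only
        obtain ⟨a, ha⟩ := Finset.card_eq_one.mp hcard
        have hlen : l.length ≤ 1 := by
          match l, hc, ha with
          | [], _, _ => simp
          | [_], _, _ => simp
          | b :: c :: r, hc, ha =>
            exfalso
            rw [List.isChain_cons_cons] at hc
            have hb : b ∈ (b :: c :: r).toFinset := by simp
            have hc' : c ∈ (b :: c :: r).toFinset := by simp
            rw [ha, Finset.mem_singleton] at hb hc'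
            exact hc.1 (hb.trans hc'.symm)
        have : g (0 + 1) = 1 := by simp [g]
        rw [this]
        exact_mod_cast hlen
      | succ k =>
        obtain ⟨x, hx, hxc⟩ := exists_small_count l hne
        obtain ⟨l', hs, hc', hx', hlen⟩ := remove_letter l hc hn x hx
        have hcard' : l'.toFinset.card ≤ k + 1 := by
          have hsub : l'.toFinset ⊆ l.toFinset.erase x := by
            intro y hy
            rw [List.mem_toFinset] at hy
            rw [Finset.mem_erase, List.mem_toFinset]
            refine ⟨?_, hs.subset hy⟩
            rintro rfl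
            exact hx' hy
          have := Finset.card_le_card hsub
          rw [Finset.card_erase_of_mem (by simpa using hx), hcard] at this
          simpa using this
        have hb := ih l' hc' (hn.sublist hs) hcard'
        rw [hcard] at hxc
        -- arithmetic
        have e1 : (l.count x : ℝ) * (k + 2) ≤ l.length := by
          have := hxc
          have h2 : ((l.count x * (k + 1 + 1) : ℕ) : ℝ) ≤ (l.length : ℝ) := by exact_mod_cast this
          push_cast at h2
          linarith
        have e2 : (l.length : ℝ) ≤ l'.length + 2 + l.count x := by exact_mod_cast hlen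
        unfold g at hb ⊢
        rw [Nat.add_sub_cancel] at hb ⊢
        rw [harmonic_succ]
        push_cast at hb ⊢
        set H : ℝ := (harmonic k : ℝ) with hH
        have hk : (0 : ℝ) < (k : ℝ) + 1 := by positivity
        -- length * (k+1) ≤ (k+2) * (g + 2)
        have e3 : (l.length : ℝ) * (k + 1) ≤ (k + 2) * (((k : ℝ) + 1) * (1 + 2 * H) + 2) := by
          have : (l.length : ℝ) * (k + 2) ≤ (l'.length + 2 + l.count x) * (k + 2) := by
            apply mul_le_mul_of_nonneg_right e2; positivity
          nlinarith
        have e4 : (l.length : ℝ) ≤ (k + 2) * (((k : ℝ) + 1) * (1 + 2 * H) + 2) / (k + 1) := by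
          rw [le_div_iff₀ hk]; exact e3
        refine e4.trans (le_of_eq ?_)
        field_simp
        ring

end Pool.Agent.Helper74.Tv
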