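import Mathlib

set_option autoImplicit false

/-!
# Real inequalities for the improved Zarankiewicz bound
-/

namespace Pool.Agent.Zar74

open Finset

theorem scal_up (k : ℕ) {a h : ℝ} (ha : 0 ≤ a) (hh : 0 ≤ h) :
    a ^ (k + 2) + (k + 2) * a ^ (k + 1) * h + h ^ (k + 2) ≤ (a + h) ^ (k + 2) := by
  induction k with
  | zero => apply le_of_eq; norm_num; ring
  | succ k ih =>
    have h1 : (a + h) ^ (k + 1 + 2) = (a + h) * (a + h) ^ (k + 2) := by ring
    rw [h1]
    have h2 : (a + h) * (a ^ (k + 2) + (k + 2) * a ^ (k + 1) * h + h ^ (k + 2)) ≤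
        (a + h) * (a + h) ^ (k + 2) := mul_le_mul_of_nonneg_left ih (by positivity)
    refine le_trans ?_ h2
    have h3 : 0 ≤ a * h ^ (k + 2) := by positivity
    have h4 : 0 ≤ ((k : ℝ) + 2) * a ^ (k + 1) * h ^ 2 := by positivity
    have h5 : (a + h) * (a ^ (k + 2) + (k + 2) * a ^ (k + 1) * h + h ^ (k + 2)) =
        a ^ (k + 1 + 2) + ((k : ℝ) + 1 + 2) * a ^ (k + 1 + 1) * h + h ^ (k + 1 + 2) +
        a * h ^ (k + 2) + ((k : ℝ) + 2) * a ^ (k + 1) * h ^ 2 := by ring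
    push_cast
    linarith

theorem scal_down (k : ℕ) {a h : ℝ} (hh : 0 ≤ h) (hah : h ≤ a) :
    a ^ (k + 2) - (k + 2) * a ^ (k + 1) * h + h ^ (k + 2) ≤ (a - h) ^ (k + 2) := by
  have ha : 0 ≤ a := hh.trans hah
  induction k with
  | zero => apply le_of_eq; norm_num; ring
  | succ k ih =>
    have h1 : (a - h) ^ (k + 1 + 2) = (a - h) * (a - h) ^ (k + 2) := by ring
    rw [h1]
    have h2 : (a - h) * (a ^ (k + 2) - (k + 2) * a ^ (k + 1) * h + h ^ (k + 2)) ≤
        (a - h) * (a - h) ^ (k + 2) := mul_le_mul_of_nonneg_left ih (by linarith)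
    refine le_trans ?_ h2
    have h3 : 0 ≤ (a - h) * h ^ (k + 2) := mul_nonneg (by linarith) (by positivity)
    have h4 : h ^ (k + 1) ≤ a ^ (k + 1) := pow_le_pow_left₀ hh hah _
    have h5 : h ^ (k + 1) * h ^ 2 ≤ a ^ (k + 1) * h ^ 2 :=
      mul_le_mul_of_nonneg_right h4 (by positivity)
    have h6 : 0 ≤ ((k : ℝ) + 1) * (a ^ (k + 1) * h ^ 2) := by positivity
    have h7 : (a - h) * (a ^ (k + 2) - (k + 2) * a ^ (k + 1) * h + h ^ (k + 2)) =
        a ^ (k + 1 + 2) - ((k : ℝ) + 1 + 2) * a ^ (k + 1 + 1) * h + h ^ (k + 1 + 2) +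
        (a - h) * h ^ (k + 2) + ((k : ℝ) + 1) * (a ^ (k + 1) * h ^ 2) +
        (a ^ (k + 1) * h ^ 2 - h ^ (k + 1) * h ^ 2) := by ring
    push_cast
    linarith

/-- uniform convexity of `z ^ t` -/
theorem scal (t : ℕ) (ht : 2 ≤ t) {z a : ℝ} (hz : 0 ≤ z) (ha : 0 ≤ a) :
    a ^ t + t * a ^ (t - 1) * (z - a) + |z - a| ^ t ≤ z ^ t := by
  obtain ⟨k, rfl⟩ : ∃ k, t = k + 2 := ⟨t - 2, by omega⟩
  have hk : k + 2 - 1 = k + 1 := by omega
  rw [hk]
  rcases le_total a z with h | h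
  · rw [abs_of_nonneg (by linarith)]
    have := scal_up k ha (h := z - a) (by linarith)
    push_cast
    have h2 : a + (z - a) = z := by ring
    rw [h2] at this
    exact this
  · rw [abs_of_nonpos (by linarith)]
    have := scal_down k (a := a) (h := a - z) (by linarith) (by linarith)
    push_cast
    have h2 : a - (a - z) = z := by ring
    rw [h2] at this
    have h3 : -(z - a) = a - z := by ring
    rw [h3]
    nlinarith [this]

theorem split_pow (t : ℕ) {ξ : ℝ} (hξ : 0 < ξ) :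
    ∃ K : ℝ, 0 ≤ K ∧ ∀ x y : ℝ, 0 ≤ x → 0 ≤ y → (x + y) ^ t ≤ (1 + ξ) * x ^ t + K * y ^ t := by
  have hcont : Filter.Tendsto (fun δ : ℝ => (1 + δ) ^ t) (nhds 0) (nhds ((1 + 0) ^ t)) :=
    ((continuous_const.add continuous_id).pow t).tendsto 0
  have hev : ∀ᶠ δ : ℝ in nhds 0, (1 + δ) ^ t < 1 + ξ := by
    apply hcont.eventually_lt_const
    simp [hξ]
  obtain ⟨r, hr, hball⟩ := Metric.eventually_nhds_iff.1 hev
  set δ := r / 2 with hδ
  have hδ0 : 0 < δ := by positivity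
  have hδ1 : (1 + δ) ^ t < 1 + ξ := by
    apply hball
    rw [Real.dist_eq, sub_zero, abs_of_pos hδ0]
    linarith
  refine ⟨(1 + 1 / δ) ^ t, by positivity, ?_⟩
  intro x y hx hy
  rcases le_total y (δ * x) with h | h
  · have h1 : (x + y) ^ t ≤ ((1 + δ) * x) ^ t :=
      pow_le_pow_left₀ (by positivity) (by linarith) _
    rw [mul_pow] at h1
    have h2 : (1 + δ) ^ t * x ^ t ≤ (1 + ξ) * x ^ t :=
      mul_le_mul_of_nonneg_right hδ1.le (by positivity)
    have h3 : 0 ≤ (1 + 1 / δ) ^ t * y ^ t := by positivity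
    linarith
  · have hxy : x ≤ (1 / δ) * y := by
      rw [one_div, ← div_eq_inv_mul, le_div_iff₀ hδ0]
      linarith
    have h1 : (x + y) ^ t ≤ ((1 + 1 / δ) * y) ^ t :=
      pow_le_pow_left₀ (by positivity) (by linarith) _
    rw [mul_pow] at h1
    have h3 : 0 ≤ (1 + ξ) * x ^ t := by positivity
    linarith

/-- power mean inequality -/
theorem pow_mean {ι : Type*} (s : Finset ι) (f : ι → ℝ) (hf : ∀ i ∈ s, 0 ≤ f i) (t : ℕ)
    (ht : 1 ≤ t) {n : ℝ} (hn : (s.card : ℝ) ≤ n) :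
    (∑ i ∈ s, f i) ^ t ≤ n ^ (t - 1) * ∑ i ∈ s, f i ^ t := by
  obtain ⟨k, rfl⟩ : ∃ k, t = k + 1 := ⟨t - 1, by omega⟩
  rcases s.eq_empty_or_nonempty with rfl | hs
  · simp
  · have hc : (0 : ℝ) < s.card := by exact_mod_cast Finset.card_pos.2 hs
    have := pow_sum_div_card_le_sum_pow (s := s) (f := f) (fun i hi => hf i hi) k
    rw [div_le_iff₀ (by positivity)] at this
    have hsum : 0 ≤ ∑ i ∈ s, f i ^ (k + 1) := Finset.sum_nonneg fun i hi => pow_nonneg (hf i hi) _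
    have hpow : (s.card : ℝ) ^ k ≤ n ^ k := pow_le_pow_left₀ hc.le hn _
    calc (∑ i ∈ s, f i) ^ (k + 1) ≤ (∑ i ∈ s, f i ^ (k + 1)) * (s.card : ℝ) ^ k := this
      _ ≤ (∑ i ∈ s, f i ^ (k + 1)) * n ^ k := mul_le_mul_of_nonneg_left hpow hsum
      _ = n ^ (k + 1 - 1) * ∑ i ∈ s, f i ^ (k + 1) := by simp [mul_comm]

theorem exists_theta (t : ℕ) {x : ℝ} (hx : 0 < x) :
    ∃ θ : ℝ, 0 < θ ∧ θ ≤ 1 / 2 ∧ 1 - x ≤ (1 - θ) ^ t := by
  refine ⟨min (1 / 2) (x / (t + 1)), by positivity, min_le_left _ _, ?_⟩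
  set θ := min (1 / 2) (x / ((t : ℝ) + 1)) with hθ
  have h1 : θ ≤ x / (t + 1) := min_le_right _ _
  have h2 : θ ≤ 1 / 2 := min_le_left _ _
  have h3 : 1 + (t : ℝ) * (-θ) ≤ (1 + -θ) ^ t := one_add_mul_le_pow (by linarith) t
  have h4 : (t : ℝ) * θ ≤ x := by
    have h5 : θ * (t + 1) ≤ x := by
      rwa [← le_div_iff₀ (by positivity)]
    have h6 : 0 ≤ θ := by rw [hθ]; positivity
    nlinarith
  have h7 : (1 : ℝ) + -θ = 1 - θ := by ring
  rw [h7] at h3
  linarith

/-- stability: if the extension inequality is almost tight then `h` is almost constant in the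
`t`-norm -/
theorem stab (t : ℕ) (ht : 2 ≤ t) {ξ : ℝ} (hξ : 0 < ξ) (hξ1 : ξ ≤ 1) :
    ∃ η : ℝ, 0 < η ∧ ∃ Cst : ℝ, 0 ≤ Cst ∧ ∃ D0 : ℝ, ∀ (V : Type) [Fintype V] (h : V → ℝ)
      (g : V → V → ℝ) (α b L : ℝ), 0 < α → 0 < Fintype.card V → D0 ≤ α * Fintype.card V →
      L ≤ (1 + η) * (Fintype.card V * α ^ t) → (∀ w, 0 ≤ h w) → (∀ w w', 0 ≤ g w w') →
      (∀ w w', g w w' = g w' w) → (∀ w, ∑ w', g w w' ≤ h w * (α * Fintype.card V)) →
      (∀ w, h w * (α * Fintype.card V - 2) - t * Fintype.card V ≤ ∑ w', g w w') →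
      (∀ w, ∑ w', g w w' ^ t ≤ L * h w ^ t) → ∑ w, h w ≤ b * (α * Fintype.card V) →
      ∑ w, h w ^ t ≤ (1 + ξ) * (Fintype.card V * α ^ t) * b ^ t +
        Cst * (Fintype.card V / α ^ t) := by
  obtain ⟨K, hK, hsplit⟩ := split_pow t (ξ := ξ / 4) (by positivity)
  set K2 : ℝ := K * 2 ^ t with hK2
  have hK2' : 0 ≤ K2 := by positivity
  set x : ℝ := ξ / (16 * (1 + K2)) with hx
  have hx0 : 0 < x := by positivity
  have hx1 : (1 + K2) * x = ξ / 16 := by
    rw [hx]; field_simp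
  obtain ⟨θ, hθ0, hθ1, hθ⟩ := exists_theta t hx0
  set c : ℝ := (1 - θ) ^ t with hc
  have hc1 : c ≤ 1 := pow_le_one₀ (by linarith) (by linarith)
  have hc0 : 0 ≤ c := by
    rw [hc]; exact pow_nonneg (by linarith) _
  set J : ℝ := (2 * t / θ) ^ t with hJ
  have hJ0 : 0 ≤ J := by positivity
  refine ⟨x, hx0, 2 * (1 + K2) * J, by positivity, 4 / θ, ?_⟩
  intro V _ h g α b L hα hV hD hL hh hg hsym hup hlow hpow hsum
  set n : ℝ := (Fintype.card V : ℝ) with hn
  have hn0 : 0 < n := by rw [hn]; exact_mod_cast hV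
  set a : V → ℝ := fun w => (∑ w', g w w') / n with ha
  have ha0 : ∀ w, 0 ≤ a w := fun w => div_nonneg (Finset.sum_nonneg fun w' _ => hg w w') hn0.le
  have hgsum : ∀ w, ∑ w', g w w' = n * a w := by
    intro w
    rw [ha]
    field_simp
  set A : ℝ := ∑ w, a w ^ t with hA
  set Q : ℝ := ∑ w, h w ^ t with hQ
  have hQ0 : 0 ≤ Q := Finset.sum_nonneg fun w _ => pow_nonneg (hh w) _
  -- (1)
  have e1 : ∑ w, ∑ w', |g w w' - a w| ^ t ≤ L * Q - n * A := by
    have h1 : ∀ w, n * a w ^ t + ∑ w', |g w w' - a w| ^ t ≤ L * h w ^ t := by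
      intro w
      refine le_trans ?_ (hpow w)
      have h2 : ∑ w' : V, (a w ^ t + t * a w ^ (t - 1) * (g w w' - a w) + |g w w' - a w| ^ t) ≤
          ∑ w', g w w' ^ t := Finset.sum_le_sum fun w' _ => scal t ht (hg w w') (ha0 w)
      rw [Finset.sum_add_distrib, Finset.sum_add_distrib, ← Finset.mul_sum,
        Finset.sum_sub_distrib, hgsum w] at h2
      simp only [Finset.sum_const, Finset.card_univ, nsmul_eq_mul] at h2
      rw [← hn] at h2
      linarith
    have h3 : ∑ w, (n * a w ^ t + ∑ w', |g w w' - a w| ^ t) ≤ ∑ w, L * h w ^ t :=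
      Finset.sum_le_sum fun w _ => h1 w
    rw [Finset.sum_add_distrib, ← Finset.mul_sum, ← Finset.mul_sum] at h3
    linarith
  -- (2)
  have e2 : ∑ w, ∑ w', |a w - a w'| ^ t ≤ 2 ^ t * ∑ w, ∑ w', |g w w' - a w| ^ t := by
    have h1 : ∀ w w', |a w - a w'| ^ t ≤
        2 ^ (t - 1) * (|g w w' - a w| ^ t + |g w' w - a w'| ^ t) := by
      intro w w'
      have h2 : |a w - a w'| ≤ |g w w' - a w| + |g w' w - a w'| := by
        have h3 : a w - a w' = -(g w w' - a w) + (g w' w - a w') := by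
          rw [hsym w' w]; ring
        rw [h3]
        refine (abs_add_le _ _).trans ?_
        rw [abs_neg]
      calc |a w - a w'| ^ t ≤ (|g w w' - a w| + |g w' w - a w'|) ^ t :=
            pow_le_pow_left₀ (abs_nonneg _) h2 _
        _ ≤ 2 ^ (t - 1) * (|g w w' - a w| ^ t + |g w' w - a w'| ^ t) :=
            add_pow_le (abs_nonneg _) (abs_nonneg _) t
    have h4 : ∑ w, ∑ w', |a w - a w'| ^ t ≤
        ∑ w, ∑ w', 2 ^ (t - 1) * (|g w w' - a w| ^ t + |g w' w - a w'| ^ t) :=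
      Finset.sum_le_sum fun w _ => Finset.sum_le_sum fun w' _ => h1 w w'
    refine h4.trans (le_of_eq ?_)
    simp_rw [← Finset.mul_sum, Finset.sum_add_distrib]
    have h5 : ∑ w, ∑ w', |g w' w - a w'| ^ t = ∑ w, ∑ w', |g w w' - a w| ^ t :=
      Finset.sum_comm
    rw [h5]
    have h6 : (2 : ℝ) ^ t = 2 * 2 ^ (t - 1) := by
      rw [← pow_succ']; congr 1; omega
    rw [h6]; ring
  -- (3)
  set m : ℝ := (∑ w, a w) / n with hm
  have hm0 : 0 ≤ m := div_nonneg (Finset.sum_nonneg fun w _ => ha0 w) hn0.le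
  have e3 : n * ∑ w, |a w - m| ^ t ≤ ∑ w, ∑ w', |a w - a w'| ^ t := by
    rw [Finset.mul_sum]
    refine Finset.sum_le_sum fun w _ => ?_
    have h1 : a w - m = (∑ w', (a w - a w')) / n := by
      rw [Finset.sum_sub_distrib, Finset.sum_const, Finset.card_univ, nsmul_eq_mul, ← hn, hm]
      field_simp
    have h2 : |a w - m| ≤ (∑ w', |a w - a w'|) / n := by
      rw [h1, abs_div, abs_of_pos hn0]
      exact div_le_div_of_nonneg_right (Finset.abs_sum_le_sum_abs _ _) hn0.le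
    have h3 := pow_mean (Finset.univ : Finset V) (fun w' => |a w - a w'|)
      (fun _ _ => abs_nonneg _) t (by omega) (n := n) (by rw [Finset.card_univ])
    have h4 : |a w - m| ^ t ≤ ((∑ w', |a w - a w'|) / n) ^ t :=
      pow_le_pow_left₀ (abs_nonneg _) h2 _
    rw [div_pow] at h4
    have h5 : n ^ t = n * n ^ (t - 1) := by
      rw [← pow_succ']; congr 1; omega
    calc n * |a w - m| ^ t ≤ n * ((∑ w', |a w - a w'|) ^ t / n ^ t) :=
          mul_le_mul_of_nonneg_left h4 hn0.le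
      _ ≤ n * ((n ^ (t - 1) * ∑ w', |a w - a w'| ^ t) / n ^ t) := by
          apply mul_le_mul_of_nonneg_left _ hn0.le
          exact div_le_div_of_nonneg_right h3 (by positivity)
      _ = ∑ w', |a w - a w'| ^ t := by
          rw [h5]; field_simp
  -- (4)
  have e4 : A ≤ (1 + ξ / 4) * (n * m ^ t) + K * ∑ w, |a w - m| ^ t := by
    have h1 : ∀ w, a w ^ t ≤ (1 + ξ / 4) * m ^ t + K * |a w - m| ^ t := by
      intro w
      refine le_trans ?_ (hsplit m |a w - m| hm0 (abs_nonneg _))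
      apply pow_le_pow_left₀ (ha0 w)
      have := le_abs_self (a w - m)
      linarith
    have h2 : A ≤ ∑ w : V, ((1 + ξ / 4) * m ^ t + K * |a w - m| ^ t) :=
      Finset.sum_le_sum fun w _ => h1 w
    rw [Finset.sum_add_distrib, Finset.sum_const, Finset.card_univ, nsmul_eq_mul, ← hn,
      ← Finset.mul_sum] at h2
    linarith
  -- combine
  have e5 : K * ∑ w, |a w - m| ^ t ≤ K2 * (L * Q / n - A) := by
    have h1 : n * ∑ w, |a w - m| ^ t ≤ 2 ^ t * (L * Q - n * A) :=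
      e3.trans (e2.trans (mul_le_mul_of_nonneg_left e1 (by positivity)))
    have h2 : ∑ w, |a w - m| ^ t ≤ 2 ^ t * (L * Q / n - A) := by
      have h3 : 2 ^ t * (L * Q - n * A) = n * (2 ^ t * (L * Q / n - A)) := by field_simp
      rw [h3] at h1
      exact le_of_mul_le_mul_left h1 hn0
    calc K * ∑ w, |a w - m| ^ t ≤ K * (2 ^ t * (L * Q / n - A)) :=
          mul_le_mul_of_nonneg_left h2 hK
      _ = K2 * (L * Q / n - A) := by rw [hK2]; ring
  -- bounds for m and A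
  have e6 : n * m ^ t ≤ n * (b * α ^ 2) ^ t := by
    apply mul_le_mul_of_nonneg_left _ hn0.le
    apply pow_le_pow_left₀ hm0
    rw [hm, div_le_iff₀ hn0]
    calc ∑ w, a w ≤ ∑ w, α * h w := by
          refine Finset.sum_le_sum fun w _ => ?_
          rw [ha]
          simp only
          rw [div_le_iff₀ hn0]
          calc ∑ w', g w w' ≤ h w * (α * n) := hup w
            _ = α * h w * n := by ring
      _ = α * ∑ w, h w := by rw [Finset.mul_sum]
      _ ≤ α * (b * (α * n)) := mul_le_mul_of_nonneg_left hsum hα.le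
      _ = b * α ^ 2 * n := by ring
  set Y : ℝ := α ^ t * Q with hY
  have e7 : c * Y - n * J ≤ A := by
    have h1 : ∀ w, c * (α ^ t * h w ^ t) - J ≤ a w ^ t := by
      intro w
      have hal : α * h w * (1 - θ / 2) - t ≤ a w := by
        rw [ha]
        simp only
        rw [le_div_iff₀ hn0]
        refine le_trans ?_ (hlow w)
        have h2 : 4 ≤ α * n * θ := by
          rw [div_le_iff₀ hθ0] at hD
          exact hD
        have h3 : 0 ≤ h w := hh w
        nlinarith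
      rcases le_total (t : ℝ) (α * h w * (θ / 2)) with h2 | h2
      · have h3 : (1 - θ) * (α * h w) ≤ a w := by nlinarith
        have h4 : 0 ≤ (1 - θ) * (α * h w) :=
          mul_nonneg (by linarith) (mul_nonneg hα.le (hh w))
        have h5 : ((1 - θ) * (α * h w)) ^ t ≤ a w ^ t := pow_le_pow_left₀ h4 h3 _
        rw [mul_pow, mul_pow] at h5
        rw [← hc] at h5
        linarith
      · have h3 : α * h w ≤ 2 * t / θ := by
          rw [le_div_iff₀ hθ0]
          nlinarith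
        have h4 : (α * h w) ^ t ≤ J := pow_le_pow_left₀ (mul_nonneg hα.le (hh w)) h3 _
        rw [mul_pow] at h4
        have h5 : 0 ≤ α ^ t * h w ^ t := mul_nonneg (by positivity) (pow_nonneg (hh w) _)
        have h6 : c * (α ^ t * h w ^ t) ≤ 1 * (α ^ t * h w ^ t) :=
          mul_le_mul_of_nonneg_right hc1 h5
        have h7 : 0 ≤ a w ^ t := pow_nonneg (ha0 w) _
        linarith
    have h2 : ∑ w : V, (c * (α ^ t * h w ^ t) - J) ≤ A := Finset.sum_le_sum fun w _ => h1 w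
    rw [Finset.sum_sub_distrib, ← Finset.mul_sum, ← Finset.mul_sum, Finset.sum_const,
      Finset.card_univ, nsmul_eq_mul, ← hn] at h2
    exact h2
  have hαt : 0 < α ^ t := by positivity
  have e8 : L * Q / n ≤ (1 + x) * Y := by
    rw [div_le_iff₀ hn0]
    calc L * Q ≤ ((1 + x) * (n * α ^ t)) * Q := mul_le_mul_of_nonneg_right hL hQ0
      _ = (1 + x) * Y * n := by rw [hY]; ring
  have hY0 : 0 ≤ Y := by positivity
  have e9 : (1 + K2) * (c * Y - n * J) ≤
      (1 + ξ / 4) * (n * (b * α ^ 2) ^ t) + K2 * ((1 + x) * Y) := by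
    have h1 : (1 + K2) * (c * Y - n * J) ≤ (1 + K2) * A :=
      mul_le_mul_of_nonneg_left e7 (by positivity)
    have h2 : (1 + ξ / 4) * (n * m ^ t) ≤ (1 + ξ / 4) * (n * (b * α ^ 2) ^ t) :=
      mul_le_mul_of_nonneg_left e6 (by positivity)
    have h3 : K2 * (L * Q / n - A) ≤ K2 * ((1 + x) * Y - A) :=
      mul_le_mul_of_nonneg_left (by linarith) hK2'
    linarith
  have e10 : Y * (1 - ξ / 8) ≤ (1 + ξ / 4) * (n * (b * α ^ 2) ^ t) + (1 + K2) * n * J := by
    have h1 : (1 + K2) * (1 - x) * Y ≤ (1 + K2) * c * Y := by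
      apply mul_le_mul_of_nonneg_right _ hY0
      exact mul_le_mul_of_nonneg_left hθ (by positivity)
    have h2 : K2 * x * Y ≤ (1 + K2) * x * Y := by
      apply mul_le_mul_of_nonneg_right _ hY0
      exact mul_le_mul_of_nonneg_right (by linarith) hx0.le
    rw [hx1] at h2
    have h3 : (1 + K2) * (1 - x) * Y = (1 + K2) * Y - ξ / 16 * Y := by
      rw [← hx1]; ring
    nlinarith
  have e11 : Y ≤ (1 + ξ) * (n * (b * α ^ 2) ^ t) + 2 * (1 + K2) * n * J := by
    by_cases hneg : 0 ≤ (b * α ^ 2) ^ t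
    · have h1 : 0 ≤ n * (b * α ^ 2) ^ t := by positivity
      have h2 : (1 + ξ / 4) * (n * (b * α ^ 2) ^ t) ≤
          (1 - ξ / 8) * ((1 + ξ) * (n * (b * α ^ 2) ^ t)) := by
        have h2' : 1 + ξ / 4 ≤ (1 - ξ / 8) * (1 + ξ) := by nlinarith
        calc (1 + ξ / 4) * (n * (b * α ^ 2) ^ t)
            ≤ ((1 - ξ / 8) * (1 + ξ)) * (n * (b * α ^ 2) ^ t) :=
              mul_le_mul_of_nonneg_right h2' h1
          _ = (1 - ξ / 8) * ((1 + ξ) * (n * (b * α ^ 2) ^ t)) := by ring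
      have h3 : (1 + K2) * n * J ≤ (1 - ξ / 8) * (2 * (1 + K2) * n * J) := by
        have h4 : 0 ≤ (1 + K2) * n * J := by positivity
        nlinarith
      have h5 : (1 - ξ / 8) * Y ≤
          (1 - ξ / 8) * ((1 + ξ) * (n * (b * α ^ 2) ^ t) + 2 * (1 + K2) * n * J) := by
        linarith
      exact le_of_mul_le_mul_left h5 (by linarith)
    · exfalso
      have hb : 0 ≤ b := by
        by_contra hb
        push Not at hb
        have h1 : b * (α * n) < 0 := mul_neg_of_neg_of_pos hb (by positivity)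
        have h2 : 0 ≤ ∑ w, h w := Finset.sum_nonneg fun w _ => hh w
        linarith
      exact hneg (by positivity)
  have e12 : Q = Y / α ^ t := by rw [hY]; field_simp
  rw [e12, div_le_iff₀ hαt]
  refine e11.trans (le_of_eq ?_)
  have h1 : (b * α ^ 2) ^ t = b ^ t * α ^ t * α ^ t := by
    rw [mul_pow, ← pow_mul, mul_comm 2 t, pow_mul]; ring
  rw [h1]
  field_simp

end Pool.Agent.Zar74
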