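import Pool.Agent.Helper74.ZarCount

set_option autoImplicit false

/-!
# The combinatorial core of the improved Zarankiewicz bound
-/

namespace Pool.Agent.Zar74

open Finset

variable {Y V : Type} [DecidableEq Y] [Fintype V] [DecidableEq V]

theorem low_pow (t : ℕ) {θ α x a : ℝ} (hθ0 : 0 < θ) (hθ1 : θ ≤ 1 / 2) (hα : 0 ≤ α) (hx : 0 ≤ x)
    (ha : 0 ≤ a) (h : α * x * (1 - θ / 2) - t ≤ a) :
    (1 - θ) ^ t * (α ^ t * x ^ t) - (2 * t / θ) ^ t ≤ a ^ t := by
  have hc1 : (1 - θ) ^ t ≤ 1 := pow_le_one₀ (by linarith) (by linarith)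
  rcases le_total (t : ℝ) (α * x * (θ / 2)) with h2 | h2
  · have h3 : (1 - θ) * (α * x) ≤ a := by nlinarith
    have h4 : 0 ≤ (1 - θ) * (α * x) := mul_nonneg (by linarith) (mul_nonneg hα hx)
    have h5 : ((1 - θ) * (α * x)) ^ t ≤ a ^ t := pow_le_pow_left₀ h4 h3 _
    rw [mul_pow, mul_pow] at h5
    have h6 : 0 ≤ (2 * (t : ℝ) / θ) ^ t := by positivity
    linarith
  · have h3 : α * x ≤ 2 * t / θ := by
      rw [le_div_iff₀ hθ0]
      nlinarith
    have h4 : (α * x) ^ t ≤ (2 * t / θ) ^ t := pow_le_pow_left₀ (mul_nonneg hα hx) h3 _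
    rw [mul_pow] at h4
    have h5 : 0 ≤ α ^ t * x ^ t := mul_nonneg (by positivity) (pow_nonneg hx _)
    have h6 : (1 - θ) ^ t * (α ^ t * x ^ t) ≤ 1 * (α ^ t * x ^ t) :=
      mul_le_mul_of_nonneg_right hc1 h5
    have h7 : 0 ≤ a ^ t := pow_nonneg ha _
    linarith

theorem final_num {B μ c ξ : ℝ} (hB : 5 ≤ B) (hξ : ξ * B ^ 2 = 1 / 100) (hξ0 : 0 < ξ)
    (hc1 : 1 - ξ ≤ c) (hc2 : c ≤ 1) (hμ2 : μ ≤ B - 2) (hμ1 : (1 - 2 * ξ) * (B - 2) ≤ μ) :
    3 ≤ 2 * B * c - (B - c * μ) * ((1 + ξ) * μ) ∧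
      2 * B + 1 ≤ (2 * B * c - (B - c * μ) * ((1 + ξ) * μ)) * μ := by
  have hξB : ξ * B ≤ 1 / 500 := by nlinarith
  have hξ1 : ξ ≤ 1 / 2500 := by nlinarith
  have hμ0 : 2 ≤ μ := by nlinarith
  have hcμ : B - 2 - 3 * (ξ * B) ≤ c * μ := by
    have h1 : (1 - ξ) * μ ≤ c * μ := mul_le_mul_of_nonneg_right hc1 (by linarith)
    have h2 : (1 - ξ) * ((1 - 2 * ξ) * (B - 2)) ≤ (1 - ξ) * μ :=
      mul_le_mul_of_nonneg_left hμ1 (by linarith)
    nlinarith [mul_pos hξ0 hξ0, mul_nonneg (mul_nonneg hξ0.le hξ0.le) (by linarith : (0:ℝ) ≤ B - 2)]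
  have h3 : B - c * μ ≤ 2 + 3 * (ξ * B) := by linarith
  have h4 : (1 + ξ) * μ ≤ B - 2 + ξ * B := by nlinarith
  have h5 : (B - c * μ) * ((1 + ξ) * μ) ≤ (2 + 3 * (ξ * B)) * (B - 2 + ξ * B) :=
    mul_le_mul h3 h4 (by positivity) (by positivity)
  have h6 : (2 + 3 * (ξ * B)) * (B - 2 + ξ * B) ≤ 2 * (B - 2) + 4 / 100 := by
    have h7 : (2 + 3 * (ξ * B)) * (B - 2 + ξ * B) =
        2 * (B - 2) + 2 * (ξ * B) + 3 * (ξ * B ^ 2) - 6 * (ξ * B) + 3 * (ξ * B) * (ξ * B) := by ring
    have h8 : (ξ * B) * (ξ * B) ≤ 1 / 500 * (1 / 500) :=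
      mul_le_mul hξB hξB (by positivity) (by norm_num)
    have h9 : 0 ≤ ξ * B := by positivity
    rw [h7, hξ]
    linarith
  have h10 : 2 * B - 2 * (ξ * B) ≤ 2 * B * c := by nlinarith
  have h11 : (39 : ℝ) / 10 ≤ 2 * B * c - (B - c * μ) * ((1 + ξ) * μ) := by linarith
  refine ⟨by linarith, ?_⟩
  have h12 : (39 : ℝ) / 10 * μ ≤ (2 * B * c - (B - c * μ) * ((1 + ξ) * μ)) * μ :=
    mul_le_mul_of_nonneg_right h11 (by linarith)
  have h13 : (B - 2) - 2 * (ξ * B) ≤ μ := by nlinarith
  linarith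

/-- the combinatorial core -/
theorem core (t B : ℕ) (ht : 2 ≤ t) (hB : 5 ≤ B) :
    ∃ η : ℝ, 0 < η ∧ η ≤ 1 / 4 ∧ ∃ Cst : ℝ, 0 ≤ Cst ∧ ∃ D0 : ℝ, ∀ (Y V : Type) [DecidableEq Y]
      [Fintype V] [DecidableEq V] (U : Finset Y) (N : Y → Finset V) (D : ℕ), 0 < Fintype.card V →
      D0 ≤ D → (1 - 2 * η) * ((B : ℝ) - 2) * (Fintype.card V : ℝ) ^ (t - 1) ≤ (D : ℝ) ^ t →
      (D : ℝ) ^ t ≤ ((B : ℝ) - 2) * (Fintype.card V : ℝ) ^ (t - 1) →
      (∀ y ∈ U, (N y).card = D) → (∀ T ∈ powersetCard t U, (com N T).card ≤ B) →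
      (U.card : ℝ) ^ t ≤ Cst * (Fintype.card V : ℝ) ^ 3 := by
  have hBr : (5 : ℝ) ≤ B := by exact_mod_cast hB
  set ξ : ℝ := 1 / (100 * (B : ℝ) ^ 2) with hξdef
  have hξ0 : 0 < ξ := by positivity
  have hξB : ξ * (B : ℝ) ^ 2 = 1 / 100 := by
    rw [hξdef]; field_simp
  have hξ1 : ξ ≤ 1 / 4 := by nlinarith
  obtain ⟨ηs, hηs, Cs, hCs, D0s, hstab⟩ := stab t ht hξ0 (by linarith)
  obtain ⟨θ, hθ0, hθ1, hθ⟩ := exists_theta t hξ0
  set c : ℝ := (1 - θ) ^ t with hc
  have hc1 : c ≤ 1 := pow_le_one₀ (by linarith) (by linarith)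
  have hc0 : 0 ≤ c := by
    rw [hc]; exact pow_nonneg (by linarith) _
  set J : ℝ := (2 * t / θ) ^ t with hJ
  have hJ0 : 0 ≤ J := by positivity
  set η : ℝ := min (min ηs 1) ξ / 4 with hη
  have hη0 : 0 < η := by positivity
  have hη1 : 4 * η ≤ ξ := by
    have := min_le_right (min ηs 1) ξ
    rw [hη]; linarith
  have hη2 : 4 * η ≤ ηs := by
    have h1 := min_le_left (min ηs 1) ξ
    have h2 := min_le_left ηs 1
    rw [hη]; linarith
  have hη3 : 4 * η ≤ 1 := by linarith
  refine ⟨η, hη0, by linarith, J + 2 * B * J + B * Cs, by positivity, max D0s (4 / θ), ?_⟩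
  intro Y V _ _ _ U N D hV hD0 hlow hupp hdeg hcom
  set n : ℝ := (Fintype.card V : ℝ) with hn
  have hn1 : (1 : ℝ) ≤ n := by rw [hn]; exact_mod_cast hV
  have hn0 : 0 < n := by linarith
  have hD4 : 4 / θ ≤ D := (le_max_right _ _).trans hD0
  have hDs : D0s ≤ D := (le_max_left _ _).trans hD0
  have hDpos : (0 : ℝ) < D := lt_of_lt_of_le (by positivity) hD4
  set α : ℝ := D / n with hα
  have hα0 : 0 < α := by positivity
  have hαn : α * n = D := by rw [hα]; field_simp
  set μ : ℝ := n * α ^ t with hμ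
  have hμn : μ * n ^ (t - 1) = (D : ℝ) ^ t := by
    rw [hμ, hα, div_pow]
    have : n ^ t = n * n ^ (t - 1) := by rw [← pow_succ']; congr 1; omega
    rw [this]; field_simp
  have hnt : 0 < n ^ (t - 1) := by positivity
  have hμ1 : (1 - 2 * η) * ((B : ℝ) - 2) ≤ μ := by
    rw [← hμn] at hlow
    exact le_of_mul_le_mul_right hlow hnt
  have hμ2 : μ ≤ (B : ℝ) - 2 := by
    rw [← hμn] at hupp
    exact le_of_mul_le_mul_right hupp hnt
  have hμ1' : (1 - 2 * ξ) * ((B : ℝ) - 2) ≤ μ := by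
    refine le_trans ?_ hμ1
    apply mul_le_mul_of_nonneg_right _ (by linarith)
    linarith
  have hμge : 1 ≤ μ := by nlinarith
  have hL : (B : ℝ) - 2 ≤ (1 + ηs) * (n * α ^ t) := by
    rw [← hμ]
    have h1 : (B : ℝ) - 2 ≤ (1 + 4 * η) * μ := by
      have h2 : (1 + 4 * η) * ((1 - 2 * η) * ((B : ℝ) - 2)) ≤ (1 + 4 * η) * μ :=
        mul_le_mul_of_nonneg_left hμ1 (by linarith)
      have h3 : 1 ≤ (1 + 4 * η) * (1 - 2 * η) := by nlinarith
      have h4 : 1 * ((B : ℝ) - 2) ≤ ((1 + 4 * η) * (1 - 2 * η)) * ((B : ℝ) - 2) :=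
        mul_le_mul_of_nonneg_right h3 (by linarith)
      linarith
    have h2 : (1 + 4 * η) * μ ≤ (1 + ηs) * μ := by
      apply mul_le_mul_of_nonneg_right _ (by linarith)
      linarith
    linarith
  -- codegree functions
  set F1 : V → ℝ := fun w => ((sec N U w).card : ℝ) with hF1
  set F2 : V → V → ℝ := fun w w' => ((sec N (sec N U w) w').card : ℝ) with hF2
  set F3 : V → V → V → ℝ := fun w w' w'' => ((sec N (sec N (sec N U w) w') w'').card : ℝ) with hF3
  have hF10 : ∀ w, 0 ≤ F1 w := fun w => Nat.cast_nonneg _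
  have hF20 : ∀ w w', 0 ≤ F2 w w' := fun w w' => Nat.cast_nonneg _
  have hF30 : ∀ w w' w'', 0 ≤ F3 w w' w'' := fun w w' w'' => Nat.cast_nonneg _
  have hsum1 : ∑ w, F1 w = U.card * D := sum_sec N U hdeg
  have hsum2 : ∀ w, ∑ w', F2 w w' = F1 w * D := fun w =>
    sum_sec N (sec N U w) (fun y hy => hdeg y (mem_sec.1 hy).1)
  have hsum3 : ∀ w w', ∑ w'', F3 w w' w'' = F2 w w' * D := fun w w' =>
    sum_sec N (sec N (sec N U w) w') (fun y hy => hdeg y (mem_sec.1 (mem_sec.1 hy).1).1)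
  -- triple sums
  have hlow3 : ∀ w w', w' ≠ w → F2 w w' * (D - 2) - t * n ≤
      ∑ w'' ∈ (Finset.univ.erase w).erase w', max 0 (F3 w w' w'' - t) := by
    intro w w' hww
    have h1 : ∑ w'' ∈ (Finset.univ.erase w).erase w', (F3 w w' w'' - t) ≤
        ∑ w'' ∈ (Finset.univ.erase w).erase w', max 0 (F3 w w' w'' - t) :=
      Finset.sum_le_sum fun _ _ => le_max_right _ _
    refine le_trans ?_ h1
    rw [Finset.sum_sub_distrib, Finset.sum_const, nsmul_eq_mul]
    have h2 : ∑ w'' ∈ (Finset.univ.erase w).erase w', F3 w w' w'' = F2 w w' * D - F2 w w' - F2 w w' := by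
      have h3 := Finset.add_sum_erase (Finset.univ.erase w) (F3 w w') (Finset.mem_erase.2 ⟨hww, Finset.mem_univ _⟩)
      have h4 := Finset.add_sum_erase Finset.univ (F3 w w') (Finset.mem_univ w)
      rw [hsum3] at h4
      have h5 : F3 w w' w' = F2 w w' := by
        simp only [hF3, hF2]; rw [sec_self]
      have h6 : F3 w w' w = F2 w w' := by
        simp only [hF3, hF2]; rw [sec_comm N (sec N U w) w' w, sec_self]
      rw [h5] at h3
      rw [h6] at h4
      linarith
    rw [h2]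
    have h7 : ((((Finset.univ.erase w).erase w').card : ℕ) : ℝ) ≤ n := by
      rw [hn]
      exact_mod_cast (Finset.card_le_univ _)
    nlinarith [mul_le_mul_of_nonneg_right h7 (Nat.cast_nonneg t (α := ℝ))]
  have hup3 : ∀ w w', w' ≠ w →
      ∑ w'' ∈ (Finset.univ.erase w).erase w', (max 0 (F3 w w' w'' - t)) ^ t ≤
      ((B : ℝ) - 2) * F2 w w' ^ t := by
    intro w w' hww
    have h1 : ∑ w'' ∈ (Finset.univ.erase w).erase w', (max 0 (F3 w w' w'' - t)) ^ t ≤
        ∑ w'' ∈ (Finset.univ.erase w).erase w', (t.factorial : ℝ) *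
          (((sec N (sec N (sec N U w) w') w'').card.choose t : ℕ) : ℝ) :=
      Finset.sum_le_sum fun w'' _ => choose_low _ t
    rw [← Finset.mul_sum, inner3 N U t hww] at h1
    have h2 : ∑ T ∈ powersetCard t (sec N (sec N U w) w'), (((com N T).card : ℝ) - 2) ≤
        ∑ T ∈ powersetCard t (sec N (sec N U w) w'), ((B : ℝ) - 2) := by
      apply Finset.sum_le_sum
      intro T hT
      have hT' := mem_powersetCard.1 hT
      have : (com N T).card ≤ B := hcom T (mem_powersetCard.2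
        ⟨fun y hy => (mem_sec.1 (mem_sec.1 (hT'.1 hy)).1).1, hT'.2⟩)
      have : ((com N T).card : ℝ) ≤ B := by exact_mod_cast this
      linarith
    rw [Finset.sum_const, nsmul_eq_mul, Finset.card_powersetCard] at h2
    have h3 := mul_le_mul_of_nonneg_left h2 (Nat.cast_nonneg t.factorial (α := ℝ))
    have h4 := choose_up (sec N (sec N U w) w').card t
    have h5 : (t.factorial : ℝ) * (((sec N (sec N U w) w').card.choose t : ℕ) * ((B : ℝ) - 2)) ≤
        ((B : ℝ) - 2) * F2 w w' ^ t := by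
      calc (t.factorial : ℝ) * (((sec N (sec N U w) w').card.choose t : ℕ) * ((B : ℝ) - 2))
          = ((B : ℝ) - 2) * ((t.factorial : ℝ) * ((sec N (sec N U w) w').card.choose t : ℕ)) := by
            ring
        _ ≤ ((B : ℝ) - 2) * F2 w w' ^ t := mul_le_mul_of_nonneg_left h4 (by linarith)
    exact h1.trans (h3.trans h5)
  -- stability for each w
  have hstabw : ∀ w, ∑ w' ∈ Finset.univ.erase w, F2 w w' ^ t ≤
      (1 + ξ) * μ * F1 w ^ t + Cs * (n / α ^ t) := by
    intro w
    have hmain := hstab V (fun w' => if w' = w then 0 else F2 w w')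
      (fun w' w'' => if w' = w ∨ w'' = w ∨ w' = w'' then 0 else max 0 (F3 w w' w'' - t))
      α (F1 w) ((B : ℝ) - 2) hα0 hV (by rw [← hn, hαn]; exact hDs) hL
      (by intro w'; split_ifs; exacts [le_rfl, hF20 _ _])
      (by intro w' w''; split_ifs; exacts [le_rfl, le_max_left _ _])
      (by
        intro w' w''
        by_cases h : w' = w ∨ w'' = w ∨ w' = w''
        · rw [if_pos h, if_pos (by tauto)]
        · rw [if_neg h, if_neg (by tauto)]
          simp only [hF3]
          rw [sec_comm N (sec N U w) w' w''])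
      (by
        intro w'
        rw [← hn, hαn]
        by_cases h : w' = w
        · simp [h]
        · rw [if_neg h, ← hsum3 w w']
          apply Finset.sum_le_sum
          intro w'' _
          split_ifs
          · exact hF30 _ _ _
          · exact max_le (hF30 _ _ _) (by linarith [Nat.cast_nonneg t (α := ℝ)]))
      (by
        intro w'
        rw [← hn, hαn]
        by_cases h : w' = w
        · simp only [h, if_true, true_or, Finset.sum_const_zero, zero_mul, zero_sub]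
          have : 0 ≤ (t : ℝ) * n := by positivity
          linarith
        · rw [if_neg h]
          refine (hlow3 w w' h).trans ?_
          have h1 : ∑ w'' ∈ (Finset.univ.erase w).erase w', max 0 (F3 w w' w'' - t) =
              ∑ w'' ∈ (Finset.univ.erase w).erase w',
                (if w' = w ∨ w'' = w ∨ w' = w'' then 0 else max 0 (F3 w w' w'' - t)) := by
            apply Finset.sum_congr rfl
            intro w'' hw''
            rw [Finset.mem_erase, Finset.mem_erase] at hw''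
            rw [if_neg]
            rintro (h1 | h1 | h1)
            · exact h h1
            · exact hw''.2.1 h1
            · exact hw''.1 h1.symm
          rw [h1]
          apply Finset.sum_le_sum_of_subset_of_nonneg (Finset.subset_univ _)
          intro w'' _ _
          split_ifs
          · exact le_rfl
          · exact le_max_left _ _)
      (by
        intro w'
        by_cases h : w' = w
        · simp [h, show t ≠ 0 by omega]
        · rw [if_neg h]
          refine le_trans (le_of_eq ?_) (hup3 w w' h)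
          have h2 : ∀ w'' ∉ (Finset.univ.erase w).erase w',
              (if w' = w ∨ w'' = w ∨ w' = w'' then 0 else max 0 (F3 w w' w'' - t)) ^ t = 0 := by
            intro w'' hw''
            rw [if_pos, zero_pow (by omega)]
            by_contra hcon
            push Not at hcon
            exact hw'' (Finset.mem_erase.2 ⟨Ne.symm hcon.2.2,
              Finset.mem_erase.2 ⟨hcon.2.1, Finset.mem_univ _⟩⟩)
          rw [← Finset.sum_subset (Finset.subset_univ ((Finset.univ.erase w).erase w'))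
            (fun w'' _ hw'' => h2 w'' hw'')]
          apply Finset.sum_congr rfl
          intro w'' hw''
          rw [Finset.mem_erase, Finset.mem_erase] at hw''
          rw [if_neg]
          rintro (h1 | h1 | h1)
          · exact h h1
          · exact hw''.2.1 h1
          · exact hw''.1 h1.symm)
      (by
        rw [← hn, hαn, ← hsum2 w]
        apply Finset.sum_le_sum
        intro w' _
        split_ifs
        · exact hF20 _ _
        · exact le_rfl)
    rw [← hn, ← hμ] at hmain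
    refine le_trans (le_of_eq ?_) hmain
    rw [← Finset.add_sum_erase Finset.univ _ (Finset.mem_univ w)]
    rw [if_pos rfl, zero_pow (by omega), zero_add]
    apply Finset.sum_congr rfl
    intro w' hw'
    rw [if_neg (Finset.mem_erase.1 hw').1]
  set P1 : ℝ := ∑ w, F1 w ^ t with hP1
  set P2 : ℝ := ∑ w, ∑ w' ∈ Finset.univ.erase w, F2 w w' ^ t with hP2
  set S1 : ℝ := ∑ w, (((sec N U w).card.choose t : ℕ) : ℝ) with hS1
  set S2 : ℝ := ∑ w, ∑ w' ∈ Finset.univ.erase w, (((sec N (sec N U w) w').card.choose t : ℕ) : ℝ)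
    with hS2
  set S3 : ℝ := ∑ w, ∑ w' ∈ Finset.univ.erase w, ∑ w'' ∈ (Finset.univ.erase w).erase w',
      (((sec N (sec N (sec N U w) w') w'').card.choose t : ℕ) : ℝ) with hS3
  set tf : ℝ := (t.factorial : ℝ) with htf
  have htf0 : 0 < tf := by rw [htf]; exact_mod_cast t.factorial_pos
  set m : ℝ := (U.card : ℝ) with hm
  have hm0 : 0 ≤ m := Nat.cast_nonneg _
  have hαt : 0 < α ^ t := by positivity
  -- P2 ≤ (1+ξ) μ P1 + Cs n^3
  have hP2le : P2 ≤ (1 + ξ) * μ * P1 + Cs * n ^ 3 := by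
    have h1 : P2 ≤ ∑ w, ((1 + ξ) * μ * F1 w ^ t + Cs * (n / α ^ t)) :=
      Finset.sum_le_sum fun w _ => hstabw w
    rw [Finset.sum_add_distrib, ← Finset.mul_sum, Finset.sum_const, Finset.card_univ,
      nsmul_eq_mul, ← hn] at h1
    have h2 : n * (Cs * (n / α ^ t)) ≤ Cs * n ^ 3 := by
      have h3 : n / α ^ t = n ^ 2 / μ := by
        rw [hμ]; field_simp
      have h4 : n ^ 2 / μ ≤ n ^ 2 := div_le_self (by positivity) hμge
      rw [h3]
      calc n * (Cs * (n ^ 2 / μ)) ≤ n * (Cs * n ^ 2) := by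
            apply mul_le_mul_of_nonneg_left _ hn0.le
            exact mul_le_mul_of_nonneg_left h4 hCs
        _ = Cs * n ^ 3 := by ring
    linarith
  -- lower bound for P1
  have hP1ge : μ * m ^ t ≤ P1 := by
    have h1 := pow_mean (Finset.univ : Finset V) F1 (fun w _ => hF10 w) t (by omega) (n := n)
      (by rw [Finset.card_univ])
    rw [hsum1, mul_pow] at h1
    have h2 : (m ^ t * (D : ℝ) ^ t) = n ^ (t - 1) * (μ * m ^ t) := by rw [← hμn]; ring
    rw [h2] at h1
    exact le_of_mul_le_mul_left h1 hnt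
  -- S1
  have hS1ge : c * P1 - n * J ≤ tf * S1 := by
    have h1 : ∀ w, c * F1 w ^ t - J ≤ tf * (((sec N U w).card.choose t : ℕ) : ℝ) := by
      intro w
      refine le_trans ?_ (choose_low _ t)
      have := low_pow t (α := 1) (x := F1 w) (a := max 0 (F1 w - t)) hθ0 hθ1 zero_le_one (hF10 w)
        (le_max_left _ _) (by
          refine le_trans ?_ (le_max_right _ _)
          have := hF10 w
          nlinarith)
      rw [one_pow, one_mul] at this
      exact this
    have h2 : ∑ w : V, (c * F1 w ^ t - J) ≤ ∑ w, tf * (((sec N U w).card.choose t : ℕ) : ℝ) :=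
      Finset.sum_le_sum fun w _ => h1 w
    rw [Finset.sum_sub_distrib, ← Finset.mul_sum, ← Finset.mul_sum, Finset.sum_const,
      Finset.card_univ, nsmul_eq_mul, ← hn] at h2
    exact h2
  -- S2
  have hS2le : tf * S2 ≤ P2 := by
    rw [hS2, hP2, Finset.mul_sum]
    apply Finset.sum_le_sum
    intro w _
    rw [Finset.mul_sum]
    exact Finset.sum_le_sum fun w' _ => choose_up _ t
  -- S3
  have hS3ge : c * μ * P2 - n ^ 3 * J ≤ tf * S3 := by
    have h1 : ∀ w, ∀ w' ∈ Finset.univ.erase w, c * μ * F2 w w' ^ t - n * J ≤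
        tf * ∑ w'' ∈ (Finset.univ.erase w).erase w',
          (((sec N (sec N (sec N U w) w') w'').card.choose t : ℕ) : ℝ) := by
      intro w w' hw'
      have hww := (Finset.mem_erase.1 hw').1
      have h2 : ∑ w'' ∈ (Finset.univ.erase w).erase w', (max 0 (F3 w w' w'' - t)) ^ t ≤
          tf * ∑ w'' ∈ (Finset.univ.erase w).erase w',
          (((sec N (sec N (sec N U w) w') w'').card.choose t : ℕ) : ℝ) := by
        rw [Finset.mul_sum]
        exact Finset.sum_le_sum fun w'' _ => choose_low _ t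
      refine le_trans ?_ h2
      have h3 := pow_mean ((Finset.univ.erase w).erase w') (fun w'' => max 0 (F3 w w' w'' - t))
        (fun _ _ => le_max_left _ _) t (by omega) (n := n) (by
          rw [hn]; exact_mod_cast (Finset.card_le_univ _))
      set sg : ℝ := ∑ w'' ∈ (Finset.univ.erase w).erase w', max 0 (F3 w w' w'' - t) with hsg
      have hsg0 : 0 ≤ sg := Finset.sum_nonneg fun _ _ => le_max_left _ _
      have h4 : α * F2 w w' * (1 - θ / 2) - t ≤ sg / n := by
        rw [le_div_iff₀ hn0]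
        refine le_trans ?_ (hlow3 w w' hww)
        have h5 : 4 ≤ D * θ := by
          rwa [div_le_iff₀ hθ0] at hD4
        have h6 := hF20 w w'
        have h7 : (α * F2 w w' * (1 - θ / 2) - t) * n = F2 w w' * (D * (1 - θ / 2)) - t * n := by
          rw [← hαn]; ring
        rw [h7]
        nlinarith
      have h5 := low_pow t hθ0 hθ1 hα0.le (hF20 w w') (div_nonneg hsg0 hn0.le) h4
      rw [← hc, ← hJ] at h5
      have h6 : (sg / n) ^ t * n = sg ^ t / n ^ (t - 1) := by
        have : n ^ t = n * n ^ (t - 1) := by rw [← pow_succ']; congr 1; omega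
        rw [div_pow, this]; field_simp
      have h7 : sg ^ t / n ^ (t - 1) ≤
          ∑ w'' ∈ (Finset.univ.erase w).erase w', (max 0 (F3 w w' w'' - t)) ^ t := by
        rw [div_le_iff₀ hnt, mul_comm]
        exact h3
      refine le_trans ?_ h7
      rw [← h6]
      calc c * μ * F2 w w' ^ t - n * J = (c * (α ^ t * F2 w w' ^ t) - J) * n := by
            rw [hμ]; ring
        _ ≤ (sg / n) ^ t * n := mul_le_mul_of_nonneg_right h5 hn0.le
    have h2 : ∀ w : V, c * μ * ∑ w' ∈ Finset.univ.erase w, F2 w w' ^ t - n ^ 2 * J ≤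
        tf * ∑ w' ∈ Finset.univ.erase w, ∑ w'' ∈ (Finset.univ.erase w).erase w',
          (((sec N (sec N (sec N U w) w') w'').card.choose t : ℕ) : ℝ) := by
      intro w
      have h3 : ∑ w' ∈ Finset.univ.erase w, (c * μ * F2 w w' ^ t - n * J) ≤
          ∑ w' ∈ Finset.univ.erase w, tf * ∑ w'' ∈ (Finset.univ.erase w).erase w',
          (((sec N (sec N (sec N U w) w') w'').card.choose t : ℕ) : ℝ) :=
        Finset.sum_le_sum (h1 w)
      have e1 : ∑ w' ∈ Finset.univ.erase w, (c * μ * F2 w w' ^ t - n * J) =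
          c * μ * ∑ w' ∈ Finset.univ.erase w, F2 w w' ^ t -
            (((Finset.univ.erase w).card : ℕ) : ℝ) * (n * J) := by
        rw [Finset.sum_sub_distrib, Finset.sum_const, nsmul_eq_mul, Finset.mul_sum]
      rw [e1, ← Finset.mul_sum] at h3
      have h4 : (((Finset.univ.erase w).card : ℕ) : ℝ) ≤ n := by
        rw [hn]; exact_mod_cast (Finset.card_le_univ _)
      have h5 : (((Finset.univ.erase w).card : ℕ) : ℝ) * (n * J) ≤ n * (n * J) :=
        mul_le_mul_of_nonneg_right h4 (by positivity)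
      have h6 : n * (n * J) = n ^ 2 * J := by ring
      linarith
    have h3 : ∑ w : V, (c * μ * ∑ w' ∈ Finset.univ.erase w, F2 w w' ^ t - n ^ 2 * J) ≤
        ∑ w : V, tf * ∑ w' ∈ Finset.univ.erase w, ∑ w'' ∈ (Finset.univ.erase w).erase w',
          (((sec N (sec N (sec N U w) w') w'').card.choose t : ℕ) : ℝ) :=
      Finset.sum_le_sum fun w _ => h2 w
    have e1 : ∑ w : V, (c * μ * ∑ w' ∈ Finset.univ.erase w, F2 w w' ^ t - n ^ 2 * J) =
        c * μ * P2 - n * (n ^ 2 * J) := by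
      rw [Finset.sum_sub_distrib, Finset.sum_const, Finset.card_univ, nsmul_eq_mul, hP2,
        Finset.mul_sum]
    rw [e1, ← Finset.mul_sum] at h3
    have h4 : n * (n ^ 2 * J) = n ^ 3 * J := by ring
    linarith
  -- the moment inequality
  have hmom : S3 + 2 * B * S1 ≤ B * S2 + 2 * B * (U.card.choose t : ℕ) := moment N U t hcom
  have hch : tf * (U.card.choose t : ℕ) ≤ m ^ t := choose_up _ t
  have hmom' : tf * S3 + 2 * B * (tf * S1) ≤ B * (tf * S2) + 2 * B * (tf * (U.card.choose t : ℕ)) := by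
    have := mul_le_mul_of_nonneg_left hmom htf0.le
    nlinarith
  have hB0 : (0 : ℝ) ≤ B := by linarith
  have h1 : 2 * B * (c * P1) ≤ (B - c * μ) * P2 + 2 * B * m ^ t + (n ^ 3 * J + 2 * B * (n * J)) := by
    have h2 : (B : ℝ) * (tf * S2) ≤ B * P2 := mul_le_mul_of_nonneg_left hS2le hB0
    have h3 : 2 * (B : ℝ) * (tf * (U.card.choose t : ℕ)) ≤ 2 * B * m ^ t :=
      mul_le_mul_of_nonneg_left hch (by linarith)
    have h4 : 2 * (B : ℝ) * (c * P1 - n * J) ≤ 2 * B * (tf * S1) :=
      mul_le_mul_of_nonneg_left hS1ge (by linarith)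
    linarith
  have hcμ : 0 ≤ B - c * μ := by
    have : c * μ ≤ 1 * μ := mul_le_mul_of_nonneg_right hc1 (by linarith)
    linarith
  have hcμ' : B - c * μ ≤ B := by
    have : 0 ≤ c * μ := by positivity
    linarith
  have hP10 : 0 ≤ P1 := Finset.sum_nonneg fun w _ => pow_nonneg (hF10 w) _
  have h2 : (B - c * μ) * P2 ≤ (B - c * μ) * ((1 + ξ) * μ) * P1 + B * Cs * n ^ 3 := by
    have h3 := mul_le_mul_of_nonneg_left hP2le hcμ
    have h4 : (B - c * μ) * (Cs * n ^ 3) ≤ B * (Cs * n ^ 3) :=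
      mul_le_mul_of_nonneg_right hcμ' (by positivity)
    linarith
  have hnum := final_num hBr hξB hξ0 hθ hc1 hμ2 hμ1'
  set κ : ℝ := 2 * B * c - (B - c * μ) * ((1 + ξ) * μ) with hκ
  have h3 : κ * P1 ≤ 2 * B * m ^ t + (J + 2 * B * J + B * Cs) * n ^ 3 := by
    have hn3 : n ≤ n ^ 3 := by nlinarith [mul_nonneg hn0.le hn0.le, mul_pos hn0 hn0]
    have h4 : 2 * (B : ℝ) * (n * J) ≤ 2 * B * (n ^ 3 * J) := by
      apply mul_le_mul_of_nonneg_left _ (by linarith)
      exact mul_le_mul_of_nonneg_right hn3 hJ0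
    rw [hκ]
    linarith
  have h4 : κ * (μ * m ^ t) ≤ κ * P1 := mul_le_mul_of_nonneg_left hP1ge (by linarith [hnum.1])
  have h5 : (2 * B + 1) * m ^ t ≤ κ * μ * m ^ t :=
    mul_le_mul_of_nonneg_right hnum.2 (by positivity)
  have h6 : κ * (μ * m ^ t) = κ * μ * m ^ t := by ring
  linarith

end Pool.Agent.Zar74
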