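import Pool.Agent.Helper74.ZarAnalysis

set_option autoImplicit false

/-!
# Double counting and the combinatorial core of the improved Zarankiewicz bound
-/

namespace Pool.Agent.Zar74

open Finset

variable {Y V : Type} [DecidableEq Y] [Fintype V] [DecidableEq V]

/-- the members of `U` containing `w` -/
def sec (N : Y → Finset V) (U : Finset Y) (w : V) : Finset Y := U.filter (fun y => w ∈ N y)

/-- the elements common to all members of `T` -/
def com (N : Y → Finset V) (T : Finset Y) : Finset V :=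
  Finset.univ.filter (fun w => ∀ y ∈ T, w ∈ N y)

theorem mem_com {N : Y → Finset V} {T : Finset Y} {w : V} : w ∈ com N T ↔ ∀ y ∈ T, w ∈ N y := by
  simp [com]

theorem mem_sec {N : Y → Finset V} {U : Finset Y} {w : V} {y : Y} :
    y ∈ sec N U w ↔ y ∈ U ∧ w ∈ N y := by
  simp [sec]

theorem sec_comm (N : Y → Finset V) (U : Finset Y) (w w' : V) :
    sec N (sec N U w) w' = sec N (sec N U w') w := by
  ext y; simp only [mem_sec]; tauto

theorem sec_self (N : Y → Finset V) (U : Finset Y) (w : V) :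
    sec N (sec N U w) w = sec N U w := by
  ext y; simp only [mem_sec]; tauto

/-- double counting, general form -/
theorem dc_gen (N : Y → Finset V) (U : Finset Y) (t : ℕ) (W : Finset V) {M : Type*}
    [AddCommMonoid M] (f : V → Finset Y → M) :
    ∑ w ∈ W, ∑ T ∈ powersetCard t (sec N U w), f w T =
      ∑ T ∈ powersetCard t U, ∑ w ∈ W ∩ com N T, f w T := by
  apply Finset.sum_comm'
  intro w T
  rw [mem_powersetCard, mem_powersetCard, mem_inter, mem_com]
  constructor
  · rintro ⟨hw, hT, hc⟩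
    refine ⟨⟨hw, fun y hy => (mem_sec.1 (hT hy)).2⟩, fun y hy => (mem_sec.1 (hT hy)).1, hc⟩
  · rintro ⟨⟨hw, hT⟩, hTU, hc⟩
    exact ⟨hw, fun y hy => mem_sec.2 ⟨hTU hy, hT y hy⟩, hc⟩

theorem dc (N : Y → Finset V) (U : Finset Y) (t : ℕ) (W : Finset V) :
    ∑ w ∈ W, (((sec N U w).card.choose t : ℕ) : ℝ) =
      ∑ T ∈ powersetCard t U, ((W ∩ com N T).card : ℝ) := by
  have := dc_gen N U t W (fun _ _ => (1 : ℝ))
  simp only [Finset.sum_const, nsmul_eq_mul, mul_one, Finset.card_powersetCard] at this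
  exact this

theorem sum_sec (N : Y → Finset V) (U : Finset Y) {D : ℕ} (hD : ∀ y ∈ U, (N y).card = D) :
    ∑ w, ((sec N U w).card : ℝ) = U.card * D := by
  have h1 : ∑ w : V, (sec N U w).card = ∑ y ∈ U, (N y).card := by
    have := Finset.sum_card_bipartiteAbove_eq_sum_card_bipartiteBelow
      (s := (Finset.univ : Finset V)) (t := U) (fun w y => w ∈ N y)
    simp only [Finset.bipartiteAbove, Finset.bipartiteBelow] at this
    simp only [sec]
    rw [this]
    apply Finset.sum_congr rfl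
    intro y _
    congr 1
    ext w; simp
  rw [Finset.sum_congr rfl hD, Finset.sum_const, smul_eq_mul] at h1
  exact_mod_cast h1

/-- lower bound for binomial coefficients -/
theorem choose_low (F t : ℕ) : (max 0 ((F : ℝ) - t)) ^ t ≤ (t.factorial : ℝ) * (F.choose t : ℕ) := by
  have h1 : (F + 1 - t) ^ t ≤ F.descFactorial t := Nat.pow_sub_le_descFactorial F t
  rw [Nat.descFactorial_eq_factorial_mul_choose] at h1
  have h2 : max 0 ((F : ℝ) - t) ≤ ((F + 1 - t : ℕ) : ℝ) := by
    apply max_le (by positivity)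
    rcases Nat.lt_or_ge F t with h | h
    · have : ((F : ℝ)) - t ≤ 0 := by
        have : (F : ℝ) ≤ t := by exact_mod_cast h.le
        linarith
      exact this.trans (by positivity)
    · rw [Nat.cast_sub (by omega)]
      push_cast
      linarith
  calc (max 0 ((F : ℝ) - t)) ^ t ≤ ((F + 1 - t : ℕ) : ℝ) ^ t :=
        pow_le_pow_left₀ (le_max_left _ _) h2 _
    _ ≤ (t.factorial : ℝ) * (F.choose t : ℕ) := by exact_mod_cast h1

theorem choose_up (F t : ℕ) : (t.factorial : ℝ) * (F.choose t : ℕ) ≤ (F : ℝ) ^ t := by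
  have h1 : F.descFactorial t ≤ F ^ t := Nat.descFactorial_le_pow F t
  rw [Nat.descFactorial_eq_factorial_mul_choose] at h1
  exact_mod_cast h1

/-- the cubic inequality for integers -/
theorem cubic (X B : ℕ) (h : X ≤ B) :
    (X : ℝ) * (X - 1) * (X - 2) + 2 * B * X ≤ B * (X * (X - 1)) + 2 * B := by
  have h1 : 0 ≤ ((X : ℝ) - 1) * (X - 2) := by
    rcases Nat.lt_or_ge X 2 with hx | hx
    · interval_cases X <;> norm_num
    · have : (2 : ℝ) ≤ X := by exact_mod_cast hx
      nlinarith
  have h2 : (0 : ℝ) ≤ B - X := by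
    have : (X : ℝ) ≤ B := by exact_mod_cast h
    linarith
  nlinarith [mul_nonneg h2 h1]

section Sums

variable (N : Y → Finset V) (U : Finset Y) (t : ℕ)

theorem S1_eq : ∑ w, (((sec N U w).card.choose t : ℕ) : ℝ) =
    ∑ T ∈ powersetCard t U, ((com N T).card : ℝ) := by
  rw [dc]
  simp

theorem inner2 (w : V) : ∑ w' ∈ Finset.univ.erase w, (((sec N (sec N U w) w').card.choose t : ℕ) : ℝ) =
    ∑ T ∈ powersetCard t (sec N U w), (((com N T).card : ℝ) - 1) := by
  rw [dc]
  apply Finset.sum_congr rfl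
  intro T hT
  have hw : w ∈ com N T := mem_com.2 fun y hy => (mem_sec.1 ((mem_powersetCard.1 hT).1 hy)).2
  rw [Finset.erase_inter, Finset.univ_inter, Finset.card_erase_of_mem hw,
    Nat.cast_sub (Finset.card_pos.2 ⟨w, hw⟩)]
  simp

theorem inner3 {w w' : V} (hww : w' ≠ w) :
    ∑ w'' ∈ (Finset.univ.erase w).erase w',
      (((sec N (sec N (sec N U w) w') w'').card.choose t : ℕ) : ℝ) =
    ∑ T ∈ powersetCard t (sec N (sec N U w) w'), (((com N T).card : ℝ) - 2) := by
  rw [dc]
  apply Finset.sum_congr rfl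
  intro T hT
  have hT' := (mem_powersetCard.1 hT).1
  have hw : w ∈ com N T := mem_com.2 fun y hy => (mem_sec.1 (mem_sec.1 (hT' hy)).1).2
  have hw' : w' ∈ com N T := mem_com.2 fun y hy => (mem_sec.1 (hT' hy)).2
  have hw'' : w' ∈ (com N T).erase w := Finset.mem_erase.2 ⟨hww, hw'⟩
  rw [Finset.erase_inter, Finset.erase_inter, Finset.univ_inter, Finset.card_erase_of_mem hw'',
    Finset.card_erase_of_mem hw]
  have h1 : 1 ≤ ((com N T).erase w).card := Finset.card_pos.2 ⟨w', hw''⟩
  rw [Finset.card_erase_of_mem hw] at h1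
  rw [Nat.cast_sub h1, Nat.cast_sub (by omega)]
  push_cast
  ring

theorem S2_eq : ∑ w, ∑ w' ∈ Finset.univ.erase w,
      (((sec N (sec N U w) w').card.choose t : ℕ) : ℝ) =
    ∑ T ∈ powersetCard t U, ((com N T).card : ℝ) * (((com N T).card : ℝ) - 1) := by
  simp_rw [inner2]
  rw [dc_gen N U t Finset.univ (fun _ T => ((com N T).card : ℝ) - 1)]
  apply Finset.sum_congr rfl
  intro T _
  rw [Finset.sum_const, Finset.univ_inter, nsmul_eq_mul]

theorem S3_eq : ∑ w, ∑ w' ∈ Finset.univ.erase w, ∑ w'' ∈ (Finset.univ.erase w).erase w',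
      (((sec N (sec N (sec N U w) w') w'').card.choose t : ℕ) : ℝ) =
    ∑ T ∈ powersetCard t U, ((com N T).card : ℝ) * (((com N T).card : ℝ) - 1) *
      (((com N T).card : ℝ) - 2) := by
  have h1 : ∀ w : V, ∑ w' ∈ Finset.univ.erase w, ∑ w'' ∈ (Finset.univ.erase w).erase w',
      (((sec N (sec N (sec N U w) w') w'').card.choose t : ℕ) : ℝ) =
      ∑ T ∈ powersetCard t (sec N U w), ((((com N T).card : ℝ) - 1) *
        (((com N T).card : ℝ) - 2)) := by
    intro w
    have h2 : ∑ w' ∈ Finset.univ.erase w, ∑ w'' ∈ (Finset.univ.erase w).erase w',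
        (((sec N (sec N (sec N U w) w') w'').card.choose t : ℕ) : ℝ) =
        ∑ w' ∈ Finset.univ.erase w, ∑ T ∈ powersetCard t (sec N (sec N U w) w'),
          (((com N T).card : ℝ) - 2) := by
      apply Finset.sum_congr rfl
      intro w' hw'
      exact inner3 N U t (Finset.mem_erase.1 hw').1
    rw [h2, dc_gen N (sec N U w) t (Finset.univ.erase w) (fun _ T => ((com N T).card : ℝ) - 2)]
    apply Finset.sum_congr rfl
    intro T hT
    have hw : w ∈ com N T := mem_com.2 fun y hy => (mem_sec.1 ((mem_powersetCard.1 hT).1 hy)).2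
    rw [Finset.sum_const, nsmul_eq_mul, Finset.erase_inter, Finset.univ_inter,
      Finset.card_erase_of_mem hw, Nat.cast_sub (Finset.card_pos.2 ⟨w, hw⟩)]
    simp
  simp_rw [h1]
  rw [dc_gen N U t Finset.univ (fun _ T => (((com N T).card : ℝ) - 1) * (((com N T).card : ℝ) - 2))]
  apply Finset.sum_congr rfl
  intro T _
  rw [Finset.sum_const, Finset.univ_inter, nsmul_eq_mul]
  ring

/-- the moment inequality -/
theorem moment {B : ℕ} (hB : ∀ T ∈ powersetCard t U, (com N T).card ≤ B) :
    ∑ w, ∑ w' ∈ Finset.univ.erase w, ∑ w'' ∈ (Finset.univ.erase w).erase w',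
      (((sec N (sec N (sec N U w) w') w'').card.choose t : ℕ) : ℝ) +
      2 * B * ∑ w, (((sec N U w).card.choose t : ℕ) : ℝ) ≤
    B * ∑ w, ∑ w' ∈ Finset.univ.erase w, (((sec N (sec N U w) w').card.choose t : ℕ) : ℝ) +
      2 * B * (U.card.choose t : ℕ) := by
  rw [S1_eq, S2_eq, S3_eq, ← Finset.card_powersetCard, Finset.mul_sum, Finset.mul_sum,
    ← Finset.sum_add_distrib]
  have h1 : (2 * (B : ℝ)) * ((powersetCard t U).card : ℕ) = ∑ T ∈ powersetCard t U, 2 * (B : ℝ) := by
    rw [Finset.sum_const, nsmul_eq_mul]; ring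
  rw [h1, ← Finset.sum_add_distrib]
  exact Finset.sum_le_sum fun T hT => cubic _ B (hB T hT)

end Sums

end Pool.Agent.Zar74
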