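import Pool.Agent.Helper74.ZarCore

set_option autoImplicit false

/-!
# High degree vertices in graphs without a complete bipartite subgraph
-/

namespace Pool.Agent.Zar74

open Finset

variable {V : Type} [Fintype V] [DecidableEq V]

theorem common_lt {s t : ℕ} {G : SimpleGraph V} [DecidableRel G.Adj]
    (hfree : (completeBipartiteGraph (Fin s) (Fin t)).Free G) (T : Finset V) (hT : T.card = t) :
    (Finset.univ.filter (fun w => ∀ y ∈ T, G.Adj w y)).card < s := by
  by_contra hcon
  push Not at hcon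
  obtain ⟨S, hS, hcard⟩ := Finset.exists_subset_card_eq hcon
  apply hfree
  rw [SimpleGraph.completeBipartiteGraph_isContained_iff]
  refine ⟨S, T, by simpa using hcard, by simpa using hT, ?_⟩
  intro v hv y hy
  exact (Finset.mem_filter.1 (hS hv)).2 y hy

/-- choosing `k` vertices with a large common neighbourhood in `H` -/
theorem pick (G : SimpleGraph V) [DecidableRel G.Adj] (H : Finset V) (D k : ℕ) (hD : 0 < D)
    (hne : H.Nonempty) (hH : ∀ y ∈ H, D + k ≤ (G.neighborFinset y).card) (j : ℕ) (hj : j ≤ k) :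
    ∃ W : Finset V, W.card = j ∧
      H.card * D ^ j ≤ (H.filter (fun y => W ⊆ G.neighborFinset y)).card * Fintype.card V ^ j := by
  induction j with
  | zero => exact ⟨∅, rfl, by simp⟩
  | succ j ih =>
    obtain ⟨W, hW, hle⟩ := ih (by omega)
    set HW := H.filter (fun y => W ⊆ G.neighborFinset y) with hHW
    have hpos : 0 < H.card * D ^ j := Nat.mul_pos (Finset.card_pos.2 hne) (Nat.pow_pos hD)
    have hHW0 : 0 < HW.card := by
      rcases Nat.eq_zero_or_pos HW.card with h | h
      · rw [h, zero_mul] at hle; omega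
      · exact h
    -- double count
    have hdc : HW.card * D ≤
        ∑ w ∈ Finset.univ \ W, (HW.filter (fun y => w ∈ G.neighborFinset y)).card := by
      have h1 := Finset.sum_card_bipartiteAbove_eq_sum_card_bipartiteBelow
        (s := Finset.univ \ W) (t := HW) (fun w y => w ∈ G.neighborFinset y)
      simp only [Finset.bipartiteAbove, Finset.bipartiteBelow] at h1
      rw [h1]
      have h2 : ∀ y ∈ HW, D ≤ ((Finset.univ \ W).filter (fun w => w ∈ G.neighborFinset y)).card := by
        intro y hy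
        have hy' := Finset.mem_filter.1 hy
        have h3 : (Finset.univ \ W).filter (fun w => w ∈ G.neighborFinset y) =
            G.neighborFinset y \ W := by
          ext w
          simp only [Finset.mem_filter, Finset.mem_sdiff, Finset.mem_univ, true_and]
          tauto
        rw [h3]
        have h4 := Finset.le_card_sdiff W (G.neighborFinset y)
        have h5 := hH y hy'.1
        omega
      calc HW.card * D = ∑ _y ∈ HW, D := by rw [Finset.sum_const, smul_eq_mul]
        _ ≤ _ := Finset.sum_le_sum h2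
    obtain ⟨w, hw, hwle⟩ : ∃ w ∈ Finset.univ \ W, HW.card * D ≤
        (HW.filter (fun y => w ∈ G.neighborFinset y)).card * Fintype.card V := by
      by_contra hcon
      push Not at hcon
      have hpos2 : 0 < HW.card * D := Nat.mul_pos hHW0 hD
      have h0 : (Finset.univ \ W).Nonempty := by
        rw [Finset.nonempty_iff_ne_empty]
        intro h0
        rw [h0, Finset.sum_empty] at hdc
        omega
      have h1 : (∑ w ∈ Finset.univ \ W, (HW.filter (fun y => w ∈ G.neighborFinset y)).card) *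
          Fintype.card V < (Finset.univ \ W).card * (HW.card * D) := by
        rw [Finset.sum_mul]
        calc _ < ∑ _w ∈ Finset.univ \ W, HW.card * D :=
              Finset.sum_lt_sum_of_nonempty h0 (fun w hw => hcon w hw)
          _ = _ := by rw [Finset.sum_const, smul_eq_mul]
      have h2 : (Finset.univ \ W).card ≤ Fintype.card V := Finset.card_le_univ _
      have h3 : (Finset.univ \ W).card * (HW.card * D) ≤ Fintype.card V * (HW.card * D) :=
        Nat.mul_le_mul_right _ h2
      have h4 := Nat.mul_le_mul_right (Fintype.card V) hdc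
      rw [mul_comm (Fintype.card V)] at h3
      omega
    have hwW : w ∉ W := (Finset.mem_sdiff.1 hw).2
    refine ⟨insert w W, by rw [Finset.card_insert_of_notMem hwW, hW], ?_⟩
    have h1 : H.filter (fun y => insert w W ⊆ G.neighborFinset y) =
        HW.filter (fun y => w ∈ G.neighborFinset y) := by
      ext y
      simp only [hHW, Finset.mem_filter, Finset.insert_subset_iff]
      tauto
    rw [h1]
    calc H.card * D ^ (j + 1) = (H.card * D ^ j) * D := by ring
      _ ≤ (HW.card * Fintype.card V ^ j) * D := Nat.mul_le_mul_right _ hle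
      _ = (HW.card * D) * Fintype.card V ^ j := by ring
      _ ≤ ((HW.filter (fun y => w ∈ G.neighborFinset y)).card * Fintype.card V) *
          Fintype.card V ^ j := Nat.mul_le_mul_right _ hwle
      _ = _ := by ring

/-- there are few vertices of high degree -/
theorem few_high (s t : ℕ) (ht : 4 ≤ t) (hs : t + 2 ≤ s) :
    ∃ η : ℝ, 0 < η ∧ η ≤ 1 / 4 ∧ ∀ ρ : ℝ, 0 < ρ → ∃ N0 : ℕ, ∀ (V : Type) [Fintype V]
      [DecidableEq V] (G : SimpleGraph V) [DecidableRel G.Adj] (D : ℕ), N0 ≤ Fintype.card V →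
      (completeBipartiteGraph (Fin s) (Fin t)).Free G →
      (1 - 2 * η) * ((s : ℝ) - t + 1) * (Fintype.card V : ℝ) ^ (t - 1) ≤ (D : ℝ) ^ t →
      (D : ℝ) ^ t ≤ ((s : ℝ) - t + 1) * (Fintype.card V : ℝ) ^ (t - 1) →
      (((Finset.univ.filter (fun v => D + t ≤ G.degree v)).card : ℕ) : ℝ) ≤
        ρ * Fintype.card V := by
  obtain ⟨k, rfl⟩ : ∃ k, t = k + 4 := ⟨t - 4, by omega⟩
  obtain ⟨B, hBs⟩ : ∃ B, s = B + k + 1 := ⟨s - k - 1, by omega⟩
  have hB : 5 ≤ B := by omega
  have hBr : (5 : ℝ) ≤ B := by exact_mod_cast hB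
  obtain ⟨η, hη0, hη1, Cst, hC, D0, hcore⟩ := core (k + 4) B (by omega) hB
  refine ⟨η, hη0, hη1, ?_⟩
  intro ρ hρ
  obtain ⟨N1, hN1⟩ := exists_nat_gt (Cst / ρ ^ (k + 4))
  obtain ⟨N2, hN2⟩ := exists_nat_gt ((max D0 1) ^ (k + 4))
  refine ⟨max (max N1 N2) 1, ?_⟩
  intro V _ _ G _ D hn hfree hlow hupp
  have hsB : ((s : ℝ) - ((k + 4 : ℕ) : ℝ) + 1) = (B : ℝ) - 2 := by
    rw [hBs]; push_cast; ring
  rw [hsB] at hlow hupp
  have hk4 : k + 4 - 1 = k + 3 := by omega
  rw [hk4] at hlow hupp
  set n : ℝ := (Fintype.card V : ℝ) with hnn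
  have hn1 : 1 ≤ Fintype.card V := (le_max_right _ _).trans hn
  have hn1' : (1 : ℝ) ≤ n := by rw [hnn]; exact_mod_cast hn1
  have hnN1 : (N1 : ℝ) ≤ n := by
    rw [hnn]; exact_mod_cast ((le_max_left N1 N2).trans (le_max_left _ _)).trans hn
  have hnN2 : (N2 : ℝ) ≤ n := by
    rw [hnn]; exact_mod_cast ((le_max_right N1 N2).trans (le_max_left _ _)).trans hn
  have hnpow : n ≤ n ^ (k + 3) := by
    calc n = n ^ 1 := (pow_one n).symm
      _ ≤ n ^ (k + 3) := pow_le_pow_right₀ hn1' (by omega)
  have hDn : n ^ (k + 3) ≤ (D : ℝ) ^ (k + 4) := by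
    refine le_trans ?_ hlow
    have h1 : 1 ≤ (1 - 2 * η) * ((B : ℝ) - 2) := by nlinarith
    have h2 : 0 ≤ n ^ (k + 3) := by positivity
    nlinarith
  have hDmax : max D0 1 ≤ (D : ℝ) := by
    by_contra hcon
    push Not at hcon
    have h1 : (D : ℝ) ^ (k + 4) ≤ (max D0 1) ^ (k + 4) :=
      pow_le_pow_left₀ (Nat.cast_nonneg _) hcon.le _
    linarith
  have hD0 : D0 ≤ D := (le_max_left _ _).trans hDmax
  have hD1 : 0 < D := by
    have : (1 : ℝ) ≤ D := (le_max_right _ _).trans hDmax
    exact_mod_cast this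
  by_contra hcon
  push Not at hcon
  set H : Finset V := Finset.univ.filter (fun v => D + (k + 4) ≤ G.degree v) with hH
  have hHne : H.Nonempty := by
    rw [Finset.nonempty_iff_ne_empty]
    intro h
    rw [h] at hcon
    simp only [Finset.card_empty, Nat.cast_zero] at hcon
    have : 0 < ρ * n := by positivity
    linarith
  have hHdeg : ∀ y ∈ H, D + k ≤ (G.neighborFinset y).card := by
    intro y hy
    have := (Finset.mem_filter.1 hy).2
    rw [G.card_neighborFinset_eq_degree]
    omega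
  obtain ⟨W, hW, hWle⟩ := pick G H D k hD1 hHne hHdeg k le_rfl
  set U : Finset V := H.filter (fun y => W ⊆ G.neighborFinset y) with hU
  -- the sets N y
  have hex : ∀ y : V, ∃ S : Finset V, y ∈ U → (S ⊆ G.neighborFinset y \ W ∧ S.card = D) := by
    intro y
    by_cases hy : y ∈ U
    · have h1 := hHdeg y (Finset.mem_filter.1 hy).1
      have h2 := Finset.le_card_sdiff W (G.neighborFinset y)
      have h3 : D ≤ (G.neighborFinset y \ W).card := by omega
      obtain ⟨S, hS1, hS2⟩ := Finset.exists_subset_card_eq h3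
      exact ⟨S, fun _ => ⟨hS1, hS2⟩⟩
    · exact ⟨∅, fun h => absurd h hy⟩
  choose N hN using hex
  have hcom : ∀ T ∈ powersetCard (k + 4) U, (com N T).card ≤ B := by
    intro T hT
    obtain ⟨hTU, hTcard⟩ := Finset.mem_powersetCard.1 hT
    have hTne : T.Nonempty := by
      rw [← Finset.card_pos]; omega
    have hlt := common_lt hfree T hTcard
    have hsub : com N T ∪ W ⊆ Finset.univ.filter (fun w => ∀ y ∈ T, G.Adj w y) := by
      intro w hw
      rw [Finset.mem_filter]
      refine ⟨Finset.mem_univ _, ?_⟩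
      intro y hy
      rcases Finset.mem_union.1 hw with h | h
      · have h1 := mem_com.1 h y hy
        have h2 := (hN y (hTU hy)).1 h1
        have h3 := (Finset.mem_sdiff.1 h2).1
        rw [SimpleGraph.mem_neighborFinset] at h3
        exact h3.symm
      · have h1 := (Finset.mem_filter.1 (hTU hy)).2 h
        rw [SimpleGraph.mem_neighborFinset] at h1
        exact h1.symm
    have hdisj : Disjoint (com N T) W := by
      rw [Finset.disjoint_left]
      intro w hw hwW
      obtain ⟨y, hy⟩ := hTne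
      have h1 := mem_com.1 hw y hy
      have h2 := (hN y (hTU hy)).1 h1
      exact (Finset.mem_sdiff.1 h2).2 hwW
    have h1 := Finset.card_le_card hsub
    rw [Finset.card_union_of_disjoint hdisj, hW] at h1
    omega
  have hmain := hcore V V U N D hn1 hD0 (by rw [hk4]; exact hlow) (by rw [hk4]; exact hupp)
    (fun y hy => (hN y hy).2) hcom
  rw [← hnn] at hmain
  -- combine
  have hWle' : (H.card : ℝ) * (D : ℝ) ^ k ≤ (U.card : ℝ) * n ^ k := by
    rw [hnn]; exact_mod_cast hWle
  have h1 : (ρ * n) * (D : ℝ) ^ k ≤ (U.card : ℝ) * n ^ k :=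
    (mul_le_mul_of_nonneg_right hcon.le (by positivity)).trans hWle'
  have h2 : ((ρ * n) * (D : ℝ) ^ k) ^ (k + 4) ≤ ((U.card : ℝ) * n ^ k) ^ (k + 4) :=
    pow_le_pow_left₀ (by positivity) h1 _
  have h3 : ((ρ * n) * (D : ℝ) ^ k) ^ (k + 4) = ρ ^ (k + 4) * n ^ (k + 4) * ((D : ℝ) ^ (k + 4)) ^ k := by
    rw [mul_pow, mul_pow, ← pow_mul, ← pow_mul, mul_comm k (k + 4)]
  have h4 : ρ ^ (k + 4) * n ^ (k + 4) * (n ^ (k + 3)) ^ k ≤
      ρ ^ (k + 4) * n ^ (k + 4) * ((D : ℝ) ^ (k + 4)) ^ k := by
    apply mul_le_mul_of_nonneg_left _ (by positivity)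
    exact pow_le_pow_left₀ (by positivity) hDn _
  have h5 : ((U.card : ℝ) * n ^ k) ^ (k + 4) ≤ Cst * n ^ 3 * (n ^ k) ^ (k + 4) := by
    rw [mul_pow]
    exact mul_le_mul_of_nonneg_right hmain (by positivity)
  have h6 : ρ ^ (k + 4) * n ^ (k + 4) * (n ^ (k + 3)) ^ k ≤ Cst * n ^ 3 * (n ^ k) ^ (k + 4) := by
    rw [h3] at h2
    exact h4.trans (h2.trans h5)
  have h7 : ρ ^ (k + 4) * n ^ (k + 4) * (n ^ (k + 3)) ^ k =
      (ρ ^ (k + 4) * n) * (n ^ 3 * (n ^ k) ^ (k + 4)) := by ring
  have h8 : Cst * n ^ 3 * (n ^ k) ^ (k + 4) = Cst * (n ^ 3 * (n ^ k) ^ (k + 4)) := by ring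
  rw [h7, h8] at h6
  have h9 : 0 < n ^ 3 * (n ^ k) ^ (k + 4) := by positivity
  have h10 : ρ ^ (k + 4) * n ≤ Cst := le_of_mul_le_mul_right h6 h9
  have h11 : Cst / ρ ^ (k + 4) < n := lt_of_lt_of_le hN1 hnN1
  rw [div_lt_iff₀ (by positivity)] at h11
  linarith

end Pool.Agent.Zar74
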