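import Pool.Agent.Helper74.ZarGraph

set_option autoImplicit false

/-!
# From degrees to the spectral radius
-/

namespace Pool.Agent.Zar74

open Finset

variable {V : Type} [Fintype V] [DecidableEq V]

/-- weighted number of injective `k`-tuples in `S` -/
def P (a : V → ℝ) : ℕ → Finset V → ℝ
  | 0, _ => 1
  | k + 1, S => ∑ u ∈ S, a u * P a k (S.erase u)

theorem P_nonneg {a : V → ℝ} (ha : ∀ u, 0 ≤ a u) (k : ℕ) : ∀ S : Finset V, 0 ≤ P a k S := by
  induction k with
  | zero => intro S; simp [P]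
  | succ k ih =>
    intro S
    simp only [P]
    exact Finset.sum_nonneg fun u _ => mul_nonneg (ha u) (ih _)

theorem P_le {a : V → ℝ} (ha : ∀ u, 0 ≤ a u) (k : ℕ) :
    ∀ S : Finset V, P a k S ≤ (∑ u ∈ S, a u) ^ k := by
  induction k with
  | zero => intro S; simp [P]
  | succ k ih =>
    intro S
    simp only [P]
    rw [pow_succ', Finset.sum_mul]
    apply Finset.sum_le_sum
    intro u _
    apply mul_le_mul_of_nonneg_left _ (ha u)
    refine (ih _).trans ?_
    apply pow_le_pow_left₀ (Finset.sum_nonneg fun u _ => ha u)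
    exact Finset.sum_le_sum_of_subset_of_nonneg (Finset.erase_subset _ _) fun u _ _ => ha u

theorem P_ge {a : V → ℝ} {M : ℝ} (ha : ∀ u, 0 ≤ a u) (haM : ∀ u, a u ≤ M) (hM : 0 ≤ M) (k : ℕ) :
    ∀ S : Finset V, (max 0 (∑ u ∈ S, a u - k * M)) ^ k ≤ P a k S := by
  induction k with
  | zero => intro S; simp [P]
  | succ k ih =>
    intro S
    simp only [P]
    have hS0 : 0 ≤ ∑ u ∈ S, a u := Finset.sum_nonneg fun u _ => ha u
    set z : ℝ := max 0 (∑ u ∈ S, a u - ((k + 1 : ℕ) : ℝ) * M) with hz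
    have hz0 : 0 ≤ z := le_max_left _ _
    have hzS : z ≤ ∑ u ∈ S, a u := by
      apply max_le hS0
      have : 0 ≤ ((k + 1 : ℕ) : ℝ) * M := by positivity
      linarith
    have h1 : ∀ u ∈ S, a u * z ^ k ≤ a u * P a k (S.erase u) := by
      intro u hu
      apply mul_le_mul_of_nonneg_left _ (ha u)
      refine le_trans ?_ (ih (S.erase u))
      apply pow_le_pow_left₀ hz0
      apply max_le (le_max_left _ _)
      refine le_trans ?_ (le_max_right _ _)
      have h2 := Finset.add_sum_erase S a hu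
      have h3 := haM u
      push_cast
      linarith
    calc z ^ (k + 1) = z * z ^ k := pow_succ' z k
      _ ≤ (∑ u ∈ S, a u) * z ^ k := mul_le_mul_of_nonneg_right hzS (by positivity)
      _ = ∑ u ∈ S, a u * z ^ k := by rw [Finset.sum_mul]
      _ ≤ ∑ u ∈ S, a u * P a k (S.erase u) := Finset.sum_le_sum h1

/-- weighted double counting -/
theorem P_count (G : SimpleGraph V) [DecidableRel G.Adj] {a : V → ℝ} (ha : ∀ u, 0 ≤ a u) (r : ℕ)
    (k : ℕ) : ∀ (S V' : Finset V),
      (∀ T ⊆ S, T.card = k → (V'.filter (fun v => ∀ y ∈ T, G.Adj v y)).card ≤ r) →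
      ∑ v ∈ V', P a k (G.neighborFinset v ∩ S) ≤ r * P a k S := by
  induction k with
  | zero =>
    intro S V' h
    have h1 := h ∅ (Finset.empty_subset _) rfl
    simp only [Finset.notMem_empty, IsEmpty.forall_iff, implies_true, Finset.filter_true] at h1
    simp only [P, Finset.sum_const, nsmul_eq_mul, mul_one]
    exact_mod_cast h1
  | succ k ih =>
    intro S V' h
    simp only [P]
    have h1 : ∑ v ∈ V', ∑ u ∈ G.neighborFinset v ∩ S,
        a u * P a k ((G.neighborFinset v ∩ S).erase u) =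
        ∑ u ∈ S, ∑ v ∈ V'.filter (fun v => G.Adj v u),
          a u * P a k (G.neighborFinset v ∩ S.erase u) := by
      rw [Finset.sum_comm' (t' := S) (s' := fun u => V'.filter (fun v => G.Adj v u))]
      · apply Finset.sum_congr rfl
        intro u _
        apply Finset.sum_congr rfl
        intro v _
        rw [Finset.inter_erase]
      · intro v u
        simp only [Finset.mem_inter, SimpleGraph.mem_neighborFinset, Finset.mem_filter]
        tauto
    rw [h1, Finset.mul_sum]
    apply Finset.sum_le_sum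
    intro u hu
    rw [← Finset.mul_sum]
    have h2 := ih (S.erase u) (V'.filter (fun v => G.Adj v u)) (by
      intro T hT hTk
      have huT : u ∉ T := fun h => (Finset.mem_erase.1 (hT h)).1 rfl
      have h3 := h (insert u T) (Finset.insert_subset hu (hT.trans (Finset.erase_subset _ _)))
        (by rw [Finset.card_insert_of_notMem huT, hTk])
      refine le_trans (le_of_eq ?_) h3
      congr 1
      ext v
      simp only [Finset.mem_filter, Finset.mem_insert, forall_eq_or_imp]
      tauto)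
    calc a u * ∑ v ∈ V'.filter (fun v => G.Adj v u), P a k (G.neighborFinset v ∩ S.erase u)
        ≤ a u * (r * P a k (S.erase u)) := mul_le_mul_of_nonneg_left h2 (ha u)
      _ = r * (a u * P a k (S.erase u)) := by ring

/-- weighted Kővári-Sós-Turán inequality -/
theorem kst {s t : ℕ} {G : SimpleGraph V} [DecidableRel G.Adj]
    (hfree : (completeBipartiteGraph (Fin s) (Fin t)).Free G) {a : V → ℝ} {M : ℝ}
    (ha : ∀ u, 0 ≤ a u) (haM : ∀ u, a u ≤ M) (hM : 0 ≤ M) :
    ∑ v, (max 0 (∑ u ∈ G.neighborFinset v, a u - t * M)) ^ t ≤ s * (∑ u, a u) ^ t := by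
  have h1 : ∑ v, (max 0 (∑ u ∈ G.neighborFinset v, a u - t * M)) ^ t ≤
      ∑ v ∈ (Finset.univ : Finset V), P a t (G.neighborFinset v ∩ Finset.univ) := by
    apply Finset.sum_le_sum
    intro v _
    rw [Finset.inter_univ]
    exact P_ge ha haM hM t _
  refine h1.trans ((P_count G ha s t Finset.univ Finset.univ ?_).trans ?_)
  · intro T _ hT
    exact (common_lt hfree T hT).le
  · exact mul_le_mul_of_nonneg_left (P_le ha t _) (Nat.cast_nonneg _)

theorem sum_neigh (G : SimpleGraph V) [DecidableRel G.Adj] (a : V → ℝ) :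
    ∑ v, ∑ u ∈ G.neighborFinset v, a u = ∑ u, (G.degree u : ℝ) * a u := by
  rw [Finset.sum_comm' (t' := Finset.univ) (s' := fun u => G.neighborFinset u)]
  · apply Finset.sum_congr rfl
    intro u _
    rw [Finset.sum_const, nsmul_eq_mul, G.card_neighborFinset_eq_degree]
  · intro v u
    simp only [Finset.mem_univ, true_and, SimpleGraph.mem_neighborFinset, and_true]
    exact G.adj_comm v u

theorem spectral_bound (s t : ℕ) (hs : 1 ≤ s) (ht : 3 ≤ t) {ε : ℝ} (hε : 0 < ε) :
    ∃ ρ : ℝ, 0 < ρ ∧ ∃ R0 : ℝ, ∀ (V : Type) [Fintype V] [DecidableEq V] (G : SimpleGraph V)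
      [DecidableRel G.Adj] (R D1 lam : ℝ) (x : V → ℝ),
      (completeBipartiteGraph (Fin s) (Fin t)).Free G → 0 ≤ D1 → R0 ≤ R →
      R ^ t = (Fintype.card V : ℝ) ^ (t - 1) →
      (((Finset.univ.filter (fun v => D1 ≤ G.degree v)).card : ℕ) : ℝ) ≤ ρ * Fintype.card V →
      (∀ v, 0 ≤ x v) → 0 < ∑ v, x v → R / 2 ≤ lam →
      (∀ v, lam * x v ≤ ∑ u ∈ G.neighborFinset v, x u) → lam ≤ D1 + ε * R := by
  set sr : ℝ := (s : ℝ) with hsr
  have hsr1 : 1 ≤ sr := by rw [hsr]; exact_mod_cast hs
  set tr : ℝ := (t : ℝ) with htr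
  have htr3 : 3 ≤ tr := by rw [htr]; exact_mod_cast ht
  set τ : ℝ := min 1 (ε / (4 * sr ^ 2)) with hτ
  have hτ0 : 0 < τ := by positivity
  have hτ1 : τ ≤ 1 := min_le_left _ _
  have hτ2 : 2 * sr ^ 2 * τ ≤ ε / 2 := by
    have h1 : τ ≤ ε / (4 * sr ^ 2) := min_le_right _ _
    rw [le_div_iff₀ (by positivity)] at h1
    nlinarith
  set δ : ℝ := ε / (8 * sr * tr * (1 + 2 * sr)) with hδ
  have hδ0 : 0 < δ := by positivity
  have hδ1 : (1 + 2 * sr) * tr * (4 * sr) * δ = ε / 2 := by
    rw [hδ]; field_simp; ring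
  refine ⟨τ ^ 2, by positivity, max (max (4 * tr) (1 / δ ^ t)) 1, ?_⟩
  intro V _ _ G _ R D1 lam x hfree hD1 hR hRt hH hx hsum hlam heig
  set n : ℝ := (Fintype.card V : ℝ) with hn
  have hR1 : 1 ≤ R := (le_max_right _ _).trans hR
  have hR4 : 4 * tr ≤ R := ((le_max_left _ _).trans (le_max_left _ _)).trans hR
  have hRδ : 1 / δ ^ t ≤ R := ((le_max_right _ _).trans (le_max_left _ _)).trans hR
  have hR0 : 0 < R := by linarith
  have hn0 : 0 ≤ n := Nat.cast_nonneg _
  have hnt : 0 < n ^ (t - 1) := by rw [← hRt]; positivity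
  have hnpos : 0 < n := by
    rcases hn0.lt_or_eq with h | h
    · exact h
    · rw [← h, zero_pow (by omega)] at hnt
      exact absurd hnt (lt_irrefl _)
  have hcard : 0 < Fintype.card V := by
    rw [hn] at hnpos
    exact_mod_cast hnpos
  have hn1 : 1 ≤ n := by
    rw [hn]; exact_mod_cast hcard
  -- R ≤ n
  have hRn : R ≤ n := by
    apply le_of_pow_le_pow_left₀ (n := t) (by omega) hn0
    rw [hRt]
    exact pow_le_pow_right₀ hn1 (by omega)
  -- n ≤ δ R^2
  have hnR : n ≤ δ * R ^ 2 := by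
    apply le_of_pow_le_pow_left₀ (n := t) (by omega) (by positivity)
    rw [mul_pow, ← pow_mul, mul_comm 2 t, pow_mul, hRt]
    have h1 : 1 ≤ δ ^ t * n := by
      have h2 : 1 / δ ^ t ≤ n := hRδ.trans hRn
      rw [div_le_iff₀ (by positivity)] at h2
      linarith
    have h2 : n ^ t ≤ n ^ (2 * t - 3) := pow_le_pow_right₀ hn1 (by omega)
    have h3 : (n ^ (t - 1)) ^ 2 = n * n ^ (2 * t - 3) := by
      rw [← pow_mul, ← pow_succ']
      congr 1
      omega
    rw [h3]
    have h4 : 0 ≤ n ^ (2 * t - 3) := by positivity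
    calc n ^ t ≤ n ^ (2 * t - 3) := h2
      _ = 1 * n ^ (2 * t - 3) := (one_mul _).symm
      _ ≤ (δ ^ t * n) * n ^ (2 * t - 3) := mul_le_mul_of_nonneg_right h1 h4
      _ = δ ^ t * (n * n ^ (2 * t - 3)) := by ring
  set Sx : ℝ := ∑ v, x v with hSx
  have hspow : sr ≤ sr ^ t := by
    calc sr = sr ^ 1 := (pow_one _).symm
      _ ≤ sr ^ t := pow_le_pow_right₀ hsr1 (by omega)
  -- maximum
  obtain ⟨v0, hv0⟩ : ∃ v0 : V, ∀ v, x v ≤ x v0 := by
    have : Nonempty V := Fintype.card_pos_iff.1 hcard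
    obtain ⟨v0, hv0⟩ := Finite.exists_max x
    exact ⟨v0, hv0⟩
  set M : ℝ := x v0 with hM
  have hM0 : 0 ≤ M := hx v0
  have hkst := kst hfree hx hv0 hM0
  rw [← hSx] at hkst
  have hlampos : 0 < lam := by linarith
  have hpos : ∀ v, 0 ≤ max 0 (∑ u ∈ G.neighborFinset v, x u - t * M) := fun v => le_max_left _ _
  -- (a)
  have hMle : (lam - tr) * M ≤ sr * Sx := by
    have h1 : (max 0 (lam * M - tr * M)) ^ t ≤ (sr * Sx) ^ t := by
      have h2 : (max 0 (lam * M - tr * M)) ^ t ≤
          (max 0 (∑ u ∈ G.neighborFinset v0, x u - t * M)) ^ t := by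
        apply pow_le_pow_left₀ (le_max_left _ _)
        apply max_le_max le_rfl
        have := heig v0
        linarith
      have h3 : (max 0 (∑ u ∈ G.neighborFinset v0, x u - t * M)) ^ t ≤
          ∑ v, (max 0 (∑ u ∈ G.neighborFinset v, x u - t * M)) ^ t :=
        Finset.single_le_sum (f := fun v => (max 0 (∑ u ∈ G.neighborFinset v, x u - t * M)) ^ t)
          (fun v _ => pow_nonneg (hpos v) _) (Finset.mem_univ v0)
      refine h2.trans (h3.trans (hkst.trans ?_))
      rw [mul_pow]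
      exact mul_le_mul_of_nonneg_right hspow (by positivity)
    have h4 : max 0 (lam * M - tr * M) ≤ sr * Sx :=
      le_of_pow_le_pow_left₀ (by omega) (by positivity) h1
    have h5 := (le_max_right 0 (lam * M - tr * M)).trans h4
    linarith
  have hMle2 : M * R ≤ 4 * sr * Sx := by
    have h1 : R / 4 ≤ lam - tr := by linarith
    have h2 : R / 4 * M ≤ (lam - tr) * M := mul_le_mul_of_nonneg_right h1 hM0
    linarith
  set H : Finset V := Finset.univ.filter (fun v => D1 ≤ (G.degree v : ℝ)) with hHdef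
  set xH : V → ℝ := fun v => if v ∈ H then x v else 0 with hxH
  have hxH0 : ∀ v, 0 ≤ xH v := by
    intro v
    simp only [hxH]
    split_ifs
    · exact hx v
    · exact le_rfl
  have hxHM : ∀ v, xH v ≤ M := by
    intro v
    simp only [hxH]
    split_ifs
    · exact hv0 v
    · exact hM0
  set SH : ℝ := ∑ v, xH v with hSH
  have hSH0 : 0 ≤ SH := Finset.sum_nonneg fun v _ => hxH0 v
  have hSHeq : SH = ∑ v ∈ H, x v := by
    rw [hSH]
    simp only [hxH]
    rw [← Finset.sum_filter]
    congr 1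
    ext v; simp
  -- (b)
  have hb : lam * SH ≤ tr * M * n + τ * R * (sr * Sx) := by
    have h1 : (∑ v ∈ H, max 0 (∑ u ∈ G.neighborFinset v, x u - t * M)) ^ t ≤
        (τ * R * (sr * Sx)) ^ t := by
      have h2 := pow_mean H (fun v => max 0 (∑ u ∈ G.neighborFinset v, x u - t * M))
        (fun v _ => hpos v) t (by omega) hH
      refine h2.trans ?_
      have h3 : ∑ v ∈ H, (max 0 (∑ u ∈ G.neighborFinset v, x u - t * M)) ^ t ≤
          ∑ v, (max 0 (∑ u ∈ G.neighborFinset v, x u - t * M)) ^ t :=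
        Finset.sum_le_sum_of_subset_of_nonneg (Finset.subset_univ _)
          (fun v _ _ => pow_nonneg (hpos v) _)
      have h4 : (τ ^ 2 * n) ^ (t - 1) ≤ τ ^ t * R ^ t := by
        rw [mul_pow, ← hRt, ← pow_mul]
        apply mul_le_mul_of_nonneg_right _ (by positivity)
        exact pow_le_pow_of_le_one hτ0.le hτ1 (by omega)
      calc (τ ^ 2 * n) ^ (t - 1) * ∑ v ∈ H, (max 0 (∑ u ∈ G.neighborFinset v, x u - t * M)) ^ t
          ≤ (τ ^ t * R ^ t) * (sr * Sx ^ t) := by
            apply mul_le_mul h4 (h3.trans hkst)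
              (Finset.sum_nonneg fun v _ => pow_nonneg (hpos v) _) (by positivity)
        _ ≤ (τ ^ t * R ^ t) * (sr ^ t * Sx ^ t) := by
            apply mul_le_mul_of_nonneg_left _ (by positivity)
            exact mul_le_mul_of_nonneg_right hspow (by positivity)
        _ = (τ * R * (sr * Sx)) ^ t := by rw [mul_pow, mul_pow, mul_pow]
    have h5 : ∑ v ∈ H, max 0 (∑ u ∈ G.neighborFinset v, x u - t * M) ≤ τ * R * (sr * Sx) :=
      le_of_pow_le_pow_left₀ (by omega) (by positivity) h1
    have h6 : ∑ v ∈ H, (lam * x v - tr * M) ≤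
        ∑ v ∈ H, max 0 (∑ u ∈ G.neighborFinset v, x u - t * M) := by
      apply Finset.sum_le_sum
      intro v _
      refine le_trans ?_ (le_max_right _ _)
      have := heig v
      linarith
    rw [Finset.sum_sub_distrib, ← Finset.mul_sum, Finset.sum_const, nsmul_eq_mul, ← hSHeq] at h6
    have h7 : (H.card : ℝ) * (tr * M) ≤ n * (tr * M) := by
      apply mul_le_mul_of_nonneg_right _ (by positivity)
      rw [hn]; exact_mod_cast Finset.card_le_univ _
    linarith
  -- (c)
  have hc : ∑ u ∈ H, (G.degree u : ℝ) * x u ≤ tr * M * n + R * (sr * SH) := by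
    have hkstH := kst hfree hxH0 hxHM hM0
    rw [← hSH] at hkstH
    have h1 : (∑ v, max 0 (∑ u ∈ G.neighborFinset v, xH u - t * M)) ^ t ≤ (R * (sr * SH)) ^ t := by
      have h2 := pow_mean (Finset.univ : Finset V)
        (fun v => max 0 (∑ u ∈ G.neighborFinset v, xH u - t * M))
        (fun v _ => le_max_left _ _) t (by omega) (n := n) (by rw [Finset.card_univ])
      refine h2.trans ?_
      rw [← hRt, mul_pow, mul_pow]
      apply mul_le_mul_of_nonneg_left _ (by positivity)
      exact hkstH.trans (mul_le_mul_of_nonneg_right hspow (by positivity))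
    have h3 : ∑ v, max 0 (∑ u ∈ G.neighborFinset v, xH u - t * M) ≤ R * (sr * SH) :=
      le_of_pow_le_pow_left₀ (by omega) (by positivity) h1
    have h4 : ∑ v, (∑ u ∈ G.neighborFinset v, xH u - t * M) ≤
        ∑ v, max 0 (∑ u ∈ G.neighborFinset v, xH u - t * M) :=
      Finset.sum_le_sum fun v _ => le_max_right _ _
    rw [Finset.sum_sub_distrib, sum_neigh, Finset.sum_const, Finset.card_univ, nsmul_eq_mul,
      ← hn] at h4
    have h5 : ∑ u, (G.degree u : ℝ) * xH u = ∑ u ∈ H, (G.degree u : ℝ) * x u := by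
      have : ∀ u, (G.degree u : ℝ) * xH u = if u ∈ H then (G.degree u : ℝ) * x u else 0 := by
        intro u
        simp only [hxH]
        split_ifs <;> simp
      simp_rw [this]
      rw [← Finset.sum_filter]
      congr 1
      ext v; simp
    rw [h5] at h4
    linarith
  -- (d)
  have hd : lam * Sx ≤ D1 * Sx + ∑ u ∈ H, (G.degree u : ℝ) * x u := by
    have h1 : lam * Sx ≤ ∑ u, (G.degree u : ℝ) * x u := by
      rw [← sum_neigh, hSx, Finset.mul_sum]
      exact Finset.sum_le_sum fun v _ => heig v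
    have h2 : ∑ u, (G.degree u : ℝ) * x u ≤ ∑ u, (D1 * x u + if u ∈ H then (G.degree u : ℝ) * x u else 0) := by
      apply Finset.sum_le_sum
      intro u _
      split_ifs with h
      · have : 0 ≤ D1 * x u := mul_nonneg hD1 (hx u)
        linarith
      · have h3 : (G.degree u : ℝ) ≤ D1 := by
          by_contra hcon
          push Not at hcon
          exact h (Finset.mem_filter.2 ⟨Finset.mem_univ _, hcon.le⟩)
        have := mul_le_mul_of_nonneg_right h3 (hx u)
        linarith
    rw [Finset.sum_add_distrib, ← Finset.mul_sum, ← hSx] at h2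
    have h3 : ∑ u, (if u ∈ H then (G.degree u : ℝ) * x u else 0) = ∑ u ∈ H, (G.degree u : ℝ) * x u := by
      rw [← Finset.sum_filter]
      congr 1
      ext v; simp
    rw [h3] at h2
    linarith
  -- combine
  have e1 : R * (sr * SH) ≤ 2 * sr * (tr * M * n + τ * R * (sr * Sx)) := by
    have h1 : R * SH ≤ 2 * lam * SH := mul_le_mul_of_nonneg_right (by linarith) hSH0
    have h2 : R * SH ≤ 2 * (tr * M * n + τ * R * (sr * Sx)) := by linarith
    have h3 := mul_le_mul_of_nonneg_left h2 (by linarith : (0:ℝ) ≤ sr)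
    linarith
  have e2 : M * n ≤ 4 * sr * Sx * (δ * R) := by
    have h1 : M * n ≤ M * (δ * R ^ 2) := mul_le_mul_of_nonneg_left hnR hM0
    have h2 : M * (δ * R ^ 2) = (M * R) * (δ * R) := by ring
    have h3 : (M * R) * (δ * R) ≤ (4 * sr * Sx) * (δ * R) :=
      mul_le_mul_of_nonneg_right hMle2 (by positivity)
    linarith
  have e3 : lam * Sx ≤ (D1 + ε * R) * Sx := by
    have h1 : lam * Sx ≤ D1 * Sx + (1 + 2 * sr) * tr * (M * n) + 2 * sr ^ 2 * τ * R * Sx := by
      nlinarith
    have h2 : (1 + 2 * sr) * tr * (M * n) ≤ (1 + 2 * sr) * tr * (4 * sr * Sx * (δ * R)) :=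
      mul_le_mul_of_nonneg_left e2 (by positivity)
    have h3 : (1 + 2 * sr) * tr * (4 * sr * Sx * (δ * R)) = ε / 2 * R * Sx := by
      rw [← hδ1]; ring
    have h4 : 2 * sr ^ 2 * τ * R * Sx ≤ ε / 2 * R * Sx := by
      apply mul_le_mul_of_nonneg_right _ hsum.le
      exact mul_le_mul_of_nonneg_right hτ2 hR0.le
    linarith
  exact le_of_mul_le_mul_right e3 hsum

end Pool.Agent.Zar74
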